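import Pool.Agent.Work.MP_972ac7_B.Interface

set_option autoImplicit false

open MeasureTheory
open scoped ENNReal

noncomputable section

namespace Pool.BS

open Pool.PQ Pool.TFD Pool.TC

theorem ACT_sum {G : Type} [Group G] [TopologicalSpace G] [MeasurableSpace G] {Γ : Subgroup G}
    {m : Measure (G ⧸ Γ)} {N : Subgroup Γ} (hA : AP m N) {ι : Type} (s : Finset ι)
    (f : ι → G → ℝ) (hc : ∀ i, Continuous (f i)) (hr : ∀ i, RIv N (f i)) :
    av m N (fun g => ∑ i ∈ s, f i g) = ∑ i ∈ s, av m N (f i) := by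
  classical
  induction s using Finset.induction_on with
  | empty => simpa using hA.const 0
  | insert i s hi ih =>
    have h1 : (fun g => ∑ j ∈ insert i s, f j g)
        = fun g => 1 * f i g + 1 * (∑ j ∈ s, f j g) := by
      funext g
      rw [Finset.sum_insert hi]
      ring
    rw [h1]
    have hcs : Continuous (fun g => ∑ j ∈ s, f j g) := continuous_finsetSum _ fun j _ => hc j
    have hrs : RIv N (fun g => ∑ j ∈ s, f j g) := by
      intro g n hn
      exact Finset.sum_congr rfl fun j _ => hr j g n hn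
    have h2 := hA.lin (f i) (fun g => ∑ j ∈ s, f j g) (hc i) (hr i) hcs hrs 1 1
    rw [h2, ih, Finset.sum_insert hi]
    ring

theorem p_ACT (hCMM : Stmt_CMM) (hFAV : Stmt_FAV) (hHEC : Stmt_HEC) (hAVP : Stmt_AVP) :
    Stmt_ACT := by
  intro G H _ _ _ _ _ _ _ _ _ _ _ Γ Λ μ' m' c' φ hLT hφ hΛ b hb hbR hneg δ hδ x hx
  classical
  obtain ⟨hC1, hC2, hC3⟩ := hCMM G H Γ Λ φ hΛ
  obtain ⟨hC1', hC2', hC3'⟩ := hCMM G G Γ Γ (MonoidHom.id G) (fun y hy => hy)
  have hHE := hHEC G Γ δ hδ b hb hbR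
  have hJ : (Nc Γ (MonoidHom.id G) Γ δ).FiniteIndex := hC2' δ hδ
  haveI : Fintype (Γ ⧸ Nc Γ (MonoidHom.id G) Γ δ) :=
    Subgroup.fintypeQuotientOfFiniteIndex
  -- the points
  set xx : Γ ⧸ Nc Γ (MonoidHom.id G) Γ δ → G := fun y => x * ((Quotient.out y : Γ) : G) * δ
    with hxx
  have hxxm : ∀ y, xx y ∈ Subgroup.Commensurable.commensurator Γ := fun y =>
    mul_mem (mul_mem hx (hC1 (Quotient.out y : Γ).2)) hδ
  have hfi : ∀ y, (Nc Λ φ Γ (xx y)).FiniteIndex := fun y => hC2 _ (hxxm y)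
  have hfi0 : (Nc Λ φ Γ x).FiniteIndex := hC2 x hx
  have hfi1 : (⨅ y, Nc Λ φ Γ (xx y)).FiniteIndex := Subgroup.finiteIndex_iInf hfi
  have hfi2 : (Nc Λ φ Γ x ⊓ ⨅ y, Nc Λ φ Γ (xx y)).FiniteIndex := inferInstance
  set N' : Subgroup Λ := Nc Λ φ Γ x ⊓ ⨅ y, Nc Λ φ Γ (xx y) with hN'
  have hAN' : AP m' N' := hAVP H Λ μ' m' c' hLT N' hfi2
  -- the functions
  have hby : ∀ y, Continuous (fun h : H => b (φ h * xx y)) := fun y =>
    hb.comp (hφ.mul continuous_const)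
  have hbyR : ∀ y, RIv (Nc Λ φ Γ (xx y)) (fun h : H => b (φ h * xx y)) := fun y =>
    hC3 (xx y) b hbR
  have hle : ∀ y, N' ≤ Nc Λ φ Γ (xx y) := fun y => inf_le_right.trans (iInf_le _ y)
  have hbyR' : ∀ y, RIv N' (fun h : H => b (φ h * xx y)) := fun y g n hn =>
    hbyR y g n (hle y hn)
  have href : ∀ y, av m' N' (fun h : H => b (φ h * xx y)) = Ac m' φ Γ (xx y) b := fun y =>
    (hAVP H Λ μ' m' c' hLT _ (hfi y)).ref N' hfi2 (hle y) _ (hbyR y)
  have h0R : RIv (Nc Λ φ Γ x) (fun h : H => Td Γ δ b (φ h * x)) := hC3 x _ hHE.2.1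
  have h0 : av m' N' (fun h : H => Td Γ δ b (φ h * x)) = Ac m' φ Γ x (Td Γ δ b) :=
    (hAVP H Λ μ' m' c' hLT _ hfi0).ref N' hfi2 inf_le_left _ h0R
  rw [← h0]
  have hform : (fun h : H => Td Γ δ b (φ h * x)) = fun h : H =>
      ((Nc Γ (MonoidHom.id G) Γ δ).index : ℝ)⁻¹ * (∑ y, b (φ h * xx y)) + 0 * 0 := by
    funext h
    unfold Td fav
    rw [finsum_eq_sum_of_fintype]
    have : ∀ y : Γ ⧸ Nc Γ (MonoidHom.id G) Γ δ,
        b (φ h * x * ((Quotient.out y : Γ) : G) * δ) = b (φ h * xx y) := by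
      intro y
      rw [hxx]
      simp only [mul_assoc]
    simp only [this]
    ring
  rw [hform]
  have hcs : Continuous (fun h : H => ∑ y, b (φ h * xx y)) :=
    continuous_finsetSum _ fun y _ => hby y
  have hrs : RIv N' (fun h : H => ∑ y, b (φ h * xx y)) := by
    intro g n hn
    exact Finset.sum_congr rfl fun j _ => hbyR' j g n hn
  have hl := hAN'.lin (fun h : H => ∑ y, b (φ h * xx y)) (fun _ => (0 : ℝ)) hcs hrs
    continuous_const (fun _ _ _ => rfl) ((Nc Γ (MonoidHom.id G) Γ δ).index : ℝ)⁻¹ 0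
  rw [hl, ACT_sum hAN' Finset.univ (fun y h => b (φ h * xx y)) hby hbyR', zero_mul, add_zero]
  apply mul_nonpos_of_nonneg_of_nonpos
  · positivity
  · apply Finset.sum_nonpos
    intro y _
    rw [href y]
    exact hneg _ (hxxm y)

end Pool.BS
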