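import Pool.Agent.Work.MP_972ac7_B.Interface

set_option autoImplicit false

/-! # THEOREM BS (MP_972ac7_al), block AVP: the average over `G ⧸ N` -/

open MeasureTheory
open scoped ENNReal

noncomputable section

namespace Pool.BS

open Pool.PQ Pool.TFD Pool.TC

/-- The elementary properties of the average over `G ⧸ N`. -/
theorem p_AVP (hMEN : Stmt_MEN) (hFAV : Stmt_FAV) : Stmt_AVP := by
  intro G _ _ _ _ _ _ _ _ Γ μ m c hLT N hN
  have hM : MP Γ m := hMEN G Γ μ m c hLT
  obtain ⟨f1, f2, f3, f4, f5, f6⟩ := hFAV G Γ N hN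
  refine ⟨?_, ?_, ?_, ?_, ?_⟩
  · intro b hb hr u
    have h1 : fav N (fun g => b (u * g)) = fun g => fav N b (u * g) := by
      funext g
      unfold fav
      simp only [mul_assoc]
    unfold av
    rw [h1]
    exact hM.left (fav N b) (f6 b hb) (f1 b hr) u
  · intro b b' hb hr hb' hr' s t
    have h1 : fav N (fun g => s * b g + t * b' g) = fun g => s * fav N b g + t * fav N b' g := by
      funext g
      exact f5 b b' s t g
    unfold av
    rw [h1]
    exact hM.lin (fav N b) (fav N b') (f6 b hb) (f1 b hr) (f6 b' hb') (f1 b' hr') s t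
  · intro b b' hb hr hb' hr' hle
    exact hM.mono (fav N b) (fav N b') (f6 b hb) (f1 b hr) (f6 b' hb') (f1 b' hr') (f4 b b' hle)
  · intro t
    have h1 : fav N (fun _ : G => t) = fun _ => t := f3 _ (fun g n _ => rfl)
    unfold av
    rw [h1]
    exact hM.const t
  · intro N' hN' hle b hr
    unfold av
    rw [f2 b hr N' hN' hle]

end Pool.BS
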