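import Pool.Agent.Work.MP_972ac7_B.Interface

set_option autoImplicit false

open MeasureTheory
open scoped ENNReal

noncomputable section

namespace Pool.BS

open Pool.PQ Pool.TFD Pool.TC

theorem p_BBC : Stmt_BBC := by
  intro H _ _ _ _ _ _ _ _ μ B hμ hB K _ _ F hF
  refine ⟨?_, ?_, ?_⟩
  · have h1 : Continuous (Function.uncurry fun (z h : H) => ‖F (h * z) - F z‖ ^ 2) := by
      have : Continuous fun p : H × H => ‖F (p.2 * p.1) - F p.1‖ ^ 2 := by fun_prop
      exact this
    exact continuous_parametric_integral_of_continuous h1 hB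
  · intro z
    exact integral_nonneg fun h => sq_nonneg _
  · intro Λ N π hE g n hn
    unfold bb
    congr 1
    funext h
    congr 1
    have h1 := hE (h * g) ⟨n, hn⟩
    have h2 := hE g ⟨n, hn⟩
    rw [← h1, ← h2, ← map_sub, LinearIsometryEquiv.norm_map, mul_assoc]

end Pool.BS
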