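import Pool.Agent.Work.MP_972ac7_B.Interface

set_option autoImplicit false

/-! # THEOREM BS (MP_972ac7_al), block CIR: a fixed vector near an almost fixed vector -/

open MeasureTheory
open scoped ENNReal

noncomputable section

namespace Pool.BS

open Pool.PQ Pool.TFD Pool.TC

/-- A fixed vector near an almost fixed vector. -/
theorem p_CIR : Stmt_CIR := by
  intro A E _ _ _ _ U v r hv
  letI : InnerProductSpace ℝ E := InnerProductSpace.rclikeToReal ℂ E
  set S : Set E := Set.range (fun a : A => U a v) with hS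
  set K : Set E := closure (convexHull ℝ S) with hK
  have hKconv : Convex ℝ K := (convex_convexHull ℝ S).closure
  have hKcl : IsClosed K := isClosed_closure
  have hSK : S ⊆ K := (subset_convexHull ℝ S).trans subset_closure
  have hKne : K.Nonempty := ⟨v, hSK ⟨1, by simp⟩⟩
  have hsm : ∀ (a : A) (s : ℝ) (x : E), U a (s • x) = s • U a x := by
    intro a s x
    have h1 : s • x = (s : ℂ) • x := RCLike.real_smul_eq_coe_smul (K := ℂ) s x
    have h2 : s • U a x = (s : ℂ) • U a x := RCLike.real_smul_eq_coe_smul (K := ℂ) s (U a x)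
    rw [h1, h2, map_smul]
  have hinv : ∀ a : A, ∀ x ∈ K, U a x ∈ K := by
    intro a
    have hcl : IsClosed ((U a) ⁻¹' K) := hKcl.preimage (U a).continuous
    have hcv : Convex ℝ ((U a) ⁻¹' K) := by
      intro x hx y hy s t hs ht hst
      change U a (s • x + t • y) ∈ K
      rw [map_add, hsm, hsm]
      exact hKconv hx hy hs ht hst
    have hsub : S ⊆ (U a) ⁻¹' K := by
      rintro _ ⟨b, rfl⟩
      apply hSK
      refine ⟨a * b, ?_⟩
      simp [map_mul]
    exact fun x hx => (closure_minimal (convexHull_min hsub hcv) hcl) hx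
  obtain ⟨w, hwK, hw⟩ := exists_norm_eq_iInf_of_complete_convex hKne hKcl.isComplete hKconv (0 : E)
  have hmin : ∀ x ∈ K, ‖w‖ ≤ ‖x‖ := by
    intro x hx
    have h1 : ⨅ y : K, ‖(0 : E) - y‖ ≤ ‖(0 : E) - (⟨x, hx⟩ : K)‖ :=
      ciInf_le ⟨0, by rintro _ ⟨y, rfl⟩; exact norm_nonneg _⟩ _
    rw [← hw] at h1
    simpa using h1
  have huniq : ∀ x ∈ K, ‖x‖ = ‖w‖ → x = w := by
    intro x hx hxw
    have hm : (1 / 2 : ℝ) • x + (1 / 2 : ℝ) • w ∈ K :=
      hKconv hx hwK (by norm_num) (by norm_num) (by norm_num)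
    have h1 := hmin _ hm
    rw [← smul_add, norm_smul, Real.norm_eq_abs, abs_of_pos (by norm_num : (0 : ℝ) < 1 / 2)] at h1
    have h2 := parallelogram_law_with_norm ℝ x w
    rw [hxw] at h2
    have h3 : ‖x - w‖ = 0 := by
      have h4 : 0 ≤ ‖x - w‖ := norm_nonneg _
      have h5 : 0 ≤ ‖w‖ := norm_nonneg _
      have h6 : ‖x - w‖ * ‖x - w‖ ≤ 0 := by nlinarith
      nlinarith
    exact sub_eq_zero.1 (norm_eq_zero.1 h3)
  refine ⟨w, fun a => huniq _ (hinv a w hwK) (LinearIsometryEquiv.norm_map _ _), ?_⟩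
  have hball : K ⊆ Metric.closedBall v r := by
    apply closure_minimal _ Metric.isClosed_closedBall
    apply convexHull_min _ (convex_closedBall v r)
    rintro _ ⟨a, rfl⟩
    rw [Metric.mem_closedBall, dist_eq_norm]
    exact hv a
  have := hball hwK
  rw [Metric.mem_closedBall, dist_eq_norm, norm_sub_rev] at this
  exact this

end Pool.BS
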