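import Pool.Agent.Work.MP_972ac7_B.Interface

set_option autoImplicit false

/-! Block CMM of THEOREM BS (helper88). -/

namespace Pool.BS

open Pool.PQ Pool.TFD Pool.TC
open scoped Pointwise

theorem p_CMM : Stmt_CMM := by
  intro G H _ _ Γ Λ φ hφ
  refine ⟨?_, ?_, ?_⟩
  · intro g hg
    rw [Subgroup.Commensurable.commensurator_mem_iff]
    have : ConjAct.toConjAct g • Γ = Γ := by
      ext y
      rw [Subgroup.mem_pointwise_smul_iff_inv_smul_mem, ConjAct.smul_def]
      simp only [ConjAct.ofConjAct_inv, ConjAct.ofConjAct_toConjAct, inv_inv]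
      constructor
      · intro h
        have h2 := Γ.mul_mem (Γ.mul_mem hg h) (Γ.inv_mem hg)
        have h3 : g * (g⁻¹ * y * g) * g⁻¹ = y := by group
        rwa [h3] at h2
      · intro h
        exact Γ.mul_mem (Γ.mul_mem (Γ.inv_mem hg) h) hg
    rw [this]
  · intro x hx
    have hx' := (Subgroup.Commensurable.commensurator Γ).inv_mem hx
    rw [Subgroup.Commensurable.commensurator_mem_iff] at hx'
    refine ⟨?_⟩
    unfold Nc
    rw [Subgroup.index_comap]
    intro h0
    have hle : ((MulAut.conj x⁻¹).toMonoidHom.comp (φ.comp Λ.subtype)).range ≤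
        ConjAct.toConjAct x⁻¹ • Γ := by
      rintro _ ⟨y, rfl⟩
      rw [Subgroup.mem_pointwise_smul_iff_inv_smul_mem, ConjAct.smul_def]
      simp only [ConjAct.ofConjAct_inv, ConjAct.ofConjAct_toConjAct, inv_inv]
      have h2 : x * ((MulAut.conj x⁻¹).toMonoidHom.comp (φ.comp Λ.subtype)) y * x⁻¹
          = φ y := by
        simp [mul_assoc]
      rw [h2]
      exact hφ _ y.2
    have h1 := Subgroup.relIndex_eq_zero_of_le_right hle h0
    exact hx'.2 h1
  · intro x a ha h n hn
    rw [mem_Nc] at hn
    have := ha (φ h * x) ⟨_, hn⟩ trivial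
    simp only [map_mul]
    rw [← this]
    congr 1
    group

end Pool.BS
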