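import Pool.Agent.Work.MP_972ac7_B.Interface

set_option autoImplicit false

open MeasureTheory
open scoped ENNReal Topology

noncomputable section

namespace Pool.BS

open Pool.PQ Pool.TFD Pool.TC

theorem p_CPK : Stmt_CPK := by
  intro G _ _ _ _ Γ hc
  have h1 : ∀ x : G ⧸ Γ, ∃ K : Set G, IsCompact K ∧ ((↑) : G → G ⧸ Γ) '' K ∈ 𝓝 x := by
    intro x
    obtain ⟨g, rfl⟩ := QuotientGroup.mk_surjective x
    obtain ⟨K, hK, hK1⟩ := exists_compact_mem_nhds g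
    exact ⟨K, hK, QuotientGroup.isOpenMap_coe.image_mem_nhds hK1⟩
  choose K hK hK1 using h1
  obtain ⟨t, -, ht⟩ := isCompact_univ.elim_nhds_subcover
    (fun x => ((↑) : G → G ⧸ Γ) '' K x) (fun x _ => hK1 x)
  refine ⟨⋃ x ∈ t, K x, t.isCompact_biUnion fun x _ => hK x, fun g => ?_⟩
  have h2 := ht (Set.mem_univ (g : G ⧸ Γ))
  rw [Set.mem_iUnion₂] at h2
  obtain ⟨x, hx, k, hk, hkg⟩ := h2
  refine ⟨g⁻¹ * k, ?_, ?_⟩
  · exact QuotientGroup.eq.1 hkg.symm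
  · rw [mul_inv_cancel_left]
    exact Set.mem_iUnion₂.2 ⟨x, hx, hk⟩

end Pool.BS
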