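import Pool.Agent.Work.MP_972ac7_B.Interface

set_option autoImplicit false

open MeasureTheory
open scoped ENNReal BoundedContinuousFunction

noncomputable section

namespace Pool.BS

open Pool.PQ Pool.TFD Pool.TC

theorem CPT_cont {G : Type} [Group G] [TopologicalSpace G] [IsTopologicalGroup G]
    (b : G → ℝ) (ω : G → ℝ) (hω : Filter.Tendsto ω (nhds 1) (nhds 0))
    (hb : ∀ u g, |b (u * g) - b g| ≤ ω u) : Continuous b := by
  rw [continuous_iff_continuousAt]
  intro g
  rw [ContinuousAt, tendsto_iff_dist_tendsto_zero]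
  have h1 : Filter.Tendsto (fun g' : G => ω (g' * g⁻¹)) (nhds g) (nhds 0) := by
    refine hω.comp ?_
    have h2 : Filter.Tendsto (fun g' : G => g' * g⁻¹) (nhds g) (nhds (g * g⁻¹)) :=
      (continuous_id.mul continuous_const).tendsto g
    rwa [mul_inv_cancel] at h2
  refine squeeze_zero (fun _ => dist_nonneg) (fun g' => ?_) h1
  have h3 := hb (g' * g⁻¹) g
  rw [inv_mul_cancel_right] at h3
  rw [Real.dist_eq]
  exact h3

theorem CPT_meas {G : Type} [Group G] [TopologicalSpace G] [IsTopologicalGroup G]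
    [MeasurableSpace G] [BorelSpace G] (Γ : Subgroup G) (f : (G ⧸ Γ) →ᵇ ℝ) :
    Measurable fun x : G ⧸ Γ => f x := by
  refine measurable_from_quotient.2 ?_
  have h1 : Continuous fun g : G => f (g : G ⧸ Γ) := f.continuous.comp continuous_quot_mk
  exact h1.measurable

theorem p_CPT (hMEN : Stmt_MEN) : Stmt_CPT := by
  intro G _ _ _ _ _ _ _ _ Γ μ m c hLT S M ω hSne hω hS hScl
  have hMP := hMEN G Γ μ m c hLT
  have hcs := hMP.cpt
  have hpr := hLT.qd.prob
  set A : Set ((G ⧸ Γ) →ᵇ ℝ) := {f | (fun g : G => f (g : G ⧸ Γ)) ∈ S} with hA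
  have hAclosed : IsClosed A := by
    refine isClosed_of_closure_subset ?_
    intro f hf
    show (fun g : G => f (g : G ⧸ Γ)) ∈ S
    apply hScl
    intro ε hε
    obtain ⟨f', hf', hd⟩ := Metric.mem_closure_iff.1 hf ε hε
    refine ⟨_, hf', fun g => ?_⟩
    have h1 := BoundedContinuousFunction.dist_coe_le_dist (f := f) (g := f') (g : G ⧸ Γ)
    rw [Real.dist_eq] at h1
    exact h1.trans hd.le
  have hin : ∀ (f : (G ⧸ Γ) →ᵇ ℝ) (x : G ⧸ Γ), f ∈ A → f x ∈ Set.Icc (-M) M := by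
    intro f x hf
    obtain ⟨g, rfl⟩ := QuotientGroup.mk_surjective x
    exact abs_le.1 ((hS _ hf).2.1 g)
  have hEq : Equicontinuous ((↑) : A → (G ⧸ Γ) → ℝ) := by
    intro x0
    obtain ⟨g0, rfl⟩ := QuotientGroup.mk_surjective x0
    rw [Metric.equicontinuousAt_iff_right]
    intro ε hε
    have hW : {u : G | ω u < ε} ∈ nhds (1 : G) := hω (Iio_mem_nhds hε)
    have hop : IsOpenMap (fun u : G => ((u * g0 : G) : G ⧸ Γ)) :=
      QuotientGroup.isOpenMap_coe.comp (isOpenMap_mul_right g0)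
    have hV := hop.image_mem_nhds hW
    rw [one_mul] at hV
    filter_upwards [hV] with x hx
    obtain ⟨u, hu, rfl⟩ := hx
    intro f
    have h1 := (hS _ f.2).2.2 u g0
    rw [dist_comm, Real.dist_eq]
    exact h1.trans_lt hu
  have hAc : IsCompact A :=
    BoundedContinuousFunction.arzela_ascoli₂ (Set.Icc (-M) M) isCompact_Icc A hAclosed hin hEq
  -- the functions of S give elements of A
  have hlift : ∀ b ∈ S, ∃ f ∈ A, ∀ g : G, f (g : G ⧸ Γ) = b g := by
    intro b hb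
    obtain ⟨h1, h2, h3⟩ := hS b hb
    have hc : Continuous b := CPT_cont b ω hω h3
    have hcq := hMP.cont b hc h1
    set f : (G ⧸ Γ) →ᵇ ℝ := BoundedContinuousFunction.mkOfCompact ⟨_, hcq⟩ with hf
    have hfg : ∀ g : G, f (g : G ⧸ Γ) = b g := fun g => hMP.out b h1 g
    refine ⟨f, ?_, hfg⟩
    show (fun g : G => f (g : G ⧸ Γ)) ∈ S
    have h4 : (fun g : G => f (g : G ⧸ Γ)) = b := funext hfg
    rw [h4]
    exact hb
  have hAne : A.Nonempty := by
    obtain ⟨b, hb⟩ := hSne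
    obtain ⟨f, hf, -⟩ := hlift b hb
    exact ⟨f, hf⟩
  have hmean : ∀ f : (G ⧸ Γ) →ᵇ ℝ,
      mean m (fun g : G => (f (g : G ⧸ Γ)) ^ 2) = ∫ x : G ⧸ Γ, (f x) ^ 2 ∂m := by
    intro f
    unfold mean
    congr 1
    funext x
    show (f ((Quotient.out x : G) : G ⧸ Γ)) ^ 2 = f x ^ 2
    rw [QuotientGroup.out_eq']
  have hcont : ContinuousOn (fun f : (G ⧸ Γ) →ᵇ ℝ => ∫ x : G ⧸ Γ, (f x) ^ 2 ∂m) A := by
    refine continuousOn_of_dominated (bound := fun _ => M ^ 2) ?_ ?_ (integrable_const _) ?_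
    · intro f hf
      exact ((CPT_meas Γ f).pow_const 2).aestronglyMeasurable
    · intro f hf
      refine Filter.Eventually.of_forall fun x => ?_
      have h1 := hin f x hf
      rw [Real.norm_eq_abs, abs_of_nonneg (sq_nonneg _)]
      exact sq_le_sq' h1.1 h1.2
    · refine Filter.Eventually.of_forall fun x => ?_
      have h1 : Continuous fun f : (G ⧸ Γ) →ᵇ ℝ => f x := by fun_prop
      exact (h1.pow 2).continuousOn
  obtain ⟨f₀, hf₀, hmin⟩ := hAc.exists_isMinOn hAne hcont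
  refine ⟨fun g : G => f₀ (g : G ⧸ Γ), hf₀, ?_⟩
  intro b hb
  obtain ⟨f, hf, hfg⟩ := hlift b hb
  have h1 : (fun g : G => b g ^ 2) = fun g : G => (f (g : G ⧸ Γ)) ^ 2 :=
    funext fun g => by rw [hfg]
  rw [h1, hmean f₀, hmean f]
  exact hmin hf

end Pool.BS
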