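import Pool.Agent.Work.MP_972ac7_B.Interface

set_option autoImplicit false

/-! # THEOREM BS (MP_972ac7_al), block EQ: Hecke averaging -/

open MeasureTheory
open scoped ENNReal

noncomputable section

namespace Pool.BS

open Pool.PQ Pool.TFD Pool.TC

section aux0

variable {G : Type} [Group G] {Γ : Subgroup G}

theorem EQ_const (N : Subgroup Γ) (t : ℝ) : RIv N (fun _ : G => t) := fun _ _ _ => rfl

theorem EQ_lin {N : Subgroup Γ} {b b' : G → ℝ} (hb : RIv N b) (hb' : RIv N b') (s t : ℝ) :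
    RIv N (fun g => s * b g + t * b' g) := by
  intro g n hn
  show s * b (g * n) + t * b' (g * n) = s * b g + t * b' g
  rw [hb g n hn, hb' g n hn]

theorem EQ_sq {N : Subgroup Γ} {b : G → ℝ} (hb : RIv N b) : RIv N (fun g => b g ^ 2) := by
  intro g n hn
  show b (g * n) ^ 2 = b g ^ 2
  rw [hb g n hn]

end aux0

section aux

variable {G : Type} [Group G] [TopologicalSpace G] [MeasurableSpace G] {Γ : Subgroup G}
  {m : Measure (G ⧸ Γ)}

theorem EQ_ap {N : Subgroup Γ} (h : AP m N) {b b' : G → ℝ} (hb : Continuous b)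
    (hbR : RIv N b) (hb' : Continuous b') (hbR' : RIv N b') (ε : ℝ)
    (hle : ∀ g, b g ≤ b' g + ε) : av m N b ≤ av m N b' + ε := by
  have h1 := h.lin b' (fun _ => 1) hb' hbR' continuous_const (EQ_const N 1) 1 ε
  have h2 : av m N b ≤ av m N (fun g => 1 * b' g + ε * 1) := by
    refine h.mono b _ hb hbR (by fun_prop) (EQ_lin hbR' (EQ_const N 1) 1 ε) fun g => ?_
    have := hle g
    linarith
  rw [h1, h.const 1] at h2
  linarith

theorem EQ_mp (h : MP Γ m) {b b' : G → ℝ} (hb : Continuous b)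
    (hbR : RIv (⊤ : Subgroup Γ) b) (hb' : Continuous b') (hbR' : RIv (⊤ : Subgroup Γ) b') (ε : ℝ)
    (hle : ∀ g, b g ≤ b' g + ε) : mean m b ≤ mean m b' + ε := by
  have h1 := h.lin b' (fun _ => 1) hb' hbR' continuous_const (EQ_const _ 1) 1 ε
  have h2 : mean m b ≤ mean m (fun g => 1 * b' g + ε * 1) := by
    refine h.mono b _ hb hbR (by fun_prop) (EQ_lin hbR' (EQ_const _ 1) 1 ε) fun g => ?_
    have := hle g
    linarith
  rw [h1, h.const 1] at h2
  linarith

end aux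

theorem p_EQ (hMEN : Stmt_MEN) (hAVP : Stmt_AVP) (hCMM : Stmt_CMM) (hHEC : Stmt_HEC)
    (hACT : Stmt_ACT) (hTIN : Stmt_TIN) (hUCT : Stmt_UCT) (hCPT : Stmt_CPT) : Stmt_EQ := by
  intro G H _ _ _ _ _ _ _ _ _ _ _ _ _ _ _ _ Γ μ m c Λ μ' m' c' φ hLT hLT' hφ hφΛ hdense a ha haR
    haA
  have hMP : MP Γ m := hMEN G Γ μ m c hLT
  obtain ⟨M, ω, hM, hω, haω⟩ := hUCT G Γ hMP.cpt a ha haR
  obtain ⟨hΓc, hfin, hRc⟩ := hCMM G H Γ Λ φ hφΛ
  have hAP : ∀ x ∈ Subgroup.Commensurable.commensurator Γ, AP m' (Nc Λ φ Γ x) :=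
    fun x hx => hAVP H Λ μ' m' c' hLT' (Nc Λ φ Γ x) (hfin x hx)
  have hcx : ∀ (x : G) (b : G → ℝ), Continuous b → Continuous fun h : H => b (φ h * x) :=
    fun x b hb => hb.comp (hφ.mul continuous_const)
  obtain ⟨S, hS⟩ : ∃ S : Set (G → ℝ), ∀ b, b ∈ S ↔ (Continuous b ∧ RIv (⊤ : Subgroup Γ) b ∧
      (∀ x ∈ Subgroup.Commensurable.commensurator Γ, Ac m' φ Γ x b ≤ 0) ∧
      mean m b = mean m a ∧ (∀ g, |b g| ≤ M) ∧ ∀ u g, |b (u * g) - b g| ≤ ω u) :=
    ⟨{b | _}, fun b => Iff.rfl⟩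
  have haS : a ∈ S := (hS a).mpr ⟨ha, haR, haA, rfl, hM, haω⟩
  -- closed under uniform limits
  have hclosed : ∀ b : G → ℝ, (∀ ε : ℝ, 0 < ε → ∃ b' ∈ S, ∀ g, |b g - b' g| ≤ ε) → b ∈ S := by
    intro b hb
    have hbc : Continuous b := by
      apply continuous_of_uniform_approx_of_continuous
      intro u hu
      obtain ⟨ε, hε, hεu⟩ := Metric.mem_uniformity_dist.mp hu
      obtain ⟨b', hb'S, hb'⟩ := hb (ε / 2) (by positivity)
      refine ⟨b', ((hS b').mp hb'S).1, fun y => hεu ?_⟩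
      rw [Real.dist_eq]
      exact lt_of_le_of_lt (hb' y) (by linarith)
    have hbR : RIv (⊤ : Subgroup Γ) b := by
      intro g n hn
      apply eq_of_abs_sub_le_all
      intro ε hε
      obtain ⟨b', hb'S, hb'⟩ := hb (ε / 2) (by positivity)
      have h1 := hb' (g * n)
      have h2 := hb' g
      rw [((hS b').mp hb'S).2.1 g n hn] at h1
      rw [abs_le] at h1 h2 ⊢
      constructor <;> linarith [h1.1, h1.2, h2.1, h2.2]
    refine (hS b).mpr ⟨hbc, hbR, fun x hx => ?_, ?_, fun g => ?_, fun u g => ?_⟩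
    · apply le_of_forall_pos_le_add
      intro ε hε
      obtain ⟨b', hb'S, hb'⟩ := hb ε hε
      have hb's := (hS b').mp hb'S
      have h1 := EQ_ap (hAP x hx) (hcx x b hbc) (hRc x b hbR) (hcx x b' hb's.1)
        (hRc x b' hb's.2.1) ε (fun h => by
          have := hb' (φ h * x)
          rw [abs_le] at this
          linarith [this.1, this.2])
      have h2 : Ac m' φ Γ x b' ≤ 0 := hb's.2.2.1 x hx
      show av m' (Nc Λ φ Γ x) (fun h => b (φ h * x)) ≤ 0 + ε
      have h3 : av m' (Nc Λ φ Γ x) (fun h => b' (φ h * x)) ≤ 0 := h2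
      linarith
    · apply eq_of_abs_sub_le_all
      intro ε hε
      obtain ⟨b', hb'S, hb'⟩ := hb ε hε
      have hb's := (hS b').mp hb'S
      have h1 := EQ_mp hMP hbc hbR hb's.1 hb's.2.1 ε (fun g => by
          have := hb' g
          rw [abs_le] at this
          linarith [this.1, this.2])
      have h2 := EQ_mp hMP hb's.1 hb's.2.1 hbc hbR ε (fun g => by
          have := hb' g
          rw [abs_le] at this
          linarith [this.1, this.2])
      rw [← hb's.2.2.2.1, abs_le]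
      constructor <;> linarith
    · apply le_of_forall_pos_le_add
      intro ε hε
      obtain ⟨b', hb'S, hb'⟩ := hb ε hε
      have hb's := (hS b').mp hb'S
      have h1 := hb' g
      have h2 := hb's.2.2.2.2.1 g
      rw [abs_le] at h1 h2 ⊢
      constructor <;> linarith [h1.1, h1.2, h2.1, h2.2]
    · apply le_of_forall_pos_le_add
      intro ε hε
      obtain ⟨b', hb'S, hb'⟩ := hb (ε / 2) (by positivity)
      have hb's := (hS b').mp hb'S
      have h1 := hb' g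
      have h2 := hb' (u * g)
      have h3 := hb's.2.2.2.2.2 u g
      rw [abs_le] at h1 h2 h3 ⊢
      constructor <;> linarith [h1.1, h1.2, h2.1, h2.2, h3.1, h3.2]
  obtain ⟨b₀, hb₀S, hmin⟩ := hCPT G Γ μ m c hLT S M ω ⟨a, haS⟩ hω
    (fun b hb => ⟨((hS b).mp hb).2.1, ((hS b).mp hb).2.2.2.2.1, ((hS b).mp hb).2.2.2.2.2⟩) hclosed
  obtain ⟨hbc, hbR, hbA, hbm, hbM, hbω⟩ := (hS b₀).mp hb₀S
  have hsqc : Continuous fun g => b₀ g ^ 2 := hbc.pow 2
  have hsqR : RIv (⊤ : Subgroup Γ) (fun g => b₀ g ^ 2) := EQ_sq hbR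
  have key : ∀ δ ∈ Subgroup.Commensurable.commensurator Γ, ∀ g, b₀ (g * δ) = b₀ g := by
    intro δ hδ
    obtain ⟨hTc, hTR, hTM, hTω, hT5, hT6⟩ := hHEC G Γ δ hδ b₀ hbc hbR
    obtain ⟨hT2c, hT2R, -, -, -, -⟩ := hHEC G Γ δ hδ (fun g => b₀ g ^ 2) hsqc hsqR
    have hTm : mean m (Td Γ δ b₀) = mean m b₀ := hTIN G Γ μ m c hLT δ hδ b₀ hbc hbR
    have hT2m : mean m (Td Γ δ fun g => b₀ g ^ 2) = mean m fun g => b₀ g ^ 2 :=
      hTIN G Γ μ m c hLT δ hδ _ hsqc hsqR
    have hTA : ∀ x ∈ Subgroup.Commensurable.commensurator Γ, Ac m' φ Γ x (Td Γ δ b₀) ≤ 0 :=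
      hACT G H Γ Λ μ' m' c' φ hLT' hφ hφΛ b₀ hbc hbR hbA δ hδ
    obtain ⟨T, hT⟩ : ∃ T : G → ℝ, T = Td Γ δ b₀ := ⟨_, rfl⟩
    obtain ⟨T2, hT2⟩ : ∃ T2 : G → ℝ, T2 = Td Γ δ (fun g => b₀ g ^ 2) := ⟨_, rfl⟩
    rw [← hT] at hTc hTR hTm hTA
    rw [← hT2] at hT2c hT2R hT2m
    rw [← hT, ← hT2] at hT5 hT6
    have hTM' : ∀ g, |T g| ≤ M := by rw [hT]; exact hTM M hbM
    have hTω' : ∀ u g, |T (u * g) - T g| ≤ ω u := by
      intro u
      rw [hT]
      exact hTω u (ω u) (hbω u)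
    have hTsc : Continuous fun g => T g ^ 2 := hTc.pow 2
    have hTsR : RIv (⊤ : Subgroup Γ) (fun g => T g ^ 2) := EQ_sq hTR
    -- the midpoint
    have hb₁S : (fun g => (1 / 2) * b₀ g + (1 / 2) * T g) ∈ S := by
      refine (hS _).mpr ⟨by fun_prop, EQ_lin hbR hTR _ _, fun x hx => ?_, ?_, fun g => ?_,
        fun u g => ?_⟩
      · have h1 := (hAP x hx).lin (fun h => b₀ (φ h * x)) (fun h => T (φ h * x)) (hcx x b₀ hbc)
          (hRc x b₀ hbR) (hcx x T hTc) (hRc x T hTR) (1 / 2) (1 / 2)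
        have h2 : av m' (Nc Λ φ Γ x) (fun h => b₀ (φ h * x)) ≤ 0 := hbA x hx
        have h3 : av m' (Nc Λ φ Γ x) (fun h => T (φ h * x)) ≤ 0 := hTA x hx
        show av m' (Nc Λ φ Γ x) (fun h => (1 / 2) * b₀ (φ h * x) + (1 / 2) * T (φ h * x)) ≤ 0
        rw [h1]
        linarith
      · rw [hMP.lin b₀ T hbc hbR hTc hTR, hTm, hbm]
        ring
      · show |(1 / 2) * b₀ g + (1 / 2) * T g| ≤ M
        have h1 := hbM g
        have h2 := hTM' g
        rw [abs_le] at h1 h2 ⊢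
        constructor <;> linarith [h1.1, h1.2, h2.1, h2.2]
      · show |((1 / 2) * b₀ (u * g) + (1 / 2) * T (u * g)) - ((1 / 2) * b₀ g + (1 / 2) * T g)| ≤ ω u
        have h1 := hbω u g
        have h2 := hTω' u g
        rw [abs_le] at h1 h2 ⊢
        constructor <;> linarith [h1.1, h1.2, h2.1, h2.2]
    have hmin1 := hmin _ hb₁S
    -- the difference
    have hdc : Continuous fun g => (1 * b₀ g + (-1) * T g) ^ 2 := by fun_prop
    have hdR : RIv (⊤ : Subgroup Γ) (fun g => (1 * b₀ g + (-1) * T g) ^ 2) :=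
      EQ_sq (EQ_lin hbR hTR 1 (-1))
    have hdecomp : mean m (fun g => ((1 / 2) * b₀ g + (1 / 2) * T g) ^ 2) =
        (1 / 2) * mean m (fun g => b₀ g ^ 2) + (1 / 2) * mean m (fun g => T g ^ 2) -
          (1 / 4) * mean m (fun g => (1 * b₀ g + (-1) * T g) ^ 2) := by
      have h1 := hMP.lin (fun g => (1 / 2) * b₀ g ^ 2 + (1 / 2) * T g ^ 2)
        (fun g => (1 * b₀ g + (-1) * T g) ^ 2) (by fun_prop) (EQ_lin hsqR hTsR _ _) hdc hdR 1
        (-(1 / 4))
      have h2 := hMP.lin (fun g => b₀ g ^ 2) (fun g => T g ^ 2) hsqc hsqR hTsc hTsR (1 / 2) (1 / 2)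
      rw [h2] at h1
      have h3 : (fun g => ((1 / 2) * b₀ g + (1 / 2) * T g) ^ 2) = fun g =>
          1 * ((1 / 2) * b₀ g ^ 2 + (1 / 2) * T g ^ 2) +
            (-(1 / 4)) * (1 * b₀ g + (-1) * T g) ^ 2 := by
        funext g
        ring
      rw [h3, h1]
      ring
    have hTle : mean m (fun g => T g ^ 2) ≤ mean m (fun g => b₀ g ^ 2) := by
      rw [← hT2m]
      exact hMP.mono _ _ hTsc hTsR hT2c hT2R hT5
    have hd0 : mean m (fun g => (1 * b₀ g + (-1) * T g) ^ 2) = 0 := by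
      apply le_antisymm
      · rw [hdecomp] at hmin1
        linarith
      · rw [← hMP.const 0]
        exact hMP.mono _ _ continuous_const (EQ_const _ 0) hdc hdR (fun g => by positivity)
    have hTb : ∀ g, T g = b₀ g := by
      intro g
      have h1 := hMP.zero _ hdc hdR (fun g => by positivity) hd0 g
      have h2 : 1 * b₀ g + (-1) * T g = 0 := by
        exact pow_eq_zero_iff (two_ne_zero) |>.mp h1
      linarith
    have hvc : Continuous fun g => 1 * T2 g + (-1) * T g ^ 2 := by fun_prop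
    have hvR : RIv (⊤ : Subgroup Γ) (fun g => 1 * T2 g + (-1) * T g ^ 2) :=
      EQ_lin hT2R hTsR 1 (-1)
    have hv0 : mean m (fun g => 1 * T2 g + (-1) * T g ^ 2) = 0 := by
      rw [hMP.lin T2 (fun g => T g ^ 2) hT2c hT2R hTsc hTsR 1 (-1), hT2m]
      have : (fun g => T g ^ 2) = fun g => b₀ g ^ 2 := by
        funext g
        rw [hTb g]
      rw [this]
      ring
    intro g
    have h1 := hMP.zero _ hvc hvR (fun g => by
      have := hT5 g
      show 0 ≤ 1 * T2 g + (-1) * T g ^ 2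
      linarith) hv0 g
    have h2 : T2 g = T g ^ 2 := by linarith
    rw [hT6 g h2, hTb g]
  -- `b₀` is constant
  have hconst : b₀ = fun _ => b₀ 1 := by
    apply Continuous.ext_on hdense hbc continuous_const
    intro δ hδ
    show b₀ δ = b₀ 1
    have := key δ hδ 1
    rwa [one_mul] at this
  have hmean : mean m a = b₀ 1 := by
    rw [← hbm, hconst]
    exact hMP.const _
  have h1 : (1 : G) ∈ Subgroup.Commensurable.commensurator Γ := one_mem _
  have h2 : Ac m' φ Γ 1 b₀ = b₀ 1 := by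
    rw [hconst]
    exact (hAP 1 h1).const _
  rw [hmean, ← h2]
  exact hbA 1 h1

end Pool.BS
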