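import Pool.Agent.Work.MP_972ac7_B.Interface

/-!
# Block FAV: algebra of the average over the cosets
-/

set_option autoImplicit false

open MeasureTheory
open scoped ENNReal

noncomputable section

namespace Pool.BS

open Pool.PQ Pool.TFD Pool.TC

section fa

variable {G : Type} [Group G] {Γ : Subgroup G}

/-- the value at a representative -/
theorem FAV_out {N : Subgroup Γ} {b : G → ℝ} (hb : RIv N b) (g : G) (x : Γ) :
    b (g * ((Quotient.out (x : Γ ⧸ N) : Γ) : G)) = b (g * (x : G)) := by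
  obtain ⟨δ, hδ⟩ := QuotientGroup.mk_out_eq_mul N x
  rw [hδ, Subgroup.coe_mul, ← mul_assoc]
  exact hb (g * (x : G)) (δ : Γ) δ.2

theorem FAV_inv {N : Subgroup Γ} {b : G → ℝ} (hb : RIv N b) :
    RIv (⊤ : Subgroup Γ) (fav N b) := by
  intro g n _
  unfold fav
  congr 1
  have h1 : ∀ y : Γ ⧸ N, b (g * (n : G) * ((Quotient.out y : Γ) : G)) =
      b (g * ((Quotient.out (n • y) : Γ) : G)) := by
    intro y
    have h2 : n • y = ((n * Quotient.out y : Γ) : Γ ⧸ N) := by
      conv_lhs => rw [← QuotientGroup.out_eq' y]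
      rfl
    rw [h2, FAV_out hb, Subgroup.coe_mul, mul_assoc]
  rw [finsum_congr h1]
  exact finsum_comp_equiv (MulAction.toPerm n : Equiv.Perm (Γ ⧸ N))
    (f := fun y => b (g * ((Quotient.out y : Γ) : G)))

theorem FAV_ref {N N' : Subgroup Γ} (hN : N.FiniteIndex) (hN' : N'.FiniteIndex) (hle : N' ≤ N)
    {b : G → ℝ} (hb : RIv N b) : fav N' b = fav N b := by
  funext g
  have := hN
  have := hN'
  unfold fav
  have e := Subgroup.quotientEquivProdOfLE hle
  have hfin : Finite (Γ ⧸ N') := inferInstance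
  have hfin2 : Finite (Γ ⧸ N) := inferInstance
  have hfin3 : Finite (N ⧸ N'.subgroupOf N) := by
    have : Finite ((Γ ⧸ N) × (N ⧸ N'.subgroupOf N)) := Finite.of_equiv _ e
    exact Finite.of_injective (fun z : N ⧸ N'.subgroupOf N =>
      (((1 : Γ) : Γ ⧸ N), z)) fun a c h => (Prod.mk.inj h).2
  have _f1 := Fintype.ofFinite (Γ ⧸ N')
  have _f2 := Fintype.ofFinite (Γ ⧸ N)
  have _f3 := Fintype.ofFinite (N ⧸ N'.subgroupOf N)
  rw [finsum_eq_sum_of_fintype, finsum_eq_sum_of_fintype]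
  have h1 : ∑ y : Γ ⧸ N', b (g * ((Quotient.out y : Γ) : G)) =
      ∑ z : (Γ ⧸ N) × (N ⧸ N'.subgroupOf N), b (g * ((Quotient.out z.1 : Γ) : G)) := by
    rw [← Equiv.sum_comp (Subgroup.quotientEquivProdOfLE hle)]
    refine Finset.sum_congr rfl fun y _ => ?_
    have h2 : ((Subgroup.quotientEquivProdOfLE hle) y).1 = ((Quotient.out y : Γ) : Γ ⧸ N) := by
      conv_lhs => rw [← QuotientGroup.out_eq' y]
      rfl
    rw [h2, FAV_out hb]
  rw [h1, Fintype.sum_prod_type]
  simp only [Finset.sum_const, Finset.card_univ, nsmul_eq_mul]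
  rw [← Finset.mul_sum]
  have h3 : (N'.index : ℝ) = (N.index : ℝ) * (Fintype.card (N ⧸ N'.subgroupOf N) : ℝ) := by
    have h4 := Subgroup.relIndex_mul_index hle
    have h5 : N'.relIndex N = Fintype.card (N ⧸ N'.subgroupOf N) := by
      unfold Subgroup.relIndex
      rw [Subgroup.index_eq_card, Nat.card_eq_fintype_card]
    rw [← h4, h5]
    push_cast
    ring
  have h6 : (Fintype.card (N ⧸ N'.subgroupOf N) : ℝ) ≠ 0 := by
    have : Nonempty (N ⧸ N'.subgroupOf N) := ⟨((1 : N) : N ⧸ N'.subgroupOf N)⟩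
    exact_mod_cast Fintype.card_ne_zero
  have h7 : (N.index : ℝ) ≠ 0 := by exact_mod_cast hN.index_ne_zero
  rw [h3]
  field_simp

end fa

theorem p_FAV : Stmt_FAV := by
  intro G _ _ _ Γ N hN
  have := hN
  have hfin : Finite (Γ ⧸ N) := inferInstance
  have _f1 := Fintype.ofFinite (Γ ⧸ N)
  have h7 : (N.index : ℝ) ≠ 0 := by exact_mod_cast hN.index_ne_zero
  have h8 : (N.index : ℝ) = (Fintype.card (Γ ⧸ N) : ℝ) := by
    rw [Subgroup.index_eq_card, Nat.card_eq_fintype_card]
  have hf : ∀ (b : G → ℝ) (g : G), fav N b g =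
      (N.index : ℝ)⁻¹ * ∑ y : Γ ⧸ N, b (g * ((Quotient.out y : Γ) : G)) := by
    intro b g
    unfold fav
    rw [finsum_eq_sum_of_fintype]
  refine ⟨fun b hb => FAV_inv hb, fun b hb N' hN' hle => FAV_ref hN hN' hle hb, ?_, ?_, ?_, ?_⟩
  · intro b hb
    funext g
    rw [hf]
    have h9 : ∀ y : Γ ⧸ N, b (g * ((Quotient.out y : Γ) : G)) = b g := fun y =>
      hb g _ (Subgroup.mem_top _)
    rw [Finset.sum_congr rfl fun y _ => h9 y, Finset.sum_const, Finset.card_univ, nsmul_eq_mul,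
      ← h8, ← mul_assoc, inv_mul_cancel₀ h7, one_mul]
  · intro b b' hbb g
    rw [hf, hf]
    refine mul_le_mul_of_nonneg_left (Finset.sum_le_sum fun y _ => hbb _) ?_
    positivity
  · intro b b' s t g
    rw [hf, hf, hf, Finset.sum_add_distrib, ← Finset.mul_sum, ← Finset.mul_sum]
    ring
  · intro b hb
    have h10 : fav N b = fun g =>
        (N.index : ℝ)⁻¹ * ∑ y : Γ ⧸ N, b (g * ((Quotient.out y : Γ) : G)) := funext (hf b)
    rw [h10]
    refine continuous_const.mul (continuous_finsetSum _ fun y _ => ?_)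
    exact hb.comp (continuous_mul_const _)

end Pool.BS
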