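import Pool.Agent.Work.MP_972ac7_B.Interface

set_option autoImplicit false

/-! # Block FVC: equivariant continuous sections -/

open MeasureTheory
open scoped ENNReal

noncomputable section

namespace Pool.BS

open Pool.PQ Pool.TFD Pool.TC

theorem p_FVC (hPSI : Stmt_PSI) : Stmt_FVC := by
  intro G _ _ _ _ _ _ Γ K hd hK hcov D hD
  classical
  obtain ⟨ψ, hψc, hψ0, hψf, hψ1⟩ := hPSI G Γ K hd hK hcov
  refine ⟨(hψf D hD).toFinset, ?_⟩
  intro E _ _ π v
  -- the family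
  let F : Γ → G → E := fun γ g => ((ψ (g * γ) : ℝ) : ℂ) • π γ v
  have hFc : ∀ γ, Continuous (F γ) := by
    intro γ
    have h1 : Continuous fun g : G => ψ (g * γ) := hψc.comp (continuous_mul_const (γ : G))
    exact (Complex.continuous_ofReal.comp h1).smul continuous_const
  have hsupp : ∀ (γ : Γ) (g : G), F γ g ≠ 0 → ψ (g * γ) ≠ 0 := by
    intro γ g h h0
    apply h
    simp only [F, h0, Complex.ofReal_zero, zero_smul]
  have hloc : LocallyFinite fun γ => Function.support (F γ) := by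
    intro x
    obtain ⟨D', hD', hx⟩ := exists_compact_mem_nhds x
    refine ⟨D', hx, (hψf D' hD').subset ?_⟩
    rintro γ ⟨g, hg1, hg2⟩
    exact ⟨g, hg2, hsupp γ g hg1⟩
  have hfin : ∀ g : G, (Function.support fun γ => F γ g).Finite := by
    intro g
    refine (hψf {g} isCompact_singleton).subset ?_
    intro γ hγ
    exact ⟨g, rfl, hsupp γ g hγ⟩
  refine ⟨fun g => ∑ᶠ γ, F γ g, continuous_finsum hFc hloc, ?_, ?_⟩
  · intro g n
    have h1 : π n (∑ᶠ γ, F γ (g * (n : G))) = ∑ᶠ γ, π n (F γ (g * (n : G))) :=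
      ((π n).toLinearEquiv.toLinearMap.toAddMonoidHom).map_finsum (hfin (g * (n : G)))
    show π n (∑ᶠ γ, F γ (g * (n : G))) = ∑ᶠ γ, F γ g
    rw [h1, ← finsum_comp_equiv (Equiv.mulLeft n) (f := fun γ => F γ g)]
    refine finsum_congr fun γ => ?_
    simp only [F, Equiv.coe_mulLeft]
    rw [LinearIsometryEquiv.map_smul, map_mul, Subgroup.coe_mul, mul_assoc]
    rfl
  · intro ε hε g hg
    have hQ : ∀ γ : Γ, ψ (g * (γ : G)) ≠ 0 → γ ∈ (hψf D hD).toFinset := by
      intro γ h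
      rw [Set.Finite.mem_toFinset]
      exact ⟨g, hg, h⟩
    have h1 : (∑ᶠ γ, F γ g) = ∑ γ ∈ (hψf D hD).toFinset, F γ g := by
      refine finsum_eq_sum_of_support_subset _ ?_
      intro γ hγ
      exact hQ γ (hsupp γ g hγ)
    have h2 : ∑ γ ∈ (hψf D hD).toFinset, ψ (g * (γ : G)) = 1 := by
      rw [← hψ1 g]
      symm
      refine finsum_eq_sum_of_support_subset _ ?_
      intro γ hγ
      exact hQ γ hγ
    have h3 : v = ∑ γ ∈ (hψf D hD).toFinset, ((ψ (g * (γ : G)) : ℝ) : ℂ) • v := by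
      rw [← Finset.sum_smul, ← Complex.ofReal_sum, h2, Complex.ofReal_one, one_smul]
    show ‖(∑ᶠ γ, F γ g) - v‖ ≤ ε
    rw [h1]
    conv_lhs => rw [h3]
    rw [← Finset.sum_sub_distrib]
    calc ‖∑ γ ∈ (hψf D hD).toFinset, (F γ g - ((ψ (g * (γ : G)) : ℝ) : ℂ) • v)‖
        ≤ ∑ γ ∈ (hψf D hD).toFinset, ‖F γ g - ((ψ (g * (γ : G)) : ℝ) : ℂ) • v‖ := norm_sum_le _ _
      _ ≤ ∑ γ ∈ (hψf D hD).toFinset, ψ (g * (γ : G)) * ε := by
          refine Finset.sum_le_sum fun γ hγ => ?_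
          simp only [F]
          rw [← smul_sub, norm_smul, Complex.norm_real, Real.norm_of_nonneg (hψ0 _)]
          exact mul_le_mul_of_nonneg_left (hε γ hγ) (hψ0 _)
      _ = ε := by rw [← Finset.sum_mul, h2, one_mul]

end Pool.BS
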