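import Pool.Agent.Work.MP_972ac7_B.Interface

set_option autoImplicit false

/-! # Block HEC: Hecke operators (MP_972ac7, THEOREM BS) -/

open MeasureTheory
open scoped ENNReal

noncomputable section

namespace Pool.BS

open Pool.PQ Pool.TFD Pool.TC

theorem HEC_shift {G : Type} [Group G] {Γ : Subgroup G} (N : Subgroup Γ) (b : G → ℝ) (u g : G) :
    fav N b (u * g) = fav N (fun z => b (u * z)) g := by
  unfold fav
  simp only [mul_assoc]

theorem HEC_zero {G : Type} [Group G] {Γ : Subgroup G} (N : Subgroup Γ) (hN : N.FiniteIndex)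
    (f : G → ℝ) (hf : ∀ g, 0 ≤ f g) (g : G) (h0 : fav N f g = 0) :
    f (g * ((Quotient.out ((1 : Γ) : Γ ⧸ N) : Γ) : G)) = 0 := by
  have hfin : Finite (Γ ⧸ N) := Subgroup.finite_quotient_of_finiteIndex
  letI : Fintype (Γ ⧸ N) := Fintype.ofFinite _
  unfold fav at h0
  rw [finsum_eq_sum_of_fintype] at h0
  have hidx : (N.index : ℝ)⁻¹ ≠ 0 := inv_ne_zero (Nat.cast_ne_zero.2 hN.index_ne_zero)
  rcases mul_eq_zero.1 h0 with h1 | h1
  · exact absurd h1 hidx
  · exact (Finset.sum_eq_zero_iff_of_nonneg (fun y _ => hf _)).1 h1 _ (Finset.mem_univ _)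

theorem p_HEC (hCMM : Stmt_CMM) (hFAV : Stmt_FAV) : Stmt_HEC := by
  intro G _ _ _ Γ δ hδ b hb hinv
  obtain ⟨-, hfi, hri⟩ := hCMM G G Γ Γ (MonoidHom.id G) (fun y hy => hy)
  have hN : (Nc Γ (MonoidHom.id G) Γ δ).FiniteIndex := hfi δ hδ
  set N : Subgroup Γ := Nc Γ (MonoidHom.id G) Γ δ with hNdef
  obtain ⟨f1, -, f3, f4, f5, f6⟩ := hFAV G Γ N hN
  have hTd : ∀ a : G → ℝ, Td Γ δ a = fav N (fun g => a (g * δ)) := fun a => rfl
  have hRN : ∀ a : G → ℝ, RIv (⊤ : Subgroup Γ) a → RIv N (fun g => a (g * δ)) := fun a ha =>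
    hri δ a ha
  have hconst : ∀ (t : ℝ) (g : G), fav N (fun _ => t) g = t := by
    intro t g
    rw [f3 (fun _ => t) (fun _ _ _ => rfl)]
  have hsub : ∀ (a a' : G → ℝ) (g : G), fav N (fun z => a z - a' z) g = fav N a g - fav N a' g := by
    intro a a' g
    have h1 := f5 a a' 1 (-1) g
    have h2 : (fun z => 1 * a z + -1 * a' z) = fun z => a z - a' z := by
      funext z
      ring
    rw [h2] at h1
    rw [h1]
    ring
  have habs : ∀ (a : G → ℝ) (M : ℝ), (∀ g, |a g| ≤ M) → ∀ g, |fav N a g| ≤ M := by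
    intro a M ha g
    rw [abs_le]
    constructor
    · have h1 := f4 (fun _ => -M) a (fun z => (abs_le.1 (ha z)).1) g
      rwa [hconst] at h1
    · have h1 := f4 a (fun _ => M) (fun z => (abs_le.1 (ha z)).2) g
      rwa [hconst] at h1
  -- the variance
  have hvar : ∀ g : G, fav N (fun z => (b (z * δ) - Td Γ δ b g) ^ 2) g =
      Td Γ δ (fun z => b z ^ 2) g - (Td Γ δ b g) ^ 2 := by
    intro g
    set t := Td Γ δ b g with ht
    have h1 := f5 (fun z => b (z * δ) ^ 2) (fun z => 2 * t * b (z * δ) - t ^ 2) 1 (-1) g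
    have h2 : (fun z => 1 * b (z * δ) ^ 2 + -1 * (2 * t * b (z * δ) - t ^ 2)) =
        fun z => (b (z * δ) - t) ^ 2 := by
      funext z
      ring
    rw [h2] at h1
    have h3 := f5 (fun z => b (z * δ)) (fun _ => t ^ 2) (2 * t) (-1) g
    have h4 : (fun z => 2 * t * b (z * δ) + -1 * t ^ 2) = fun z => 2 * t * b (z * δ) - t ^ 2 := by
      funext z
      ring
    rw [h4, hconst] at h3
    rw [h3] at h1
    have h5 : fav N (fun z => b (z * δ)) g = t := rfl
    rw [h5] at h1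
    rw [h1]
    show 1 * Td Γ δ (fun z => b z ^ 2) g + -1 * (2 * t * t + -1 * t ^ 2) =
      Td Γ δ (fun z => b z ^ 2) g - t ^ 2
    ring
  have hnn : ∀ (a : G → ℝ), (∀ z, 0 ≤ a z) → ∀ g, 0 ≤ fav N a g := by
    intro a ha g
    have h1 := f4 (fun _ => 0) a ha g
    rwa [hconst] at h1
  refine ⟨f6 _ (hb.comp (continuous_mul_const δ)), f1 _ (hRN b hinv), ?_, ?_, ?_, ?_⟩
  · intro M hM g
    exact habs _ M (fun z => hM (z * δ)) g
  · intro u s hs g
    have h1 : Td Γ δ b (u * g) - Td Γ δ b g =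
        fav N (fun z => b (u * (z * δ)) - b (z * δ)) g := by
      rw [hsub, hTd, HEC_shift]
      simp only [mul_assoc]
    rw [h1]
    exact habs _ s (fun z => hs (z * δ)) g
  · intro g
    have h1 := hnn (fun z => (b (z * δ) - Td Γ δ b g) ^ 2) (fun z => sq_nonneg _) g
    rw [hvar] at h1
    linarith
  · intro g hg
    have h1 : fav N (fun z => (b (z * δ) - Td Γ δ b g) ^ 2) g = 0 := by
      rw [hvar, hg, sub_self]
    have h2 := HEC_zero N hN _ (fun z => sq_nonneg (b (z * δ) - Td Γ δ b g)) g h1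
    have h3 : b (g * ((Quotient.out ((1 : Γ) : Γ ⧸ N) : Γ) : G) * δ) = Td Γ δ b g :=
      sub_eq_zero.1 ((pow_eq_zero_iff two_ne_zero).1 h2)
    obtain ⟨n, hn⟩ := QuotientGroup.mk_out_eq_mul N (1 : Γ)
    have h4 : (Quotient.out ((1 : Γ) : Γ ⧸ N) : Γ) ∈ N := by
      rw [hn, one_mul]
      exact n.2
    have h5 := hRN b hinv g _ h4
    rw [← h3]
    exact h5.symm

end Pool.BS
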