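import Pool.Agent.Work.MP_972ac7_B.Interface

set_option autoImplicit false

open MeasureTheory
open scoped ENNReal Pointwise

noncomputable section

namespace Pool.BS

open Pool.PQ Pool.TFD Pool.TC

theorem p_HGA : Stmt_HGA := by
  intro H _ _ _ _ _ _ _ _ μ K₁ hμ hright hK₁
  obtain ⟨A, hA, hA1⟩ := exists_compact_mem_nhds (1 : H)
  have hApos : 0 < μ A := by
    have h1 : 0 < μ (interior A) :=
      isOpen_interior.measure_pos μ ⟨1, mem_interior_iff_mem_nhds.2 hA1⟩
    exact lt_of_lt_of_le h1 (measure_mono interior_subset)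
  have hAfin : μ A < ⊤ := hA.measure_lt_top
  have hAr : 0 < μ.real A := by
    rw [Measure.real]
    exact ENNReal.toReal_pos hApos.ne' hAfin.ne
  have hB : IsCompact (A ∪ A * K₁) := hA.union (hA.mul hK₁)
  refine ⟨A ∪ A * K₁, 2 / μ.real A, hB, by positivity, ?_⟩
  intro K _ F hF u hu z
  have hAm : MeasurableSet A := hA.isClosed.measurableSet
  -- the two functions
  have hc1 : Continuous (fun h : H => ‖F (h * (u * z)) - F (u * z)‖ ^ 2) := by fun_prop
  have hc2 : Continuous (fun h : H => ‖F (h * z) - F z‖ ^ 2) := by fun_prop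
  have hc3 : Continuous (fun h : H => ‖F (h * u * z) - F z‖ ^ 2) := by fun_prop
  have hi1 : IntegrableOn (fun h : H => ‖F (h * (u * z)) - F (u * z)‖ ^ 2) (A ∪ A * K₁) μ :=
    hc1.continuousOn.integrableOn_compact hB
  have hi2 : IntegrableOn (fun h : H => ‖F (h * z) - F z‖ ^ 2) (A ∪ A * K₁) μ :=
    hc2.continuousOn.integrableOn_compact hB
  have hi3 : IntegrableOn (fun h : H => ‖F (h * u * z) - F z‖ ^ 2) A μ :=
    hc3.continuousOn.integrableOn_compact hA
  have hi1A : IntegrableOn (fun h : H => ‖F (h * (u * z)) - F (u * z)‖ ^ 2) A μ :=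
    hi1.mono_set Set.subset_union_left
  have hle1 : ∫ h in A, ‖F (h * (u * z)) - F (u * z)‖ ^ 2 ∂μ ≤ bb μ (A ∪ A * K₁) F (u * z) := by
    unfold bb
    exact setIntegral_mono_set hi1 (Filter.Eventually.of_forall fun h => by positivity)
      (Filter.Eventually.of_forall Set.subset_union_left)
  have hle2 : ∫ h in A, ‖F (h * u * z) - F z‖ ^ 2 ∂μ ≤ bb μ (A ∪ A * K₁) F z := by
    have e1 : ∫ h in A, ‖F (h * u * z) - F z‖ ^ 2 ∂μ
        = ∫ h in (fun x : H => x * u⁻¹) ⁻¹' A, ‖F (h * z) - F z‖ ^ 2 ∂μ := by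
      have hm : MeasurableSet ((fun x : H => x * u⁻¹) ⁻¹' A) :=
        hAm.preimage (measurable_mul_const u⁻¹)
      rw [← integral_indicator hAm, ← integral_indicator hm]
      have e2 := integral_mul_right_eq_self (μ := μ)
        (((fun x : H => x * u⁻¹) ⁻¹' A).indicator (fun h => ‖F (h * z) - F z‖ ^ 2)) u
      rw [← e2]
      congr 1
      funext h
      by_cases hh : h ∈ A
      · have h2 : h * u ∈ (fun x : H => x * u⁻¹) ⁻¹' A := by simpa using hh
        rw [Set.indicator_of_mem hh, Set.indicator_of_mem h2]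
      · have h2 : h * u ∉ (fun x : H => x * u⁻¹) ⁻¹' A := by simpa using hh
        rw [Set.indicator_of_notMem hh, Set.indicator_of_notMem h2]
    rw [e1]
    unfold bb
    refine setIntegral_mono_set hi2 (Filter.Eventually.of_forall fun h => by positivity)
      (Filter.Eventually.of_forall ?_)
    intro x hx
    right
    have hx' : x * u⁻¹ ∈ A := hx
    exact ⟨x * u⁻¹, hx', u, hu, by simp⟩
  have hpt : ∀ h : H, ‖F (u * z) - F z‖ ^ 2 ≤
      2 * ‖F (h * (u * z)) - F (u * z)‖ ^ 2 + 2 * ‖F (h * u * z) - F z‖ ^ 2 := by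
    intro h
    have h1 : F (u * z) - F z = (F (h * u * z) - F z) - (F (h * (u * z)) - F (u * z)) := by
      rw [mul_assoc]; abel
    have h2 : ‖F (u * z) - F z‖ ≤ ‖F (h * u * z) - F z‖ + ‖F (h * (u * z)) - F (u * z)‖ := by
      rw [h1]; exact norm_sub_le _ _
    nlinarith [norm_nonneg (F (u * z) - F z), norm_nonneg (F (h * u * z) - F z),
      norm_nonneg (F (h * (u * z)) - F (u * z)),
      sq_nonneg (‖F (h * u * z) - F z‖ - ‖F (h * (u * z)) - F (u * z)‖)]
  have hint : ∫ _h in A, ‖F (u * z) - F z‖ ^ 2 ∂μ ≤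
      ∫ h in A, (2 * ‖F (h * (u * z)) - F (u * z)‖ ^ 2 + 2 * ‖F (h * u * z) - F z‖ ^ 2) ∂μ := by
    apply setIntegral_mono
    · exact continuous_const.continuousOn.integrableOn_compact hA
    · exact (hi1A.const_mul 2).add (hi3.const_mul 2)
    · exact hpt
  have hsplit : ∫ h in A, (2 * ‖F (h * (u * z)) - F (u * z)‖ ^ 2
      + 2 * ‖F (h * u * z) - F z‖ ^ 2) ∂μ
      = 2 * ∫ h in A, ‖F (h * (u * z)) - F (u * z)‖ ^ 2 ∂μ
        + 2 * ∫ h in A, ‖F (h * u * z) - F z‖ ^ 2 ∂μ := by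
    rw [integral_add (hi1A.const_mul 2) (hi3.const_mul 2), integral_const_mul, integral_const_mul]
  rw [hsplit] at hint
  rw [setIntegral_const, smul_eq_mul] at hint
  have h4 : μ.real A * ‖F (u * z) - F z‖ ^ 2 ≤
      2 * (bb μ (A ∪ A * K₁) F (u * z) + bb μ (A ∪ A * K₁) F z) := by linarith
  rw [div_mul_eq_mul_div, le_div_iff₀ hAr]
  linarith

end Pool.BS
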