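import Pool.Agent.Work.MP_972ac7_B.Interface

set_option autoImplicit false

/-! # THEOREM BS, block HGB: the gap for equivariant functions at every point -/

open MeasureTheory
open scoped ENNReal Pointwise

noncomputable section

namespace Pool.BS

open Pool.PQ Pool.TFD Pool.TC

theorem HGB_sq {K : Type} [NormedAddCommGroup K] (x y z t : K) :
    ‖x - t‖ ^ 2 ≤ 3 * (‖x - y‖ ^ 2 + ‖y - z‖ ^ 2 + ‖z - t‖ ^ 2) := by
  have h1 : ‖x - t‖ ≤ ‖x - y‖ + ‖y - z‖ + ‖z - t‖ := by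
    calc ‖x - t‖ = ‖(x - y) + (y - z) + (z - t)‖ := by
          congr 1
          abel
      _ ≤ ‖x - y‖ + ‖y - z‖ + ‖z - t‖ := norm_add₃_le
  have h2 := pow_le_pow_left₀ (norm_nonneg (x - t)) h1 2
  nlinarith [sq_nonneg (‖x - y‖ - ‖y - z‖), sq_nonneg (‖y - z‖ - ‖z - t‖),
    sq_nonneg (‖x - y‖ - ‖z - t‖)]

theorem p_HGB (h1 : Stmt_HGA) (h2 : Stmt_BBC) (h3 : Stmt_FAV) : Stmt_HGB := by
  intro H _ _ _ _ _ _ _ _ Λ μ m c hLT hU
  obtain ⟨D, hD, hDΛ⟩ := hLT.cpt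
  obtain ⟨Q, C₀, hC₀, hU⟩ := hU
  have hμ := hLT.qd.haar
  have hμr := hLT.qd.right
  have hQs : IsCompact (insert 1 ((fun q : Λ => (q : H)) '' (Q : Set Λ)) : Set H) :=
    ((Q.finite_toSet.image _).insert 1).isCompact
  obtain ⟨B, C₁, hB, hC₁, hA⟩ := h1 H μ
    (D * (insert 1 ((fun q : Λ => (q : H)) '' (Q : Set Λ)) : Set H) * D⁻¹) hμ hμr
    ((hD.mul hQs).mul hD.inv)
  refine ⟨B, 3 * (2 * C₀ * C₁ * Q.card + C₁), hB, by positivity, ?_⟩
  intro K _ _ _ S N hN π hπ F hF hE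
  obtain ⟨b1, b2, b3⟩ := h2 H μ B hμ hB K F hF
  have bR := b3 Λ N π hE
  obtain ⟨f1, -, f3, f4, -, -⟩ := h3 H Λ N hN
  have hfin : Finite (Λ ⧸ N) := Subgroup.finite_quotient_of_finiteIndex
  letI := Fintype.ofFinite (Λ ⧸ N)
  obtain ⟨b, hb⟩ : ∃ b, b = bb μ B F := ⟨_, rfl⟩
  rw [← hb] at b1 b2 bR
  rw [← hb]
  have hA' : ∀ u ∈ D * (insert 1 ((fun q : Λ => (q : H)) '' (Q : Set Λ)) : Set H) * D⁻¹,
      ∀ z : H, ‖F (u * z) - F z‖ ^ 2 ≤ C₁ * (b (u * z) + b z) := fun u hu z => by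
    rw [hb]
    exact hA K F hF u hu z
  have key : ∀ h : H, ∃ w : K, (∀ n, π n w = w) ∧
      ∑ᶠ y : Λ ⧸ N, ‖F (h * ((Quotient.out y : Λ) : H)) - w‖ ^ 2 ≤
        C₀ * ∑ q ∈ Q, ∑ᶠ y : Λ ⧸ N, ‖F (h * ((q * Quotient.out y : Λ) : H)) -
          F (h * ((Quotient.out y : Λ) : H))‖ ^ 2 := fun h =>
    hU K S N hN π hπ (fun x => F (h * (x : H))) (fun x n => by
      show π n (F (h * ((x * (n : Λ) : Λ) : H))) = F (h * (x : H))
      rw [Subgroup.coe_mul, ← mul_assoc]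
      exact hE (h * (x : H)) n)
  choose w₀ hw1 hw2 using key
  obtain ⟨ι, hι⟩ : ∃ ι : ℝ, ι = (N.index : ℝ)⁻¹ := ⟨_, rfl⟩
  have hι0 : 0 ≤ ι := by
    rw [hι]
    positivity
  have favdef : ∀ (φ : H → ℝ) (g : H), fav N φ g =
      ι * ∑ y : Λ ⧸ N, φ (g * ((Quotient.out y : Λ) : H)) := by
    intro φ g
    unfold fav
    rw [finsum_eq_sum_of_fintype, hι]
  have hconst : ∀ t : ℝ, fav N (fun _ : H => t) = fun _ => t := fun t => f3 _ fun _ _ _ => rfl
  have hinv : ∀ (g : H) (l : Λ), fav N b (g * (l : H)) = fav N b g := fun g l =>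
    f1 b bR g l (Subgroup.mem_top l)
  have hfb0 : ∀ g, 0 ≤ fav N b g := fun g => by
    rw [favdef]
    exact mul_nonneg hι0 (Finset.sum_nonneg fun y _ => b2 _)
  -- the first estimate
  have hD1 : ∀ h ∈ D, fav N (fun z => ‖F z - w₀ h‖ ^ 2) h ≤
      2 * C₀ * C₁ * Q.card * fav N b h := by
    intro h hh
    have e1 := hw2 h
    rw [finsum_eq_sum_of_fintype] at e1
    have e2 : ∀ q ∈ Q, ∑ᶠ y : Λ ⧸ N, ‖F (h * ((q * Quotient.out y : Λ) : H)) -
          F (h * ((Quotient.out y : Λ) : H))‖ ^ 2 ≤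
        C₁ * (∑ y : Λ ⧸ N, b (h * (q : H) * ((Quotient.out y : Λ) : H)) +
          ∑ y : Λ ⧸ N, b (h * ((Quotient.out y : Λ) : H))) := by
      intro q hq
      rw [finsum_eq_sum_of_fintype, ← Finset.sum_add_distrib, Finset.mul_sum]
      refine Finset.sum_le_sum fun y _ => ?_
      have e3 := hA' (h * (q : H) * h⁻¹) (Set.mul_mem_mul (Set.mul_mem_mul hh
        (Set.mem_insert_of_mem _ ⟨q, hq, rfl⟩)) (Set.inv_mem_inv.2 hh))
        (h * ((Quotient.out y : Λ) : H))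
      have e4 : h * (q : H) * h⁻¹ * (h * ((Quotient.out y : Λ) : H)) =
          h * (q : H) * ((Quotient.out y : Λ) : H) := by group
      rw [e4] at e3
      rw [Subgroup.coe_mul, ← mul_assoc]
      exact e3
    calc fav N (fun z => ‖F z - w₀ h‖ ^ 2) h
        = ι * ∑ y : Λ ⧸ N, ‖F (h * ((Quotient.out y : Λ) : H)) - w₀ h‖ ^ 2 := favdef _ _
      _ ≤ ι * (C₀ * ∑ q ∈ Q, C₁ * (∑ y : Λ ⧸ N, b (h * (q : H) * ((Quotient.out y : Λ) : H)) +
          ∑ y : Λ ⧸ N, b (h * ((Quotient.out y : Λ) : H)))) :=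
          mul_le_mul_of_nonneg_left (e1.trans (mul_le_mul_of_nonneg_left
            (Finset.sum_le_sum e2) hC₀)) hι0
      _ = C₀ * C₁ * ∑ q ∈ Q, (fav N b (h * (q : H)) + fav N b h) := by
          simp only [favdef, Finset.mul_sum, mul_add, Finset.sum_add_distrib]
          congr 1
          · refine Finset.sum_congr rfl fun q _ => Finset.sum_congr rfl fun y _ => ?_
            ring
          · refine Finset.sum_congr rfl fun q _ => Finset.sum_congr rfl fun y _ => ?_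
            ring
      _ = 2 * C₀ * C₁ * Q.card * fav N b h := by
          rw [Finset.sum_congr rfl fun q _ => by rw [hinv h q], Finset.sum_const, nsmul_eq_mul]
          ring
  -- the second estimate
  have hD2 : ∀ h ∈ D, ∀ h' ∈ D, ‖w₀ h - w₀ h'‖ ^ 2 ≤
      3 * (2 * C₀ * C₁ * Q.card + C₁) * (fav N b h + fav N b h') := by
    intro h hh h' hh'
    have e1 : ∀ y : Λ ⧸ N, ‖F (h * ((Quotient.out y : Λ) : H)) -
        F (h' * ((Quotient.out y : Λ) : H))‖ ^ 2 ≤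
        C₁ * (b (h * ((Quotient.out y : Λ) : H)) + b (h' * ((Quotient.out y : Λ) : H))) := by
      intro y
      have e3 := hA' (h * 1 * h'⁻¹) (Set.mul_mem_mul (Set.mul_mem_mul hh
        (Set.mem_insert _ _)) (Set.inv_mem_inv.2 hh')) (h' * ((Quotient.out y : Λ) : H))
      have e4 : h * 1 * h'⁻¹ * (h' * ((Quotient.out y : Λ) : H)) =
          h * ((Quotient.out y : Λ) : H) := by group
      rw [e4] at e3
      exact e3
    have e2 : ‖w₀ h - w₀ h'‖ ^ 2 = ι * ∑ y : Λ ⧸ N, ‖w₀ h - w₀ h'‖ ^ 2 := by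
      have e3 := favdef (fun _ => ‖w₀ h - w₀ h'‖ ^ 2) h
      rw [hconst] at e3
      exact e3
    calc ‖w₀ h - w₀ h'‖ ^ 2 = ι * ∑ y : Λ ⧸ N, ‖w₀ h - w₀ h'‖ ^ 2 := e2
      _ ≤ ι * ∑ y : Λ ⧸ N, 3 * (‖F (h * ((Quotient.out y : Λ) : H)) - w₀ h‖ ^ 2 +
            C₁ * (b (h * ((Quotient.out y : Λ) : H)) + b (h' * ((Quotient.out y : Λ) : H))) +
            ‖F (h' * ((Quotient.out y : Λ) : H)) - w₀ h'‖ ^ 2) := by
          refine mul_le_mul_of_nonneg_left (Finset.sum_le_sum fun y _ => ?_) hι0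
          have e3 := HGB_sq (w₀ h) (F (h * ((Quotient.out y : Λ) : H)))
            (F (h' * ((Quotient.out y : Λ) : H))) (w₀ h')
          rw [norm_sub_rev (w₀ h) (F (h * ((Quotient.out y : Λ) : H)))] at e3
          have e4 := e1 y
          linarith
      _ = 3 * (fav N (fun z => ‖F z - w₀ h‖ ^ 2) h + C₁ * (fav N b h + fav N b h') +
            fav N (fun z => ‖F z - w₀ h'‖ ^ 2) h') := by
          rw [favdef, favdef, favdef, favdef, ← Finset.mul_sum, Finset.sum_add_distrib,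
            Finset.sum_add_distrib, ← Finset.mul_sum, Finset.sum_add_distrib]
          ring
      _ ≤ 3 * (2 * C₀ * C₁ * Q.card * fav N b h + C₁ * (fav N b h + fav N b h') +
            2 * C₀ * C₁ * Q.card * fav N b h') := by
          linarith [hD1 h hh, hD1 h' hh']
      _ = 3 * (2 * C₀ * C₁ * Q.card + C₁) * (fav N b h + fav N b h') := by ring
  choose l hlΛ hlD using hDΛ
  have hCle : ∀ h, 2 * C₀ * C₁ * Q.card * fav N b h ≤
      3 * (2 * C₀ * C₁ * Q.card + C₁) * fav N b h := fun h => by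
    refine mul_le_mul_of_nonneg_right ?_ (hfb0 h)
    have : 0 ≤ 2 * C₀ * C₁ * Q.card := by positivity
    linarith
  have hinv' : ∀ h : H, fav N b (h * l h) = fav N b h := fun h => hinv h ⟨l h, hlΛ h⟩
  refine ⟨fun h => w₀ (h * l h), fun h n => hw1 _ n, fun h => ?_, fun h h' => ?_⟩
  · have hR : RIv N (fun z => ‖F z - w₀ (h * l h)‖ ^ 2) := by
      intro z n hn
      have e1 : ‖F (z * (n : H)) - w₀ (h * l h)‖ = ‖F z - w₀ (h * l h)‖ := by
        rw [← (π ⟨n, hn⟩).norm_map (F (z * (n : H)) - w₀ (h * l h)), map_sub, hw1]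
        have e2 : π ⟨n, hn⟩ (F (z * (n : H))) = F z := hE z ⟨n, hn⟩
        rw [e2]
      show ‖F (z * (n : H)) - w₀ (h * l h)‖ ^ 2 = ‖F z - w₀ (h * l h)‖ ^ 2
      rw [e1]
    have e3 : fav N (fun z => ‖F z - w₀ (h * l h)‖ ^ 2) (h * l h) =
        fav N (fun z => ‖F z - w₀ (h * l h)‖ ^ 2) h :=
      f1 _ hR h ⟨l h, hlΛ h⟩ (Subgroup.mem_top _)
    rw [← e3, ← hinv' h]
    exact (hD1 (h * l h) (hlD h)).trans (hCle _)
  · have e4 := hD2 (h * l h) (hlD h) (h' * l h') (hlD h')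
    rw [hinv' h, hinv' h'] at e4
    exact e4

end Pool.BS
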