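import Pool.Agent.Work.MP_972ac7_B.Interface

set_option autoImplicit false

/-! # THEOREM BS, block HGP: the gap for equivariant functions in the mean -/

open MeasureTheory
open scoped ENNReal

noncomputable section

namespace Pool.BS

open Pool.PQ Pool.TFD Pool.TC

theorem HGP_sq {K : Type} [NormedAddCommGroup K] (x y z : K) :
    ‖x - z‖ ^ 2 ≤ 2 * ‖x - y‖ ^ 2 + 2 * ‖y - z‖ ^ 2 := by
  have h1 : ‖x - z‖ ≤ ‖x - y‖ + ‖y - z‖ := norm_sub_le_norm_sub_add_norm_sub x y z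
  have h2 : ‖x - z‖ ^ 2 ≤ (‖x - y‖ + ‖y - z‖) ^ 2 :=
    pow_le_pow_left₀ (norm_nonneg _) h1 2
  nlinarith [sq_nonneg (‖x - y‖ - ‖y - z‖)]

theorem p_HGP (h1 : Stmt_HGB) (h2 : Stmt_BBC) (h3 : Stmt_MEN) (h4 : Stmt_FAV)
    (h5 : Stmt_AVP) : Stmt_HGP := by
  intro H _ _ _ _ _ _ _ _ Λ μ m c hLT hU
  obtain ⟨B, C, hB, hC, h⟩ := h1 H Λ μ m c hLT hU
  refine ⟨B, 24 * C, hB, by positivity, ?_⟩
  intro K _ _ _ S N hN π hπ F hF hE h₀
  obtain ⟨w, hw1, hw2, hw3⟩ := h K S N hN π hπ F hF hE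
  have hMP := h3 H Λ μ m c hLT
  obtain ⟨f1, -, f3, f4, f5, f6⟩ := h4 H Λ N hN
  have hAP := h5 H Λ μ m c hLT N hN
  have hμ : μ.IsHaarMeasure := hLT.qd.haar
  obtain ⟨b1, b2, b3⟩ := h2 H μ B hμ hB K F hF
  have bR : RIv N (bb μ B F) := b3 Λ N π hE
  obtain ⟨h', hh'⟩ := hMP.pt (fav N (bb μ B F)) (f6 _ b1) (f1 _ bR)
  set A := av m N (bb μ B F) with hA
  have hh'' : fav N (bb μ B F) h' ≤ A := hh'
  -- the function `‖F - w‖ ^ 2`
  have hπF : ∀ (z : H) (n : Λ) (hn : n ∈ N), π ⟨n, hn⟩ (F (z * (n : H))) = F z := fun z n hn =>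
    hE z ⟨n, hn⟩
  have φc : Continuous fun z => ‖F z - w h'‖ ^ 2 := by fun_prop
  have φR : RIv N fun z => ‖F z - w h'‖ ^ 2 := by
    intro z n hn
    show ‖F (z * (n : H)) - w h'‖ ^ 2 = ‖F z - w h'‖ ^ 2
    have e1 : ‖F (z * (n : H)) - w h'‖ = ‖F z - w h'‖ := by
      rw [← (π ⟨n, hn⟩).norm_map (F (z * (n : H)) - w h'), map_sub, hπF z n hn, hw1]
    rw [e1]
  have hconst : ∀ t : ℝ, fav N (fun _ : H => t) = fun _ => t := fun t => f3 _ fun _ _ _ => rfl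
  have hpt : ∀ g, fav N (fun z => ‖F z - w h'‖ ^ 2) g ≤
      4 * C * fav N (bb μ B F) g + 2 * C * A := by
    intro g
    have e1 := f4 (fun z => ‖F z - w h'‖ ^ 2)
      (fun z => 2 * ‖F z - w g‖ ^ 2 + 2 * ‖w g - w h'‖ ^ 2)
      (fun z => HGP_sq (F z) (w g) (w h')) g
    have e2 := f5 (fun z => ‖F z - w g‖ ^ 2) (fun _ => ‖w g - w h'‖ ^ 2) 2 2 g
    rw [hconst] at e2
    have e3 := hw2 g
    have e4 := hw3 g h'
    have e5 : C * fav N (bb μ B F) h' ≤ C * A := mul_le_mul_of_nonneg_left hh'' hC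
    calc _ ≤ _ := e1
      _ = 2 * fav N (fun z => ‖F z - w g‖ ^ 2) g + 2 * ‖w g - w h'‖ ^ 2 := e2
      _ ≤ 4 * C * fav N (bb μ B F) g + 2 * C * A := by nlinarith
  have hav : av m N (fun z => ‖F z - w h'‖ ^ 2) ≤ 6 * C * A := by
    have c1 : Continuous (fav N (bb μ B F)) := f6 _ b1
    have r1 : RIv (⊤ : Subgroup Λ) (fav N (bb μ B F)) := f1 _ bR
    have e1 : mean m (fav N (fun z => ‖F z - w h'‖ ^ 2)) ≤
        mean m (fun g => 4 * C * fav N (bb μ B F) g + 2 * C * A) := by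
      refine hMP.mono _ _ (f6 _ φc) (f1 _ φR) (by fun_prop) ?_ hpt
      intro g n hn
      show 4 * C * fav N (bb μ B F) (g * n) + 2 * C * A = _
      rw [r1 g n hn]
    have e2 := hMP.lin (fav N (bb μ B F)) (fun _ => A) c1 r1 continuous_const
      (fun _ _ _ => rfl) (4 * C) (2 * C)
    rw [hMP.const] at e2
    rw [e2] at e1
    have e3 : mean m (fav N (bb μ B F)) = A := rfl
    rw [e3] at e1
    calc av m N (fun z => ‖F z - w h'‖ ^ 2) ≤ 4 * C * A + 2 * C * A := e1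
      _ = 6 * C * A := by ring
  -- the translation
  have tc : Continuous fun z => ‖F (h₀ * z) - w h'‖ ^ 2 := by fun_prop
  have tR : RIv N fun z => ‖F (h₀ * z) - w h'‖ ^ 2 := by
    intro z n hn
    show ‖F (h₀ * (z * (n : H))) - w h'‖ ^ 2 = ‖F (h₀ * z) - w h'‖ ^ 2
    rw [← mul_assoc]
    exact φR (h₀ * z) n hn
  have e1 : av m N (fun z => ‖F (h₀ * z) - w h'‖ ^ 2) = av m N (fun z => ‖F z - w h'‖ ^ 2) :=
    hAP.left (fun z => ‖F z - w h'‖ ^ 2) φc φR h₀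
  have e2 : av m N (fun z => ‖F (h₀ * z) - F z‖ ^ 2) ≤
      av m N (fun z => 2 * ‖F (h₀ * z) - w h'‖ ^ 2 + 2 * ‖F z - w h'‖ ^ 2) := by
    refine hAP.mono _ _ (by fun_prop) ?_ (by fun_prop) ?_ ?_
    · intro z n hn
      show ‖F (h₀ * (z * (n : H))) - F (z * (n : H))‖ ^ 2 = ‖F (h₀ * z) - F z‖ ^ 2
      have e1 : ‖F (h₀ * (z * (n : H))) - F (z * (n : H))‖ = ‖F (h₀ * z) - F z‖ := by
        rw [← (π ⟨n, hn⟩).norm_map (F (h₀ * (z * (n : H))) - F (z * (n : H))), map_sub,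
          hπF z n hn, ← mul_assoc, hπF (h₀ * z) n hn]
      rw [e1]
    · intro z n hn
      have a1 := tR z n hn
      have a2 := φR z n hn
      simp only at a1 a2 ⊢
      rw [a1, a2]
    · intro z
      have := HGP_sq (F (h₀ * z)) (w h') (F z)
      rw [norm_sub_rev (w h') (F z)] at this
      exact this
  have e3 := hAP.lin (fun z => ‖F (h₀ * z) - w h'‖ ^ 2) (fun z => ‖F z - w h'‖ ^ 2) tc tR φc φR
    2 2
  rw [e3, e1] at e2
  calc _ ≤ _ := e2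
    _ ≤ 24 * C * A := by linarith

end Pool.BS
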