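import Pool.Agent.Work.MP_972ac7_B.Interface

set_option autoImplicit false

/-! # Block ISM (helper48) -/

open MeasureTheory
open scoped ENNReal

noncomputable section

namespace Pool.BS

open Pool.PQ Pool.TFD Pool.TC

theorem ISM_norm_sq {X K : Type} [MeasurableSpace X] (m : Measure X) [NormedAddCommGroup K]
    [InnerProductSpace ℂ K] (v : Lp K 2 m) : ‖v‖ ^ 2 = ∫ x, ‖v x‖ ^ 2 ∂m := by
  have h1 : (inner ℂ v v : ℂ) = ∫ x, (inner ℂ (v x) (v x) : ℂ) ∂m := L2.inner_def v v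
  rw [inner_self_eq_norm_sq_to_K] at h1
  have h2 : ∫ x, (inner ℂ (v x) (v x) : ℂ) ∂m = ((∫ x, ‖v x‖ ^ 2 ∂m : ℝ) : ℂ) := by
    rw [← integral_complex_ofReal]
    refine integral_congr_ae (Filter.Eventually.of_forall fun x => ?_)
    simp only
    rw [inner_self_eq_norm_sq_to_K]
    simp
  rw [h2] at h1
  have h3 : ((‖v‖ ^ 2 : ℝ) : ℂ) = ((∫ x, ‖v x‖ ^ 2 ∂m : ℝ) : ℂ) := by
    rw [← h1]
    simp
  exact_mod_cast h3

theorem p_ISM (hMEN : Stmt_MEN) : Stmt_ISM := by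
  intro G _ _ _ _ _ _ _ _ Γ μ m c hLT σ hσ hσm K _ _ _ _ π U hU f hf hE
  have hMP := hMEN G Γ μ m c hLT
  haveI := hLT.qd.prob
  -- invariance
  have hinv : ∀ (g : G) (n : Γ), f (g * (n : G)) = (π n).symm (f g) := by
    intro g n
    rw [← hE g n, LinearIsometryEquiv.symm_apply_apply]
  have hnorm : ∀ (g : G) (n : Γ), ‖f (g * (n : G))‖ = ‖f g‖ := by
    intro g n
    rw [hinv, LinearIsometryEquiv.norm_map]
  -- boundedness
  obtain ⟨K0, hK0, hcov⟩ := hLT.cpt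
  obtain ⟨M, hM⟩ := hK0.exists_bound_of_continuousOn hf.continuousOn
  have hbd : ∀ g, ‖f g‖ ≤ M := by
    intro g
    obtain ⟨γ, hγ, hg⟩ := hcov g
    rw [← hnorm g ⟨γ, hγ⟩]
    exact hM _ hg
  -- measurability
  have hmeas : AEStronglyMeasurable (fun x => f (σ x)) m := by
    borelize K
    exact (hf.measurable.comp hσm).stronglyMeasurable.aestronglyMeasurable
  have hL : MemLp (fun x => f (σ x)) 2 m :=
    MemLp.of_bound hmeas M (Filter.Eventually.of_forall fun x => hbd _)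
  refine ⟨hL.toLp _, hL.coeFn_toLp, ?_⟩
  intro g
  rw [ISM_norm_sq]
  have hF : ⇑(hL.toLp _) =ᵐ[m] fun x => f (σ x) := hL.coeFn_toLp
  have h1 : ⇑(U g (hL.toLp _)) =ᵐ[m] fun x => f (g⁻¹ * σ x) := by
    have h2 := hU g (hL.toLp _)
    have h3 : (fun x : G ⧸ Γ => (hL.toLp _ : Lp K 2 m) (g⁻¹ • x)) =ᵐ[m]
        fun x => f (σ (g⁻¹ • x)) :=
      (hLT.qd.pres g⁻¹).quasiMeasurePreserving.ae_eq_comp hF
    filter_upwards [h2, h3] with x hx2 hx3
    rw [hx2, hx3]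
    have h4 := hE (g⁻¹ * σ x) (coc Γ σ hσ g (g⁻¹ • x))
    have h5 : g⁻¹ * σ x * ((coc Γ σ hσ g (g⁻¹ • x) : Γ) : G) = σ (g⁻¹ • x) := by
      change g⁻¹ * σ x * ((σ (g • g⁻¹ • x))⁻¹ * (g * σ (g⁻¹ • x))) = σ (g⁻¹ • x)
      rw [smul_inv_smul]
      group
    rw [h5] at h4
    exact h4
  have hb : RIv (⊤ : Subgroup Γ) (fun z => ‖f (g⁻¹ * z) - f z‖ ^ 2) := by
    intro z n _
    simp only
    rw [← mul_assoc, hinv, hinv, ← map_sub, LinearIsometryEquiv.norm_map]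
  unfold mean
  refine integral_congr_ae ?_
  have hsub := Lp.coeFn_sub (U g (hL.toLp _)) (hL.toLp _)
  filter_upwards [hsub, h1, hF] with x hx1 hx2 hx3
  rw [hx1, Pi.sub_apply, hx2, hx3]
  have h6 := hMP.out _ hb (σ x)
  rw [hσ x] at h6
  exact h6.symm

end Pool.BS
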