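import Pool.Agent.Work.MP_972ac7_B.Interface

open MeasureTheory
open scoped ENNReal

noncomputable section

namespace Pool.BS

open Pool.PQ Pool.TFD Pool.TC

theorem p_MAU : Stmt_MAU := by
  intro G E _ _ _ _ _ U hU P w hP u hu
  have hcl : IsClosed {g : G | U g w = w} := isClosed_eq (hU w) continuous_const
  let S : Subgroup G :=
    { carrier := {g | U g w = w}
      mul_mem' := by
        intro a b ha hb
        simp only [Set.mem_ofPred_eq] at ha hb ⊢
        rw [map_mul, LinearIsometryEquiv.coe_mul, Function.comp_apply, hb, ha]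
      one_mem' := by
        simp only [Set.mem_ofPred_eq, map_one]
        rfl
      inv_mem' := by
        intro a ha
        simp only [Set.mem_ofPred_eq] at ha ⊢
        have h1 : U a⁻¹ (U a w) = w := by
          have h2 : (U a⁻¹ * U a) w = w := by
            rw [← map_mul, inv_mul_cancel, map_one]
            rfl
          exact h2
        rw [ha] at h1
        exact h1 }
  have hS : ∀ g : G, g ∈ S ↔ U g w = w := fun g => Iff.rfl
  have hsub : Subgroup.closure {u : G | ∃ p ∈ P, Filter.Tendsto
      (fun n : ℕ => p ^ n * u * (p ^ n)⁻¹) Filter.atTop (nhds 1)} ≤ S := by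
    rw [Subgroup.closure_le]
    rintro u ⟨p, hp, hlim⟩
    change U u w = w
    have hpS : p ∈ S := (hS p).2 (hP p hp)
    have h1 : ∀ n : ℕ, ‖U (p ^ n * u * (p ^ n)⁻¹) w - w‖ = ‖U u w - w‖ := by
      intro n
      have h2 : U (p ^ n) w = w := (hS _).1 (S.pow_mem hpS n)
      have h3 : U (p ^ n)⁻¹ w = w := (hS _).1 (S.inv_mem (S.pow_mem hpS n))
      have h4 : U (p ^ n * u * (p ^ n)⁻¹) w = U (p ^ n) (U u w) := by
        have : U (p ^ n * u * (p ^ n)⁻¹) w = U (p ^ n) (U u (U (p ^ n)⁻¹ w)) := by
          rw [map_mul, map_mul]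
          rfl
        rw [this, h3]
      have h5 : U (p ^ n) (U u w) - w = U (p ^ n) (U u w - w) := by
        rw [map_sub, h2]
      rw [h4, h5, LinearIsometryEquiv.norm_map]
    have h6 : Filter.Tendsto (fun n : ℕ => ‖U (p ^ n * u * (p ^ n)⁻¹) w - w‖) Filter.atTop
        (nhds ‖U 1 w - w‖) := by
      have h7 : Continuous fun g : G => ‖U g w - w‖ := ((hU w).sub continuous_const).norm
      exact (h7.tendsto 1).comp hlim
    have h8 : Filter.Tendsto (fun n : ℕ => ‖U (p ^ n * u * (p ^ n)⁻¹) w - w‖) Filter.atTop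
        (nhds ‖U u w - w‖) := by
      simp only [h1]
      exact tendsto_const_nhds
    have h9 := tendsto_nhds_unique h8 h6
    have h10 : U 1 w = w := by rw [map_one]; rfl
    rw [h10, sub_self, norm_zero, norm_eq_zero, sub_eq_zero] at h9
    exact h9
  exact closure_minimal (s := ((Subgroup.closure {u : G | ∃ p ∈ P, Filter.Tendsto
      (fun n : ℕ => p ^ n * u * (p ^ n)⁻¹) Filter.atTop (nhds 1)} : Subgroup G) : Set G))
      (t := {g : G | U g w = w}) (fun g hg => hsub hg) hcl hu

end Pool.BS
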