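import Pool.Agent.Work.MP_972ac7_B.Interface
import Pool.Agent.Work.MP_972ac7_Q.B_DMC

/-!
# Block MEN: the mean over the compact quotient
-/

set_option autoImplicit false

open MeasureTheory
open scoped ENNReal

noncomputable section

namespace Pool.BS

open Pool.PQ Pool.TFD Pool.TC

section men

variable {G : Type} [Group G]

theorem MEN_out {Γ : Subgroup G} {b : G → ℝ} (hb : RIv (⊤ : Subgroup Γ) b) (g : G) :
    b (Quotient.out (g : G ⧸ Γ)) = b g := by
  obtain ⟨δ, hδ⟩ := QuotientGroup.mk_out_eq_mul Γ g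
  rw [hδ]
  exact hb g δ (Subgroup.mem_top _)

theorem MEN_cont [TopologicalSpace G] {Γ : Subgroup G} {b : G → ℝ} (hc : Continuous b)
    (hb : RIv (⊤ : Subgroup Γ) b) : Continuous fun x : G ⧸ Γ => b (Quotient.out x) := by
  have hq : Topology.IsQuotientMap (QuotientGroup.mk : G → G ⧸ Γ) := isQuotientMap_quot_mk
  rw [hq.continuous_iff]
  have h1 : (fun x : G ⧸ Γ => b (Quotient.out x)) ∘ (QuotientGroup.mk : G → G ⧸ Γ) = b :=
    funext fun g => MEN_out hb g
  rw [h1]
  exact hc

theorem MEN_smul {Γ : Subgroup G} {b : G → ℝ} (hb : RIv (⊤ : Subgroup Γ) b) (u : G)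
    (x : G ⧸ Γ) : b (u * Quotient.out x) = b (Quotient.out (u • x)) := by
  have h1 : u • x = ((u * Quotient.out x : G) : G ⧸ Γ) := by
    conv_lhs => rw [← QuotientGroup.out_eq' x]
    rfl
  rw [h1, MEN_out hb]

end men

theorem p_MEN : Stmt_MEN := by
  intro G _ _ _ _ _ _ _ _ Γ μ m c hL
  obtain ⟨hQ, K, hK, hKc⟩ := hL
  have hprob := hQ.prob
  have hbor : BorelSpace (G ⧸ Γ) := DMC_borel Γ hQ.disc
  have hcpt : CompactSpace (G ⧸ Γ) := by
    refine ⟨?_⟩
    have h1 : IsCompact ((QuotientGroup.mk : G → G ⧸ Γ) '' K) :=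
      hK.image QuotientGroup.continuous_mk
    have h2 : (QuotientGroup.mk : G → G ⧸ Γ) '' K = Set.univ := by
      refine Set.eq_univ_of_forall fun x => ?_
      obtain ⟨g, rfl⟩ := QuotientGroup.mk_surjective x
      obtain ⟨γ, hγ, hgγ⟩ := hKc g
      exact ⟨g * γ, hgγ, QuotientGroup.mk_mul_of_mem g hγ⟩
    rwa [h2] at h1
  have hcont : ∀ b : G → ℝ, Continuous b → RIv (⊤ : Subgroup Γ) b →
      Continuous fun x : G ⧸ Γ => b (Quotient.out x) := fun b hc hb => MEN_cont hc hb
  have hint : ∀ b : G → ℝ, Continuous b → RIv (⊤ : Subgroup Γ) b →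
      Integrable (fun x : G ⧸ Γ => b (Quotient.out x)) m := by
    intro b hc hb
    have h1 := hcont b hc hb
    exact h1.integrable_of_hasCompactSupport (HasCompactSupport.of_compactSpace _)
  have hpos : m.IsOpenPosMeasure := by
    refine ⟨fun V hV hne h0 => ?_⟩
    obtain ⟨x₀, hx₀⟩ := hne
    have h1 : ∀ u : G, IsOpen ((fun x : G ⧸ Γ => u • x) ⁻¹' V) := fun u =>
      hV.preimage (continuous_const_smul u)
    have h2 : (Set.univ : Set (G ⧸ Γ)) ⊆ ⋃ u : G, (fun x : G ⧸ Γ => u • x) ⁻¹' V := by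
      intro x _
      obtain ⟨u, hu⟩ := MulAction.exists_smul_eq G x x₀
      refine Set.mem_iUnion.2 ⟨u, ?_⟩
      show u • x ∈ V
      rw [hu]
      exact hx₀
    obtain ⟨t, ht⟩ := isCompact_univ.elim_finite_subcover _ h1 h2
    have h3 : m (⋃ u ∈ t, (fun x : G ⧸ Γ => u • x) ⁻¹' V) = 0 := by
      refine (measure_biUnion_null_iff (I := (t : Set G)) t.countable_toSet).2 fun u _ => ?_
      rw [(hQ.pres u).measure_preimage hV.measurableSet.nullMeasurableSet]
      exact h0
    have h4 := measure_mono_null ht h3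
    rw [measure_univ] at h4
    exact one_ne_zero h4
  refine ⟨hcpt, fun b hb g => MEN_out hb g, hcont, ?_, ?_, ?_, ?_, ?_, ?_⟩
  · intro b hc hb u
    unfold mean
    have h1 : ∀ x : G ⧸ Γ, b (u * Quotient.out x) = b (Quotient.out (u • x)) := MEN_smul hb u
    simp_rw [h1]
    have h2 := (hQ.pres u).map_eq
    have h3 : ∫ x, b (Quotient.out x) ∂(Measure.map (fun x : G ⧸ Γ => u • x) m) =
        ∫ x, b (Quotient.out (u • x)) ∂m := by
      rw [integral_map (hQ.pres u).measurable.aemeasurable]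
      rw [h2]
      exact (hcont b hc hb).aestronglyMeasurable
    rw [← h3, h2]
  · intro b b' hc hb hc' hb' s t
    unfold mean
    rw [integral_add ((hint b hc hb).const_mul s) ((hint b' hc' hb').const_mul t),
      integral_const_mul, integral_const_mul]
  · intro b b' hc hb hc' hb' hbb
    exact integral_mono (hint b hc hb) (hint b' hc' hb') fun x => hbb _
  · intro t
    unfold mean
    simp
  · intro b hc hb h0 hm g
    unfold mean at hm
    rw [integral_eq_zero_iff_of_nonneg (fun x => h0 _) (hint b hc hb)] at hm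
    have h1 : (fun x : G ⧸ Γ => b (Quotient.out x)) = fun _ => (0 : ℝ) :=
      (hcont b hc hb).ae_eq_iff_eq m continuous_const |>.1 hm
    rw [← MEN_out hb g]
    exact congrFun h1 _
  · intro b hc hb
    obtain ⟨x, hx⟩ := exists_le_integral (hint b hc hb)
    exact ⟨_, hx⟩

end Pool.BS
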