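import Pool.Agent.Work.MP_972ac7_B.Interface

set_option autoImplicit false

/-! # Block PSI: a cut off function for a cocompact lattice -/

open MeasureTheory
open scoped ENNReal

noncomputable section

namespace Pool.BS

open Pool.PQ Pool.TFD Pool.TC

section

variable {G : Type} [Group G] [TopologicalSpace G] [IsTopologicalGroup G] [T2Space G]
  {Γ : Subgroup G}

theorem PSI_fin (hΓ : DiscreteTopology Γ) {C : Set G} (hC : IsCompact C) :
    {γ : Γ | (γ : G) ∈ C}.Finite := by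
  have h := Subgroup.tendsto_coe_cofinite_of_discrete Γ ⟨hΓ⟩
  have h1 : ((↑) : Γ → G) ⁻¹' Cᶜ ∈ Filter.cofinite := h hC.compl_mem_cocompact
  rw [Filter.mem_cofinite] at h1
  refine h1.subset fun γ hγ => ?_
  simpa using hγ

theorem PSI_fin2 (hΓ : DiscreteTopology Γ) {f : G → ℝ} (hf : HasCompactSupport f) {D : Set G}
    (hD : IsCompact D) : {γ : Γ | ∃ g ∈ D, f (g * γ) ≠ 0}.Finite := by
  refine (PSI_fin hΓ (hD.inv.mul hf)).subset ?_
  rintro γ ⟨g, hg, hne⟩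
  refine ⟨g⁻¹, Set.inv_mem_inv.2 hg, g * γ, subset_tsupport _ hne, ?_⟩
  exact inv_mul_cancel_left g (γ : G)

end

theorem p_PSI : Stmt_PSI := by
  intro G _ _ _ _ _ _ Γ K hΓ hK hcov
  obtain ⟨f, h1, -, hfc, hI⟩ := exists_continuous_one_zero_of_isCompact hK isClosed_empty
    (Set.disjoint_empty K)
  have hf0 : ∀ x, 0 ≤ f x := fun x => (hI x).1
  set Ψ : G → ℝ := fun g => ∑ᶠ γ : Γ, f (g * γ) with hΨ
  have hsf : ∀ g : G, (Function.support fun γ : Γ => f (g * γ)).Finite := by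
    intro g
    refine (PSI_fin2 hΓ hfc (isCompact_singleton (x := g))).subset fun γ hγ => ?_
    exact ⟨g, rfl, hγ⟩
  have hpos : ∀ g, 0 < Ψ g := by
    intro g
    obtain ⟨γ, hγ, hgK⟩ := hcov g
    have h2 : f (g * γ) = 1 := h1 hgK
    have h3 : f (g * ((⟨γ, hγ⟩ : Γ) : G)) ≤ Ψ g :=
      single_le_finsum (⟨γ, hγ⟩ : Γ) (hsf g) fun δ => hf0 _
    have h4 : f (g * ((⟨γ, hγ⟩ : Γ) : G)) = 1 := h2
    rw [h4] at h3
    linarith
  have hinv : ∀ (g : G) (n : Γ), Ψ (g * n) = Ψ g := by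
    intro g n
    have h2 := finsum_comp_equiv (Equiv.mulLeft n) (f := fun γ : Γ => f (g * γ))
    rw [hΨ]
    show (∑ᶠ γ : Γ, f (g * n * γ)) = ∑ᶠ γ : Γ, f (g * γ)
    rw [← h2]
    refine finsum_congr fun γ => ?_
    show f (g * n * γ) = f (g * ((n * γ : Γ) : G))
    rw [Subgroup.coe_mul, mul_assoc]
  have hcont : Continuous Ψ := by
    refine continuous_finsum (fun γ => f.continuous.comp (continuous_mul_const _)) ?_
    intro x
    obtain ⟨D, hD, hxD⟩ := exists_compact_mem_nhds x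
    refine ⟨D, hxD, (PSI_fin2 hΓ hfc hD).subset ?_⟩
    rintro γ ⟨g, hg, hgD⟩
    exact ⟨g, hgD, hg⟩
  refine ⟨fun g => f g / Ψ g, f.continuous.div hcont fun g => (hpos g).ne',
    fun g => div_nonneg (hf0 g) (hpos g).le, ?_, ?_⟩
  · intro D hD
    refine (PSI_fin2 hΓ hfc hD).subset ?_
    rintro γ ⟨g, hg, hne⟩
    refine ⟨g, hg, fun h => hne ?_⟩
    show f (g * γ) / Ψ (g * γ) = 0
    rw [h, zero_div]
  · intro g
    have h2 : ∀ γ : Γ, f (g * γ) / Ψ (g * γ) = f (g * γ) / Ψ g := fun γ => by rw [hinv]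
    rw [finsum_congr h2]
    simp only [div_eq_mul_inv]
    rw [← finsum_mul' (fun γ : Γ => f (g * γ)) (Ψ g)⁻¹ (hsf g)]
    exact mul_inv_cancel₀ (hpos g).ne'

end Pool.BS
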