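import Pool.Agent.Work.MP_972ac7_B.Interface

set_option autoImplicit false

/-! # THEOREM BS, block SCK: a measurable section with values in a compact set -/

open MeasureTheory
open scoped ENNReal

noncomputable section

namespace Pool.BS

open Pool.PQ Pool.TFD Pool.TC

theorem p_SCK (h1 : Pool.TFD.Stmt_SEC) : Stmt_SCK := by
  intro G _ _ _ _ _ _ _ _ Γ K hΓ hK hcov
  classical
  obtain ⟨hc, σ₀, hσ₀, hsec⟩ := h1 G Γ hΓ
  obtain ⟨γ, hγ⟩ := exists_surjective_nat Γ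
  have hex : ∀ x : G ⧸ Γ, ∃ n : ℕ, σ₀ x * (γ n : G) ∈ K := by
    intro x
    obtain ⟨y, hy, hyK⟩ := hcov (σ₀ x)
    obtain ⟨n, hn⟩ := hγ ⟨y, hy⟩
    refine ⟨n, ?_⟩
    rw [hn]
    exact hyK
  have hKm : MeasurableSet K := hK.isClosed.measurableSet
  have hm : ∀ k : ℕ, MeasurableSet {x : G ⧸ Γ | σ₀ x * (γ k : G) ∈ K} := by
    intro k
    exact (hσ₀.mul_const (γ k : G)) hKm
  have hfind : Measurable fun x : G ⧸ Γ => Nat.find (hex x) := measurable_find hex hm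
  have hval : Measurable fun x : G ⧸ Γ => ((γ (Nat.find (hex x)) : Γ) : G) :=
    (measurable_of_countable fun n : ℕ => ((γ n : Γ) : G)).comp hfind
  refine ⟨fun x => σ₀ x * ((γ (Nat.find (hex x)) : Γ) : G), hσ₀.mul hval, ?_, ?_⟩
  · intro x
    rw [← hsec x, QuotientGroup.eq]
    rw [hsec x]
    have h2 : (σ₀ x * ((γ (Nat.find (hex x)) : Γ) : G))⁻¹ * σ₀ x
        = ((γ (Nat.find (hex x)) : Γ) : G)⁻¹ := by group
    rw [h2]
    exact Γ.inv_mem (γ (Nat.find (hex x))).2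
  · intro x
    exact Nat.find_spec (hex x)

end Pool.BS
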