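import Pool.Agent.Work.MP_972ac7_B.Interface

/-! # THEOREM BS, block SMA: the commutant of a standard tracial module -/

set_option autoImplicit false

open MeasureTheory
open scoped ENNReal

noncomputable section

namespace Pool.BS

open Pool.PQ Pool.TFD Pool.TC

section SMA

variable {K : Type} [NormedAddCommGroup K] [InnerProductSpace ℂ K] [CompleteSpace K]

/-- The commutant of `S.R`. -/
def SMA_M (S : SM K) : VonNeumannAlgebra K where
  toStarSubalgebra := StarSubalgebra.centralizer ℂ (S.R : Set (K →L[ℂ] K))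
  centralizer_centralizer' := Set.centralizer_centralizer_centralizer _

theorem SMA_mem (S : SM K) (T : K →L[ℂ] K) : T ∈ SMA_M S ↔ S.Mem T := by
  have h1 : T ∈ SMA_M S ↔ T ∈ StarSubalgebra.centralizer ℂ (S.R : Set (K →L[ℂ] K)) := Iff.rfl
  rw [h1, StarSubalgebra.mem_centralizer_iff]
  constructor
  · intro h r hr
    exact (h r hr).1.symm
  · intro h r hr
    exact ⟨(h r hr).symm, (h (star r) (S.star_mem r hr)).symm⟩

/-- Polarization. -/
theorem SMA_pol {x y x' y' : K} (h1 : ‖x + y‖ = ‖x' + y'‖) (h2 : ‖x - y‖ = ‖x' - y'‖)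
    (h3 : ‖x - Complex.I • y‖ = ‖x' + Complex.I • y'‖)
    (h4 : ‖x + Complex.I • y‖ = ‖x' - Complex.I • y'‖) :
    (inner ℂ x y : ℂ) = inner ℂ y' x' := by
  have e3 : ‖y' - Complex.I • x'‖ = ‖x' + Complex.I • y'‖ := by
    have : x' + Complex.I • y' = Complex.I • (y' - Complex.I • x') := by
      rw [smul_sub, smul_smul, Complex.I_mul_I, neg_one_smul, sub_neg_eq_add, add_comm]
    rw [this, norm_smul, Complex.norm_I, one_mul]
  have e4 : ‖y' + Complex.I • x'‖ = ‖x' - Complex.I • y'‖ := by
    have : x' - Complex.I • y' = -(Complex.I • (y' + Complex.I • x')) := by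
      rw [smul_add, smul_smul, Complex.I_mul_I, neg_one_smul]
      abel
    rw [this, norm_neg, norm_smul, Complex.norm_I, one_mul]
  rw [inner_eq_sum_norm_sq_div_four x y, inner_eq_sum_norm_sq_div_four y' x']
  simp only [RCLike.I_to_complex]
  rw [h1, h2, h3, h4, e3, e4, add_comm y' x', norm_sub_rev y' x']

end SMA

theorem p_SMA (hTP : Pool.TC.Stmt_TP) : Stmt_SMA := by
  intro K _ _ _ S
  refine ⟨SMA_M S, SMA_mem S, ?_, ?_⟩
  · intro T hT T' hT'
    have mT : S.Mem T := (SMA_mem S T).1 hT
    have mT' : S.Mem T' := (SMA_mem S T').1 hT'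
    have mem : ∀ A ∈ SMA_M S, ‖A S.ξ‖ = ‖(star A) S.ξ‖ := fun A hA =>
      hTP K S A ((SMA_mem S A).1 hA)
    have hsT : star T ∈ SMA_M S := star_mem hT
    have key : (inner ℂ ((star T) S.ξ) (T' S.ξ) : ℂ) = inner ℂ ((star T') S.ξ) (T S.ξ) := by
      refine SMA_pol ?_ ?_ ?_ ?_
      · have := mem _ (add_mem hsT hT')
        rw [star_add, star_star] at this
        exact this
      · have := mem _ (sub_mem hsT hT')
        rw [star_sub, star_star] at this
        exact this
      · have hI : Complex.I • T' ∈ SMA_M S := (SMA_M S).toStarSubalgebra.smul_mem hT' Complex.I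
        have := mem _ (sub_mem hsT hI)
        rw [star_sub, star_star, star_smul, ← starRingEnd_apply, Complex.conj_I, neg_smul,
          sub_neg_eq_add] at this
        exact this
      · have hI : Complex.I • T' ∈ SMA_M S := (SMA_M S).toStarSubalgebra.smul_mem hT' Complex.I
        have := mem _ (add_mem hsT hI)
        rw [star_add, star_star, star_smul, ← starRingEnd_apply, Complex.conj_I, neg_smul,
          ← sub_eq_add_neg] at this
        exact this
    rw [ContinuousLinearMap.star_eq_adjoint, ContinuousLinearMap.star_eq_adjoint,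
      ContinuousLinearMap.adjoint_inner_left, ContinuousLinearMap.adjoint_inner_left] at key
    exact key
  · intro T hT h0
    have mT : S.Mem T := (SMA_mem S T).1 hT
    refine ContinuousLinearMap.ext fun v => ?_
    have := Continuous.ext_on S.dense T.continuous (continuous_const (y := (0 : K))) (by
      rintro _ ⟨r, hr, rfl⟩
      have h1 : (T * r) S.ξ = (r * T) S.ξ := by rw [mT r hr]
      have h2 : T (r S.ξ) = r (T S.ξ) := h1
      change T (r S.ξ) = 0
      rw [h2, h0, map_zero])
    exact congrFun this v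

end Pool.BS
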