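import Pool.Agent.Work.MP_972ac7_B.Interface

set_option autoImplicit false

/-! # Block SMG: the end of the proof of THEOREM BS -/

open MeasureTheory
open scoped ENNReal

noncomputable section

namespace Pool.BS

open Pool.PQ Pool.TFD Pool.TC

theorem SMG_mean {G : Type} [Group G] {Γ : Subgroup G} [MeasurableSpace G] (m : Measure (G ⧸ Γ))
    [IsProbabilityMeasure m] (b : G → ℝ) (t : ℝ) (ht : 0 ≤ t) (hb : ∀ g, b g ≤ t) :
    mean m b ≤ t := by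
  unfold mean
  by_cases hi : Integrable (fun x : G ⧸ Γ => b (Quotient.out x)) m
  · calc ∫ x : G ⧸ Γ, b (Quotient.out x) ∂m ≤ ∫ _x : G ⧸ Γ, t ∂m :=
          integral_mono hi (integrable_const _) fun x => hb _
      _ = t := by simp
  · rw [integral_undef hi]
    exact ht

theorem SMG_inv {G K : Type} [Group G] {Γ : Subgroup G} [NormedAddCommGroup K]
    [InnerProductSpace ℂ K] {π : Γ →* (K ≃ₗᵢ[ℂ] K)} {f : G → K} (hf : Eqw Γ π f) (x g : G)
    (n : Γ) : ‖f (x * g) - f g‖ = ‖f (x * (g * (n : G))) - f (g * (n : G))‖ := by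
  have h1 := hf (x * g) n
  have h2 := hf g n
  rw [← h1, ← h2, ← map_sub, LinearIsometryEquiv.norm_map, mul_assoc]

/-- The distance of two sections of `L²` from an almost everywhere bound. -/
theorem SMG_lp {X K : Type} [MeasurableSpace X] (m : Measure X) [IsProbabilityMeasure m]
    [NormedAddCommGroup K] [InnerProductSpace ℂ K] (F : Lp K 2 m) (e : ℝ) (he : 0 ≤ e)
    (h : ∀ᵐ x ∂m, ‖F x‖ ≤ e) : ‖F‖ ≤ e := by
  have h1 := Lp.norm_le_of_ae_bound (p := 2) he h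
  have h2 : (measureUnivNNReal m : NNReal) = 1 := by
    simp [measureUnivNNReal]
  rw [h2] at h1
  simpa using h1

theorem SMG_cst {X K : Type} [MeasurableSpace X] (m : Measure X) [IsProbabilityMeasure m]
    [NormedAddCommGroup K] [InnerProductSpace ℂ K] (v w : K) :
    ‖v - w‖ ≤ ‖cst m v - cst m w‖ := by
  have h1 : cst m v - cst m w = cst m (v - w) := by
    apply Lp.ext
    filter_upwards [cst_ae (m := m) v, cst_ae (m := m) w, cst_ae (m := m) (v - w),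
      Lp.coeFn_sub (cst m v) (cst m w)] with x h2 h3 h4 h5
    rw [h5, h4, Pi.sub_apply, h2, h3]
  rw [h1]
  have h6 : ‖cst m (v - w)‖ = ‖v - w‖ := by
    unfold cst
    rw [Lp.norm_toLp, eLpNorm_const _ (by norm_num) (NeZero.ne m)]
    simp
  rw [h6]

theorem SMG_sc {K : Type} [NormedAddCommGroup K] [InnerProductSpace ℂ K] [CompleteSpace K]
    (S : SM K) : SecondCountableTopology K := by
  have h1 : TopologicalSpace.SeparableSpace K := by
    refine ⟨⟨_, ?_, S.dense⟩⟩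
    have h2 : {v : K | ∃ r ∈ S.R, r S.ξ = v} = (fun r : K →L[ℂ] K => r S.ξ) '' (S.R : Set _) := by
      ext u
      simp
    rw [h2]
    exact S.countable.image _
  exact UniformSpace.secondCountable_of_separable K

theorem SMG_orth {K : Type} [NormedAddCommGroup K] [InnerProductSpace ℂ K] (v w : K)
    (h : (inner ℂ w v : ℂ) = 0) : ‖v‖ ≤ ‖v - w‖ := by
  have h1 : (inner ℂ v w : ℂ) = 0 := by rw [← inner_conj_symm, h, map_zero]
  have h2 := @norm_sub_sq ℂ K _ _ _ v w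
  rw [h1] at h2
  simp only [map_zero, mul_zero, sub_zero] at h2
  nlinarith [norm_nonneg v, norm_nonneg (v - w), sq_nonneg ‖w‖, norm_nonneg w]

theorem p_SMG (hFVC : Stmt_FVC) (hSTA : Stmt_STA) (hSCK : Stmt_SCK) (hISM : Stmt_ISM)
    (hCIR : Stmt_CIR) (hMAU : Stmt_MAU) (_hMEN : Stmt_MEN) (_hCOC : Pool.TFD.Stmt_COC)
    (hREPK : Pool.TC.Stmt_REPK) (hMCK : Pool.TC.Stmt_MCK) (hSCN : Pool.TC.Stmt_SCN)
    (hSPX : Pool.TC.Stmt_SPX) (hFIXK : Pool.TC.Stmt_FIXK) : Stmt_SMG := by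
  intro G H _ _ _ _ _ _ _ _ _ _ _ _ _ _ _ _ Γ μ m c Λ μ' m' c' φ hG hH hφ hΛΓ hdense hU C hC
    hgen
  have hcnt : Countable Γ := hG.qd.cnt
  have hdisc : DiscreteTopology Γ := hG.qd.disc
  have hprob : IsProbabilityMeasure m := hG.qd.prob
  have hpres := hG.qd.pres
  have hhaar' : μ'.IsHaarMeasure := hH.qd.haar
  obtain ⟨D₀, hD₀, hcov⟩ := hG.cpt
  obtain ⟨σ, hσm, hσ, hσD⟩ := hSCK G Γ D₀ hdisc hD₀ hcov
  obtain ⟨B, C₀, hB, hC₀, hsta⟩ := hSTA G H Γ μ m c Λ μ' m' c' φ hG hH hφ hΛΓ hdense hU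
  obtain ⟨s, hs⟩ : ∃ s : ℝ, s = (μ' B).toReal := ⟨_, rfl⟩
  have hs0 : 0 ≤ s := by rw [hs]; exact ENNReal.toReal_nonneg
  have hBfin : μ' B ≠ ⊤ := hB.measure_lt_top.ne
  have hBm : MeasurableSet B := hB.isClosed.measurableSet
  -- the compact set
  obtain ⟨D₁, hD₁⟩ : ∃ D₁ : Set G, D₁ = (fun p : H × G => φ p.1 * p.2) '' (B ×ˢ D₀) := ⟨_, rfl⟩
  obtain ⟨D₂, hD₂⟩ : ∃ D₂ : Set G, D₂ = (fun p : G × G => p.1⁻¹ * p.2) '' (C ×ˢ D₀) := ⟨_, rfl⟩
  have hD₁c : IsCompact D₁ := by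
    rw [hD₁]
    exact (hB.prod hD₀).image ((hφ.comp continuous_fst).mul continuous_snd)
  have hD₂c : IsCompact D₂ := by
    rw [hD₂]
    exact (hC.prod hD₀).image (continuous_fst.inv.mul continuous_snd)
  obtain ⟨Q₀, hQ₀⟩ := hFVC G Γ D₀ hdisc hD₀ hcov (D₀ ∪ D₁ ∪ D₂) ((hD₀.union hD₁c).union hD₂c)
  obtain ⟨R, hR⟩ : ∃ R : ℝ, R = Real.sqrt (C₀ * s) := ⟨_, rfl⟩
  have hR0 : 0 ≤ R := by rw [hR]; exact Real.sqrt_nonneg _
  have hR2 : R ^ 2 = C₀ * s := by rw [hR]; exact Real.sq_sqrt (mul_nonneg hC₀ hs0)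
  classical
  refine ⟨insert 1 Q₀, 1 / (4 + 6 * R), by positivity, ?_⟩
  intro K _ _ _ S π hπ v hv
  by_contra hcon
  push Not at hcon
  obtain ⟨e, he⟩ : ∃ e : ℝ, e = 1 / (4 + 6 * R) * ‖v‖ := ⟨_, rfl⟩
  rw [← he] at hcon
  have he0 : 0 ≤ e := by rw [he]; positivity
  have hepos : 0 < e := lt_of_le_of_lt (norm_nonneg _) (hcon 1 (Finset.mem_insert_self _ _))
  have hstrict : 3 * e + 3 * (2 * e * R) < ‖v‖ := by
    have h1 : e * (4 + 6 * R) = ‖v‖ := by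
      rw [he]; field_simp
    nlinarith
  have hK : SecondCountableTopology K := SMG_sc S
  obtain ⟨f, hfc, hfe, hfv⟩ := hQ₀ K π v
  have hfD : ∀ g ∈ D₀ ∪ D₁ ∪ D₂, ‖f g - v‖ ≤ e :=
    hfv e fun q hq => (hcon q (Finset.mem_insert_of_mem hq)).le
  -- two points of the compact set
  have htwo : ∀ g ∈ D₀ ∪ D₁ ∪ D₂, ∀ g' ∈ D₀ ∪ D₁ ∪ D₂, ‖f g - f g'‖ ≤ 2 * e := by
    intro g hg g' hg'
    have h1 : f g - f g' = (f g - v) - (f g' - v) := by abel
    rw [h1]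
    exact (norm_sub_le _ _).trans (by linarith [hfD g hg, hfD g' hg'])
  have hB2 : ∀ h ∈ B, ∀ g : G, ‖f (φ h * g) - f g‖ ≤ 2 * e := by
    intro h hh g
    obtain ⟨γ, hγ, hz⟩ := hcov g
    rw [SMG_inv hfe (φ h) g ⟨γ, hγ⟩]
    refine htwo _ (Or.inl (Or.inr ?_)) _ (Or.inl (Or.inl hz))
    rw [hD₁]
    exact ⟨(h, g * γ), ⟨hh, hz⟩, rfl⟩
  have hC2 : ∀ x ∈ C, ∀ g : G, ‖f (x⁻¹ * g) - f g‖ ≤ 2 * e := by
    intro x hx g
    obtain ⟨γ, hγ, hz⟩ := hcov g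
    rw [SMG_inv hfe x⁻¹ g ⟨γ, hγ⟩]
    refine htwo _ (Or.inr ?_) _ (Or.inl (Or.inl hz))
    rw [hD₂]
    exact ⟨(x, g * γ), ⟨hx, hz⟩, rfl⟩
  -- the induced representation
  obtain ⟨U, hUi⟩ := hREPK G Γ m σ hσ hσm hpres K π
  have hSX : SecondCountableTopology (Lp K 2 m) := hSPX G Γ m σ hσ hσm K
  have hUc : ∀ F : Lp K 2 m, Continuous fun g => U g F :=
    hSCN G (Lp K 2 m) U (hMCK G Γ m σ hσ hσm hpres K π U hUi)
  obtain ⟨F, hFae, hFn⟩ := hISM G Γ μ m c hG σ hσ hσm K π U hUi f hfc hfe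
  -- `H` moves `F` by at most `r`
  obtain ⟨r, hr⟩ : ∃ r : ℝ, r = 2 * e * R := ⟨_, rfl⟩
  have hr0 : 0 ≤ r := by rw [hr]; positivity
  have hUH : ∀ h : H, ‖(U.comp φ) h F - F‖ ≤ r := by
    intro h
    have h1 : ‖U (φ h) F - F‖ ^ 2 ≤ r ^ 2 := by
      rw [hFn (φ h), ← map_inv]
      refine (hsta K S π hπ f hfc hfe h⁻¹).trans ?_
      have h2 : mean m (fun g => ∫ h in B, ‖f (φ h * g) - f g‖ ^ 2 ∂μ') ≤ (2 * e) ^ 2 * s := by
        refine SMG_mean m _ _ (by positivity) fun g => ?_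
        have h3 : ∫ h in B, ‖f (φ h * g) - f g‖ ^ 2 ∂μ' ≤ ∫ _h in B, (2 * e) ^ 2 ∂μ' := by
          refine integral_mono_of_nonneg (Filter.Eventually.of_forall fun h => by positivity)
            (integrableOn_const hBfin) ?_
          filter_upwards [ae_restrict_mem hBm] with h hh
          exact pow_le_pow_left₀ (norm_nonneg _) (hB2 h hh g) 2
        refine h3.trans (le_of_eq ?_)
        rw [setIntegral_const, smul_eq_mul, mul_comm, hs]
        rfl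
      calc C₀ * mean m (fun g => ∫ h in B, ‖f (φ h * g) - f g‖ ^ 2 ∂μ') ≤
            C₀ * ((2 * e) ^ 2 * s) := mul_le_mul_of_nonneg_left h2 hC₀
        _ = (2 * e) ^ 2 * (C₀ * s) := by ring
        _ = r ^ 2 := by rw [← hR2, hr]; ring
    exact (abs_le_of_sq_le_sq' h1 hr0).2
  obtain ⟨F₀, hF₀, hFF₀⟩ := hCIR H (Lp K 2 m) (U.comp φ) F r hUH
  have hfix := hMAU G (Lp K 2 m) U hUc (Set.range φ) F₀ (by
    rintro _ ⟨h, rfl⟩
    exact hF₀ h)
  -- `G` moves `F₀` by at most `2 e + 2 r`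
  have hUC : ∀ x ∈ C, ‖U x F - F‖ ≤ 2 * e := by
    intro x hx
    have h1 : ‖U x F - F‖ ^ 2 ≤ (2 * e) ^ 2 := by
      rw [hFn x]
      refine SMG_mean m _ _ (by positivity) fun g => ?_
      exact pow_le_pow_left₀ (norm_nonneg _) (hC2 x hx g) 2
    exact (abs_le_of_sq_le_sq' h1 (by positivity)).2
  have hUG : ∀ g : G, ‖U g F₀ - F₀‖ ≤ 2 * e + 2 * r := by
    intro g
    obtain ⟨x, hx, u, hu, rfl⟩ := hgen g
    have h1 : U (x * u) F₀ = U x F₀ := by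
      rw [map_mul]
      show U x (U u F₀) = U x F₀
      rw [hfix u hu]
    have h2 : U x F₀ - F₀ = U x (F₀ - F) + (U x F - F) + (F - F₀) := by
      rw [map_sub]; abel
    have h3 : ‖U x (F₀ - F)‖ ≤ r := by
      rw [LinearIsometryEquiv.norm_map, norm_sub_rev]; exact hFF₀
    rw [h1, h2]
    refine (norm_add₃_le).trans ?_
    linarith [hUC x hx, hFF₀]
  obtain ⟨F₁, hF₁, hFF₁⟩ := hCIR G (Lp K 2 m) U F₀ (2 * e + 2 * r) hUG
  obtain ⟨w, hw, hFw⟩ := hFIXK G Γ m σ hσ hσm hpres K π U hUi F₁ hF₁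
  have hFv : ‖cst m v - F‖ ≤ e := by
    refine SMG_lp m _ e he0 ?_
    filter_upwards [Lp.coeFn_sub (cst m v) F, cst_ae (m := m) v, hFae] with x h1 h2 h3
    rw [h1, Pi.sub_apply, h2, h3, norm_sub_rev]
    exact hfD _ (Or.inl (Or.inl (hσD x)))
  have hvw : ‖v - w‖ ≤ 3 * e + 3 * r := by
    refine (SMG_cst m v w).trans ?_
    have h1 : cst m v - cst m w = (cst m v - F) + (F - F₀) + (F₀ - F₁) := by
      rw [hFw]; abel
    rw [h1]
    refine (norm_add₃_le).trans ?_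
    linarith
  have horth := SMG_orth v w (hv w hw)
  rw [hr] at hvw
  linarith

end Pool.BS
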