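import Pool.Agent.Work.MP_972ac7_B.Interface

set_option autoImplicit false

/-! # Block STA of THEOREM BS (MP_972ac7_al), helper52. -/

open MeasureTheory
open scoped ENNReal

noncomputable section

namespace Pool.BS

open Pool.PQ Pool.TFD Pool.TC

/-- the homomorphism `n ↦ x⁻¹ φ(n) x` -/
def STA_hom {G H : Type} [Group G] [Group H] (Γ : Subgroup G) (Λ : Subgroup H) (φ : H →* G)
    (x : G) : Nc Λ φ Γ x →* Γ where
  toFun n := ⟨x⁻¹ * φ ((n : Λ) : H) * x, mem_Nc.1 n.2⟩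
  map_one' := by
    apply Subtype.ext
    simp
  map_mul' a b := by
    apply Subtype.ext
    simp [mul_assoc]

theorem STA_eqw {G K : Type} [Group G] [NormedAddCommGroup K] [InnerProductSpace ℂ K]
    {Γ : Subgroup G} {π : Γ →* (K ≃ₗᵢ[ℂ] K)} {f : G → K} (hE : Eqw Γ π f) (u g : G) (n : Γ) :
    ‖f (u * (g * (n : G))) - f (g * (n : G))‖ = ‖f (u * g) - f g‖ := by
  have h1 := hE (u * g) n
  have h2 := hE g n
  rw [← h1, ← h2, ← map_sub, (π n).norm_map, mul_assoc]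

theorem p_STA (hCMM : Stmt_CMM) (hHGP : Stmt_HGP) (hEQ : Stmt_EQ) (hMEN : Stmt_MEN)
    (hAVP : Stmt_AVP) : Stmt_STA := by
  intro G H _ _ _ _ _ _ _ _ _ _ _ _ _ _ _ _ Γ μ m c Λ μ' m' c' φ hG hL hφ hφΓ hD hU
  obtain ⟨B, C, hB, hC, hP⟩ := hHGP H Λ μ' m' c' hL hU
  obtain ⟨-, hfin, hri⟩ := hCMM G H Γ Λ φ hφΓ
  refine ⟨B, C, hB, hC, ?_⟩
  intro K _ _ _ S π hS f hf hE h₀
  haveI := hL.qd.haar
  -- the two functions
  have hc1 : Continuous fun g : G => ‖f (φ h₀ * g) - f g‖ ^ 2 := by fun_prop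
  have hc2 : Continuous fun g : G => ∫ h in B, ‖f (φ h * g) - f g‖ ^ 2 ∂μ' := by
    have hu : Continuous (Function.uncurry fun (g : G) (h : H) => ‖f (φ h * g) - f g‖ ^ 2) := by
      unfold Function.uncurry
      fun_prop
    exact continuous_parametric_integral_of_continuous hu hB
  have hr1 : RIv (⊤ : Subgroup Γ) fun g : G => ‖f (φ h₀ * g) - f g‖ ^ 2 := by
    intro g n _
    show ‖f (φ h₀ * (g * (n : G))) - f (g * (n : G))‖ ^ 2 = _
    rw [STA_eqw hE]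
  have hr2 : RIv (⊤ : Subgroup Γ) fun g : G => ∫ h in B, ‖f (φ h * g) - f g‖ ^ 2 ∂μ' := by
    intro g n _
    show ∫ h in B, ‖f (φ h * (g * (n : G))) - f (g * (n : G))‖ ^ 2 ∂μ' = _
    simp only [STA_eqw hE]
  have hc : Continuous fun g : G => 1 * ‖f (φ h₀ * g) - f g‖ ^ 2 +
      (-C) * ∫ h in B, ‖f (φ h * g) - f g‖ ^ 2 ∂μ' :=
    (continuous_const.mul hc1).add (continuous_const.mul hc2)
  have hr : RIv (⊤ : Subgroup Γ) fun g : G => 1 * ‖f (φ h₀ * g) - f g‖ ^ 2 +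
      (-C) * ∫ h in B, ‖f (φ h * g) - f g‖ ^ 2 ∂μ' := by
    intro g n hn
    have e1 := hr1 g n hn
    have e2 := hr2 g n hn
    simp only at e1 e2 ⊢
    rw [e1, e2]
  have key : mean m (fun g : G => 1 * ‖f (φ h₀ * g) - f g‖ ^ 2 +
      (-C) * ∫ h in B, ‖f (φ h * g) - f g‖ ^ 2 ∂μ') ≤ 0 := by
    refine hEQ G H Γ μ m c Λ μ' m' c' φ hG hL hφ hφΓ hD _ hc hr ?_
    intro x hx
    haveI := hfin x hx
    have hAP := hAVP H Λ μ' m' c' hL (Nc Λ φ Γ x) (hfin x hx)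
    have hFc : Continuous fun h : H => f (φ h * x) := by fun_prop
    have hFe : Eqv (Nc Λ φ Γ x) (π.comp (STA_hom Γ Λ φ x)) fun h : H => f (φ h * x) := by
      intro h n
      have h1 := hE (φ h * x) (STA_hom Γ Λ φ x n)
      have h2 : φ h * x * ((STA_hom Γ Λ φ x n : Γ) : G) = φ (h * ((n : Λ) : H)) * x := by
        show φ h * x * (x⁻¹ * φ ((n : Λ) : H) * x) = _
        rw [map_mul]
        group
      rw [h2] at h1
      exact h1
    have h3 := hP K S (Nc Λ φ Γ x) (hfin x hx) (π.comp (STA_hom Γ Λ φ x))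
      (fun n => hS _) (fun h : H => f (φ h * x)) hFc hFe h₀
    have hd1 : Continuous fun h : H => ‖f (φ (h₀ * h) * x) - f (φ h * x)‖ ^ 2 := by fun_prop
    have he2 : (bb μ' B fun h : H => f (φ h * x)) =
        fun h : H => (fun g : G => ∫ h in B, ‖f (φ h * g) - f g‖ ^ 2 ∂μ') (φ h * x) := by
      funext z
      unfold bb
      simp only [map_mul, mul_assoc]
    have he1 : (fun h : H => ‖f (φ (h₀ * h) * x) - f (φ h * x)‖ ^ 2) =
        fun h : H => (fun g : G => ‖f (φ h₀ * g) - f g‖ ^ 2) (φ h * x) := by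
      funext z
      simp only [map_mul, mul_assoc]
    have hd2 : Continuous (bb μ' B fun h : H => f (φ h * x)) := by
      rw [he2]
      exact hc2.comp (by fun_prop)
    have hs1 : RIv (Nc Λ φ Γ x) fun h : H => ‖f (φ (h₀ * h) * x) - f (φ h * x)‖ ^ 2 := by
      rw [he1]
      exact hri x _ hr1
    have hs2 : RIv (Nc Λ φ Γ x) (bb μ' B fun h : H => f (φ h * x)) := by
      rw [he2]
      exact hri x _ hr2
    have h4 := hAP.lin _ _ hd1 hs1 hd2 hs2 1 (-C)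
    have h5 : Ac m' φ Γ x (fun g : G => 1 * ‖f (φ h₀ * g) - f g‖ ^ 2 +
        (-C) * ∫ h in B, ‖f (φ h * g) - f g‖ ^ 2 ∂μ') =
        av m' (Nc Λ φ Γ x) (fun h : H => 1 * ‖f (φ (h₀ * h) * x) - f (φ h * x)‖ ^ 2 +
          (-C) * bb μ' B (fun h : H => f (φ h * x)) h) := by
      unfold Ac bb
      simp only [map_mul, mul_assoc]
    rw [h5, h4]
    linarith
  have hM := (hMEN G Γ μ m c hG).lin _ _ hc1 hr1 hc2 hr2 1 (-C)
  rw [hM] at key
  linarith

end Pool.BS
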