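import Pool.Agent.Work.MP_972ac7_B.Interface
import Pool.Agent.Work.MP_972ac7_Q.B_DMC

set_option autoImplicit false

/-! # THEOREM BS, block TIN: the Hecke operators preserve the mean -/

open MeasureTheory
open scoped ENNReal

noncomputable section

namespace Pool.BS

open Pool.PQ Pool.TFD Pool.TC

section alg

variable {G : Type} [Group G] {Γ : Subgroup G}

theorem TIN_mem {δ : G} {y : Γ} :
    y ∈ Nc Γ (MonoidHom.id G) Γ δ ↔ δ⁻¹ * (y : G) * δ ∈ Γ := by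
  rw [mem_Nc, MonoidHom.id_apply]

/-- The two parametrizations of the double coset `Γ δ⁻¹ Γ`. -/
theorem TIN_coset (δ : G) (F : G → ℝ≥0∞) :
    ∑' γ : Γ, ∑' y : Γ ⧸ Nc Γ (MonoidHom.id G) Γ δ,
      F ((γ : G) * δ⁻¹ * ((Quotient.out y : Γ) : G)⁻¹) =
    ∑' z : Γ ⧸ Nc Γ (MonoidHom.id G) Γ δ⁻¹, ∑' γ : Γ,
      F (((Quotient.out z : Γ) : G) * δ⁻¹ * (γ : G)) := by
  obtain ⟨D, hD⟩ : ∃ D : Set G, D = {d | ∃ γ₁ γ₂ : Γ, d = (γ₁ : G) * δ⁻¹ * (γ₂ : G)} := ⟨_, rfl⟩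
  have h1 : ∑' γ : Γ, ∑' y : Γ ⧸ Nc Γ (MonoidHom.id G) Γ δ,
      F ((γ : G) * δ⁻¹ * ((Quotient.out y : Γ) : G)⁻¹) = ∑' d : D, F d := by
    rw [← ENNReal.tsum_prod (f := fun (γ : Γ) (y : Γ ⧸ Nc Γ (MonoidHom.id G) Γ δ) =>
      F ((γ : G) * δ⁻¹ * ((Quotient.out y : Γ) : G)⁻¹))]
    let e : Γ × (Γ ⧸ Nc Γ (MonoidHom.id G) Γ δ) → D := fun p =>
      ⟨(p.1 : G) * δ⁻¹ * ((Quotient.out p.2 : Γ) : G)⁻¹, by
        rw [hD]
        exact ⟨p.1, (Quotient.out p.2 : Γ)⁻¹, by rw [Subgroup.coe_inv]⟩⟩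
    have he : Function.Bijective e := by
      constructor
      · rintro ⟨γ, y⟩ ⟨γ', y'⟩ h
        have h2 : (γ : G) * δ⁻¹ * ((Quotient.out y : Γ) : G)⁻¹ =
          (γ' : G) * δ⁻¹ * ((Quotient.out y' : Γ) : G)⁻¹ := congrArg Subtype.val h
        have hy : y = y' := by
          rw [← QuotientGroup.out_eq' y, ← QuotientGroup.out_eq' y', QuotientGroup.eq, TIN_mem]
          have h3 : δ⁻¹ * (((Quotient.out y : Γ)⁻¹ * (Quotient.out y' : Γ) : Γ) : G) * δ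
              = (γ : G)⁻¹ * (γ' : G) := by
            rw [Subgroup.coe_mul, Subgroup.coe_inv]
            have h4 : δ⁻¹ * ((Quotient.out y : Γ) : G)⁻¹ =
                (γ : G)⁻¹ * ((γ' : G) * δ⁻¹ * ((Quotient.out y' : Γ) : G)⁻¹) := by
              rw [← h2]
              group
            calc δ⁻¹ * (((Quotient.out y : Γ) : G)⁻¹ * ((Quotient.out y' : Γ) : G)) * δ
                = (δ⁻¹ * ((Quotient.out y : Γ) : G)⁻¹) * ((Quotient.out y' : Γ) : G) * δ := by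
                  group
              _ = (γ : G)⁻¹ * (γ' : G) := by
                  rw [h4]
                  group
          rw [h3]
          exact Γ.mul_mem (Γ.inv_mem γ.2) γ'.2
        subst hy
        have hγ : γ = γ' := by
          apply Subtype.ext
          exact mul_right_cancel (mul_right_cancel h2)
        rw [hγ]
      · rintro ⟨d, hd⟩
        have hd2 := hd
        rw [hD] at hd2
        obtain ⟨γ₁, γ₂, h2⟩ := hd2
        obtain ⟨n, hn⟩ := QuotientGroup.mk_out_eq_mul (Nc Γ (MonoidHom.id G) Γ δ) γ₂⁻¹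
        have hn2 : δ⁻¹ * ((n : Γ) : G) * δ ∈ Γ := TIN_mem.1 n.2
        refine ⟨(γ₁ * ⟨δ⁻¹ * ((n : Γ) : G) * δ, hn2⟩, ((γ₂⁻¹ : Γ) : Γ ⧸ _)), ?_⟩
        apply Subtype.ext
        change ((γ₁ * ⟨δ⁻¹ * ((n : Γ) : G) * δ, hn2⟩ : Γ) : G) * δ⁻¹ *
          ((Quotient.out (((γ₂⁻¹ : Γ)) : Γ ⧸ Nc Γ (MonoidHom.id G) Γ δ) : Γ) : G)⁻¹ = d
        rw [hn, h2, Subgroup.coe_mul, Subgroup.coe_mul, Subgroup.coe_inv]
        group
    exact (Equiv.ofBijective e he).tsum_eq (fun d : D => F d)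
  have h2 : ∑' z : Γ ⧸ Nc Γ (MonoidHom.id G) Γ δ⁻¹, ∑' γ : Γ,
      F (((Quotient.out z : Γ) : G) * δ⁻¹ * (γ : G)) = ∑' d : D, F d := by
    rw [← ENNReal.tsum_prod (f := fun (z : Γ ⧸ Nc Γ (MonoidHom.id G) Γ δ⁻¹) (γ : Γ) =>
      F (((Quotient.out z : Γ) : G) * δ⁻¹ * (γ : G)))]
    let e : (Γ ⧸ Nc Γ (MonoidHom.id G) Γ δ⁻¹) × Γ → D := fun p =>
      ⟨((Quotient.out p.1 : Γ) : G) * δ⁻¹ * (p.2 : G), by
        rw [hD]
        exact ⟨Quotient.out p.1, p.2, rfl⟩⟩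
    have he : Function.Bijective e := by
      constructor
      · rintro ⟨z, γ⟩ ⟨z', γ'⟩ h
        have h2 : ((Quotient.out z : Γ) : G) * δ⁻¹ * (γ : G) =
          ((Quotient.out z' : Γ) : G) * δ⁻¹ * (γ' : G) := congrArg Subtype.val h
        have hz : z = z' := by
          rw [← QuotientGroup.out_eq' z, ← QuotientGroup.out_eq' z', QuotientGroup.eq, TIN_mem]
          have h3 : δ⁻¹⁻¹ * (((Quotient.out z : Γ)⁻¹ * (Quotient.out z' : Γ) : Γ) : G) * δ⁻¹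
              = (γ : G) * (γ' : G)⁻¹ := by
            rw [Subgroup.coe_mul, Subgroup.coe_inv]
            have h4 : ((Quotient.out z' : Γ) : G) * δ⁻¹ =
                (((Quotient.out z : Γ) : G) * δ⁻¹ * (γ : G)) * (γ' : G)⁻¹ := by
              rw [h2]
              group
            calc δ⁻¹⁻¹ * (((Quotient.out z : Γ) : G)⁻¹ * ((Quotient.out z' : Γ) : G)) * δ⁻¹
                = δ * ((Quotient.out z : Γ) : G)⁻¹ * (((Quotient.out z' : Γ) : G) * δ⁻¹) := by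
                  group
              _ = (γ : G) * (γ' : G)⁻¹ := by
                  rw [h4]
                  group
          rw [h3]
          exact Γ.mul_mem γ.2 (Γ.inv_mem γ'.2)
        subst hz
        have hγ : γ = γ' := by
          apply Subtype.ext
          exact mul_left_cancel h2
        rw [hγ]
      · rintro ⟨d, hd⟩
        have hd2 := hd
        rw [hD] at hd2
        obtain ⟨γ₁, γ₂, h2⟩ := hd2
        obtain ⟨n, hn⟩ := QuotientGroup.mk_out_eq_mul (Nc Γ (MonoidHom.id G) Γ δ⁻¹) γ₁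
        have hn2 : δ⁻¹⁻¹ * ((n : Γ) : G) * δ⁻¹ ∈ Γ := TIN_mem.1 n.2
        refine ⟨((γ₁ : Γ ⧸ _), (⟨δ⁻¹⁻¹ * ((n : Γ) : G) * δ⁻¹, hn2⟩ : Γ)⁻¹ * γ₂), ?_⟩
        apply Subtype.ext
        change ((Quotient.out ((γ₁ : Γ) : Γ ⧸ Nc Γ (MonoidHom.id G) Γ δ⁻¹) : Γ) : G) * δ⁻¹ *
          (((⟨δ⁻¹⁻¹ * ((n : Γ) : G) * δ⁻¹, hn2⟩ : Γ)⁻¹ * γ₂ : Γ) : G) = d
        rw [hn, h2, Subgroup.coe_mul, Subgroup.coe_mul, Subgroup.coe_inv]
        group
    exact (Equiv.ofBijective e he).tsum_eq (fun d : D => F d)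
  rw [h1, h2]

theorem TIN_Td (δ : G) (b : G → ℝ) [Fintype (Γ ⧸ Nc Γ (MonoidHom.id G) Γ δ)] (g : G) :
    Td Γ δ b g = ((Nc Γ (MonoidHom.id G) Γ δ).index : ℝ)⁻¹ *
      ∑ y : Γ ⧸ Nc Γ (MonoidHom.id G) Γ δ, b (g * ((Quotient.out y : Γ) : G) * δ) := by
  unfold Td fav
  rw [finsum_eq_sum_of_fintype]

end alg

section main

variable {G : Type} [Group G] [TopologicalSpace G] [IsTopologicalGroup G] [LocallyCompactSpace G]
    [SecondCountableTopology G] [T2Space G] [MeasurableSpace G] [BorelSpace G]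
    {Γ : Subgroup G} {μ : Measure G} {m : Measure (G ⧸ Γ)} {c : ℝ≥0∞}

omit [IsTopologicalGroup G] [LocallyCompactSpace G] [SecondCountableTopology G] [T2Space G]
  [MeasurableSpace G] [BorelSpace G] in
theorem TIN_psi {ψ : G → ℝ} (hψ0 : ∀ g, 0 ≤ ψ g)
    (hψf : ∀ D : Set G, IsCompact D → {γ : Γ | ∃ g ∈ D, ψ (g * γ) ≠ 0}.Finite)
    (hψ1 : ∀ g, ∑ᶠ γ : Γ, ψ (g * γ) = 1) (g : G) :
    ∑' γ : Γ, ENNReal.ofReal (ψ (g * γ)) = 1 := by
  have hfin : (Function.support fun γ : Γ => ψ (g * γ)).Finite := by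
    refine (hψf {g} isCompact_singleton).subset fun γ hγ => ?_
    exact ⟨g, rfl, hγ⟩
  rw [← ENNReal.ofReal_tsum_of_nonneg (fun γ => hψ0 _) (summable_of_hasFiniteSupport hfin),
    tsum_eq_finsum hfin, hψ1, ENNReal.ofReal_one]

theorem TIN_int (hQ : QD Γ μ m c) (hMP : MP Γ m) {β : G → ℝ} (hβ : Continuous β)
    (hβi : RIv (⊤ : Subgroup Γ) β) :
    Integrable (fun x : G ⧸ Γ => β (Quotient.out x)) m := by
  have hB : BorelSpace (G ⧸ Γ) := DMC_borel Γ hQ.disc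
  have hcpt := hMP.cpt
  have hprob := hQ.prob
  have hc := hMP.cont β hβ hβi
  exact hc.integrable_of_hasCompactSupport (HasCompactSupport.of_compactSpace _)

theorem TIN_lint (hQ : QD Γ μ m c) (hMP : MP Γ m) {β : G → ℝ} (hβ : Continuous β)
    (hβi : RIv (⊤ : Subgroup Γ) β) (hβ0 : ∀ g, 0 ≤ β g) :
    ∫⁻ x : G ⧸ Γ, ENNReal.ofReal (β (Quotient.out x)) ∂m = ENNReal.ofReal (mean m β) := by
  unfold mean
  rw [ofReal_integral_eq_lintegral_ofReal (TIN_int hQ hMP hβ hβi)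
    (Filter.Eventually.of_forall fun x => hβ0 _)]

theorem TIN_W (hQ : QD Γ μ m c) (hMP : MP Γ m) {ψ : G → ℝ} (hψc : Continuous ψ)
    (hψ0 : ∀ g, 0 ≤ ψ g)
    (hψf : ∀ D : Set G, IsCompact D → {γ : Γ | ∃ g ∈ D, ψ (g * γ) ≠ 0}.Finite)
    (hψ1 : ∀ g, ∑ᶠ γ : Γ, ψ (g * γ) = 1) {β : G → ℝ} (hβ : Continuous β)
    (hβi : RIv (⊤ : Subgroup Γ) β) (hβ0 : ∀ g, 0 ≤ β g) :
    ∫⁻ g, ENNReal.ofReal (ψ g * β g) ∂μ = c * ENNReal.ofReal (mean m β) := by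
  have hm : Measurable fun g => ENNReal.ofReal (ψ g * β g) :=
    (hψc.mul hβ).measurable.ennreal_ofReal
  rw [hQ.weil _ hm, ← TIN_lint hQ hMP hβ hβi hβ0]
  congr 1
  refine lintegral_congr fun x => ?_
  unfold sG
  have h1 : ∀ γ : Γ, ENNReal.ofReal (ψ (Quotient.out x * (γ : G)) * β (Quotient.out x * (γ : G)))
      = ENNReal.ofReal (ψ (Quotient.out x * (γ : G))) * ENNReal.ofReal (β (Quotient.out x)) := by
    intro γ
    rw [ENNReal.ofReal_mul (hψ0 _), hβi _ γ (Subgroup.mem_top γ)]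
  simp_rw [h1]
  rw [ENNReal.tsum_mul_right, TIN_psi hψ0 hψf hψ1, one_mul]

theorem TIN_pos (hQ : QD Γ μ m c) (hMP : MP Γ m) {ψ : G → ℝ} (hψc : Continuous ψ)
    (hψ0 : ∀ g, 0 ≤ ψ g)
    (hψf : ∀ D : Set G, IsCompact D → {γ : Γ | ∃ g ∈ D, ψ (g * γ) ≠ 0}.Finite)
    (hψ1 : ∀ g, ∑ᶠ γ : Γ, ψ (g * γ) = 1) {δ : G}
    (hN : (Nc Γ (MonoidHom.id G) Γ δ).FiniteIndex)
    (hN' : (Nc Γ (MonoidHom.id G) Γ δ⁻¹).FiniteIndex) {b : G → ℝ} (hb : Continuous b)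
    (hbi : RIv (⊤ : Subgroup Γ) b) (hb0 : ∀ g, 0 ≤ b g) (hT : Continuous (Td Γ δ b))
    (hTi : RIv (⊤ : Subgroup Γ) (Td Γ δ b)) (hT0 : ∀ g, 0 ≤ Td Γ δ b g) :
    ENNReal.ofReal (mean m (Td Γ δ b)) =
      ENNReal.ofReal ((Nc Γ (MonoidHom.id G) Γ δ).index : ℝ)⁻¹ *
        ((Nc Γ (MonoidHom.id G) Γ δ⁻¹).index : ℝ≥0∞) * ENNReal.ofReal (mean m b) := by
  have hright := hQ.right
  have : Finite (Γ ⧸ Nc Γ (MonoidHom.id G) Γ δ) :=
    Subgroup.finite_quotient_of_finiteIndex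
  have : Finite (Γ ⧸ Nc Γ (MonoidHom.id G) Γ δ⁻¹) :=
    Subgroup.finite_quotient_of_finiteIndex
  let _ : Fintype (Γ ⧸ Nc Γ (MonoidHom.id G) Γ δ) := Fintype.ofFinite _
  let _ : Fintype (Γ ⧸ Nc Γ (MonoidHom.id G) Γ δ⁻¹) := Fintype.ofFinite _
  have hJ0 : (0 : ℝ) ≤ ((Nc Γ (MonoidHom.id G) Γ δ).index : ℝ)⁻¹ := by positivity
  -- the function
  obtain ⟨f, hf⟩ : ∃ f : (Γ ⧸ Nc Γ (MonoidHom.id G) Γ δ) → G → ℝ≥0∞, ∀ y g, f y g =
      ENNReal.ofReal (ψ (g * δ⁻¹ * ((Quotient.out y : Γ) : G)⁻¹) * b g) := ⟨_, fun _ _ => rfl⟩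
  have hfm : ∀ y, Measurable (f y) := by
    intro y
    have h1 : f y = fun g =>
      ENNReal.ofReal (ψ (g * δ⁻¹ * ((Quotient.out y : Γ) : G)⁻¹) * b g) := funext (hf y)
    rw [h1]
    refine Continuous.measurable ?_ |>.ennreal_ofReal
    exact (hψc.comp (by fun_prop)).mul hb
  have hW1 : ∫⁻ g, ENNReal.ofReal (ψ g * Td Γ δ b g) ∂μ =
      ENNReal.ofReal ((Nc Γ (MonoidHom.id G) Γ δ).index : ℝ)⁻¹ * ∫⁻ g, ∑ y, f y g ∂μ := by
    have h1 : ∀ g, ENNReal.ofReal (ψ g * Td Γ δ b g) =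
        ENNReal.ofReal ((Nc Γ (MonoidHom.id G) Γ δ).index : ℝ)⁻¹ *
          ∑ y, f y (g * (((Quotient.out y : Γ) : G) * δ)) := by
      intro g
      rw [TIN_Td, mul_left_comm, ENNReal.ofReal_mul hJ0, Finset.mul_sum,
        ENNReal.ofReal_sum_of_nonneg fun y _ => mul_nonneg (hψ0 _) (hb0 _)]
      congr 1
      refine Finset.sum_congr rfl fun y _ => ?_
      rw [hf]
      congr 2
      · congr 1
        group
      · rw [mul_assoc]
    simp_rw [h1]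
    have hm : ∀ y, Measurable fun g => f y (g * (((Quotient.out y : Γ) : G) * δ)) := fun y =>
      (hfm y).comp (continuous_mul_const _).measurable
    rw [lintegral_const_mul _ (Finset.measurable_fun_sum _ fun y _ => hm y),
      lintegral_finsetSum _ fun y _ => hm y, lintegral_finsetSum _ fun y _ => hfm y]
    congr 1
    exact Finset.sum_congr rfl fun y _ => lintegral_mul_right_eq_self (f y) _
  have hW2 : ∫⁻ g, ∑ y, f y g ∂μ =
      c * (((Nc Γ (MonoidHom.id G) Γ δ⁻¹).index : ℝ≥0∞) * ENNReal.ofReal (mean m b)) := by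
    rw [hQ.weil _ (Finset.measurable_fun_sum _ fun y _ => hfm y),
      ← TIN_lint hQ hMP hb hbi hb0, ← lintegral_const_mul' _ _ (ENNReal.natCast_ne_top _)]
    congr 1
    refine lintegral_congr fun x => ?_
    unfold sG
    have h1 : ∀ γ : Γ, ∑ y, f y (Quotient.out x * (γ : G)) =
        (∑' y : Γ ⧸ Nc Γ (MonoidHom.id G) Γ δ, ENNReal.ofReal (ψ (Quotient.out x *
          ((γ : G) * δ⁻¹ * ((Quotient.out y : Γ) : G)⁻¹)))) *
          ENNReal.ofReal (b (Quotient.out x)) := by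
      intro γ
      rw [tsum_fintype, Finset.sum_mul]
      refine Finset.sum_congr rfl fun y _ => ?_
      rw [hf, ENNReal.ofReal_mul (hψ0 _), hbi _ γ (Subgroup.mem_top γ)]
      congr 3
      group
    simp_rw [h1]
    rw [ENNReal.tsum_mul_right,
      TIN_coset δ (fun d => ENNReal.ofReal (ψ (Quotient.out x * d)))]
    congr 1
    have h2 : ∀ z : Γ ⧸ Nc Γ (MonoidHom.id G) Γ δ⁻¹, ∑' γ : Γ, ENNReal.ofReal
        (ψ (Quotient.out x * (((Quotient.out z : Γ) : G) * δ⁻¹ * (γ : G)))) = 1 := by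
      intro z
      have h3 := TIN_psi hψ0 hψf hψ1 (Quotient.out x * (((Quotient.out z : Γ) : G) * δ⁻¹))
      simpa only [mul_assoc] using h3
    simp_rw [h2]
    rw [tsum_fintype, Finset.sum_const, Finset.card_univ, nsmul_one, Subgroup.index,
      Nat.card_eq_fintype_card]
  have hW3 := TIN_W hQ hMP hψc hψ0 hψf hψ1 hT hTi hT0
  rw [hW1, hW2] at hW3
  have h4 : c * ENNReal.ofReal (mean m (Td Γ δ b)) = c *
      (ENNReal.ofReal ((Nc Γ (MonoidHom.id G) Γ δ).index : ℝ)⁻¹ *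
        ((Nc Γ (MonoidHom.id G) Γ δ⁻¹).index : ℝ≥0∞) * ENNReal.ofReal (mean m b)) := by
    rw [← hW3]
    ring
  exact (ENNReal.mul_right_inj hQ.pos hQ.ne).1 h4

end main

/-- **TIN**: the Hecke operators preserve the mean. -/
theorem p_TIN (h1 : Stmt_MEN) (h2 : Stmt_PSI) (h3 : Stmt_CMM) (h4 : Stmt_HEC) : Stmt_TIN := by
  intro G _ _ _ _ _ _ _ _ Γ μ m c hL δ hδ b hb hbi
  have hQ := hL.qd
  have hMP := h1 G Γ μ m c hL
  obtain ⟨K, hK, hKG⟩ := hL.cpt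
  obtain ⟨ψ, hψc, hψ0, hψf, hψ1⟩ := h2 G Γ K hQ.disc hK hKG
  have hC := h3 G G Γ Γ (MonoidHom.id G) (fun y hy => hy)
  have hN := hC.2.1 δ hδ
  have hN' := hC.2.1 δ⁻¹ (inv_mem hδ)
  have hTd0 : ∀ β : G → ℝ, (∀ g, 0 ≤ β g) → ∀ g, 0 ≤ Td Γ δ β g := by
    intro β hβ g
    unfold Td fav
    exact mul_nonneg (by positivity) (finsum_nonneg fun y => hβ _)
  have hfin : Finite (Γ ⧸ Nc Γ (MonoidHom.id G) Γ δ) :=
    Subgroup.finite_quotient_of_finiteIndex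
  let _ : Fintype (Γ ⧸ Nc Γ (MonoidHom.id G) Γ δ) := Fintype.ofFinite _
  have hidx : ((Nc Γ (MonoidHom.id G) Γ δ).index : ℝ) =
      (Fintype.card (Γ ⧸ Nc Γ (MonoidHom.id G) Γ δ) : ℝ) := by
    rw [Subgroup.index, Nat.card_eq_fintype_card]
  have hidx0 : ((Nc Γ (MonoidHom.id G) Γ δ).index : ℝ) ≠ 0 := by
    exact_mod_cast hN.index_ne_zero
  have hTc : ∀ (β : G → ℝ) (t : ℝ) (g : G), Td Γ δ (fun g => 1 * β g + 1 * t) g =
      1 * Td Γ δ β g + 1 * t := by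
    intro β t g
    rw [TIN_Td, TIN_Td, Finset.sum_add_distrib, ← Finset.mul_sum, Finset.sum_const,
      Finset.card_univ, nsmul_eq_mul, ← hidx]
    field_simp
  have hT1 : Td Γ δ (fun _ => (1 : ℝ)) = fun _ => 1 := by
    funext g
    rw [TIN_Td, Finset.sum_const, Finset.card_univ, nsmul_eq_mul, ← hidx, mul_one,
      inv_mul_cancel₀ hidx0]
  have hconst : ∀ t : ℝ, RIv (⊤ : Subgroup Γ) (fun _ : G => t) := fun t g n _ => rfl
  -- the ratio of the indices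
  have hratio : ENNReal.ofReal ((Nc Γ (MonoidHom.id G) Γ δ).index : ℝ)⁻¹ *
        ((Nc Γ (MonoidHom.id G) Γ δ⁻¹).index : ℝ≥0∞) = 1 := by
    have h5 := TIN_pos hQ hMP hψc hψ0 hψf hψ1 hN hN' (b := fun _ => (1 : ℝ)) continuous_const
      (hconst 1) (fun _ => zero_le_one) (by rw [hT1]; exact continuous_const)
      (by rw [hT1]; exact hconst 1) (fun g => by rw [hT1]; exact zero_le_one)
    rw [hT1, hMP.const, ENNReal.ofReal_one, mul_one] at h5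
    exact h5.symm
  have hpos : ∀ β : G → ℝ, Continuous β → RIv (⊤ : Subgroup Γ) β → (∀ g, 0 ≤ β g) →
      mean m (Td Γ δ β) = mean m β := by
    intro β hβ hβi hβ0
    obtain ⟨hT, hTi, -⟩ := h4 G Γ δ hδ β hβ hβi
    have h5 := TIN_pos hQ hMP hψc hψ0 hψf hψ1 hN hN' hβ hβi hβ0 hT hTi (hTd0 β hβ0)
    rw [hratio, one_mul] at h5
    have h6 : 0 ≤ mean m (Td Γ δ β) := integral_nonneg fun x => hTd0 β hβ0 _
    have h7 : 0 ≤ mean m β := integral_nonneg fun x => hβ0 _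
    exact (ENNReal.ofReal_eq_ofReal_iff h6 h7).1 h5
  -- the general case
  obtain ⟨M, hM⟩ : ∃ M : ℝ, ∀ g, |b g| ≤ M := by
    have hcpt := hMP.cpt
    have hc := hMP.cont b hb hbi
    obtain ⟨M, hM⟩ := isCompact_univ.exists_bound_of_continuousOn hc.continuousOn
    refine ⟨M, fun g => ?_⟩
    have h5 := hM (g : G ⧸ Γ) (Set.mem_univ _)
    rwa [hMP.out b hbi, Real.norm_eq_abs] at h5
  have hbM : Continuous fun g => 1 * b g + 1 * M := by fun_prop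
  have hbMi : RIv (⊤ : Subgroup Γ) fun g => 1 * b g + 1 * M := fun g n hn => by
    simp only
    rw [hbi g n hn]
  have h5 := hpos (fun g => 1 * b g + 1 * M) hbM hbMi (fun g => by
    have := (abs_le.1 (hM g)).1
    linarith)
  obtain ⟨hT, hTi, -⟩ := h4 G Γ δ hδ b hb hbi
  have h6 : Td Γ δ (fun g => 1 * b g + 1 * M) = fun g => 1 * Td Γ δ b g + 1 * M :=
    funext fun g => hTc b M g
  rw [h6, hMP.lin _ _ hT hTi continuous_const (hconst M) 1 1,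
    hMP.lin _ _ hb hbi continuous_const (hconst M) 1 1] at h5
  linarith

end Pool.BS
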