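import Pool.Agent.Work.MP_972ac7_B.Interface

set_option autoImplicit false

open MeasureTheory
open scoped ENNReal

noncomputable section

namespace Pool.BS

open Pool.PQ Pool.TFD Pool.TC

theorem p_UCT : Stmt_UCT := by
  intro G _ _ _ Γ hc a ha hR
  have hout : ∀ g : G, a (Quotient.out (g : G ⧸ Γ)) = a g := by
    intro g
    obtain ⟨h, hh⟩ := QuotientGroup.mk_out_eq_mul Γ g
    have h2 : (Quotient.out (g : G ⧸ Γ)) = g * (h : G) := hh
    rw [h2]
    exact hR g h trivial
  have hcont : Continuous fun x : G ⧸ Γ => a (Quotient.out x) := by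
    have hq : Topology.IsQuotientMap (QuotientGroup.mk : G → G ⧸ Γ) := isQuotientMap_quotient_mk'
    apply hq.continuous_iff.2
    have : (fun x : G ⧸ Γ => a (Quotient.out x)) ∘ (QuotientGroup.mk : G → G ⧸ Γ) = a :=
      funext hout
    rw [this]
    exact ha
  have hF : Continuous (fun p : G × (G ⧸ Γ) =>
      |a (Quotient.out (p.1 • p.2)) - a (Quotient.out p.2)|) := by
    have h1 : Continuous (fun p : G × (G ⧸ Γ) => p.1 • p.2) := continuous_smul
    exact ((hcont.comp h1).sub (hcont.comp continuous_snd)).abs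
  have hsup : Continuous (fun u : G => sSup ((fun x : G ⧸ Γ =>
      |a (Quotient.out (u • x)) - a (Quotient.out x)|) '' Set.univ)) := by
    exact isCompact_univ.continuous_sSup hF
  obtain ⟨M, hM⟩ := isCompact_univ.exists_bound_of_continuousOn
    (hcont.continuousOn (s := (Set.univ : Set (G ⧸ Γ))))
  refine ⟨M, fun u => sSup ((fun x : G ⧸ Γ =>
      |a (Quotient.out (u • x)) - a (Quotient.out x)|) '' Set.univ), ?_, ?_, ?_⟩
  · intro g
    have := hM (g : G ⧸ Γ) (Set.mem_univ _)
    rw [hout g] at this
    simpa [Real.norm_eq_abs] using this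
  · have h1 := hsup.tendsto 1
    have h0 : sSup ((fun x : G ⧸ Γ =>
      |a (Quotient.out ((1 : G) • x)) - a (Quotient.out x)|) '' Set.univ) = 0 := by
      have : ((fun x : G ⧸ Γ =>
        |a (Quotient.out ((1 : G) • x)) - a (Quotient.out x)|) '' Set.univ) = {0} := by
        ext t
        constructor
        · rintro ⟨x, -, rfl⟩
          simp
        · intro ht
          rw [Set.mem_singleton_iff] at ht
          exact ⟨((1 : G) : G ⧸ Γ), Set.mem_univ _, by simp [ht]⟩
      rw [this, csSup_singleton]
    rw [h0] at h1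
    exact h1
  · intro u g
    have hb : BddAbove ((fun x : G ⧸ Γ =>
      |a (Quotient.out (u • x)) - a (Quotient.out x)|) '' Set.univ) := by
      apply IsCompact.bddAbove
      apply isCompact_univ.image
      exact hF.comp (Continuous.prodMk_right u)
    apply le_csSup hb
    refine ⟨(g : G ⧸ Γ), Set.mem_univ _, ?_⟩
    have h1 : u • (g : G ⧸ Γ) = ((u * g : G) : G ⧸ Γ) := rfl
    simp only [h1]
    rw [hout, hout]

end Pool.BS
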