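import Pool.Agent.Work.MP_972ac7_B.Interface
import Pool.Agent.Work.MP_972ac7_C.B_SBF

/-! # Block UG: the gap for the representations induced from finite index subgroups -/

set_option autoImplicit false

open MeasureTheory
open scoped ENNReal

noncomputable section

namespace Pool.BS

open Pool.PQ Pool.TFD Pool.TC

theorem UG_inv {Λ : Type} [Group Λ] (N : Subgroup Λ) [Fintype (Λ ⧸ N)] {K : Type}
    [NormedAddCommGroup K] [InnerProductSpace ℂ K] (π : N →* (K ≃ₗᵢ[ℂ] K))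
    (f : PiLp 2 fun _ : Λ ⧸ N => K) (hf : ∀ γ, indRep N K π γ f = f) :
    ∃ w : K, (∀ n, π n w = w) ∧ ∀ x, f x = w := by
  have h1 : ∀ g x, π (cc N g x) (f x) = f (g • x) := by
    intro g x
    have := indRep_apply N K π g f (g • x)
    rw [hf g, inv_smul_smul] at this
    exact this.symm
  set x₀ : Λ ⧸ N := ((1 : Λ) : Λ ⧸ N) with hx₀
  have h2 : ∀ γ : N, π γ (f x₀) = f x₀ := by
    intro γ
    have h3 : (x₀.out : Λ) ∈ N := by
      have h4 : ((x₀.out : Λ) : Λ ⧸ N) = ((1 : Λ) : Λ ⧸ N) := QuotientGroup.out_eq' x₀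
      have := QuotientGroup.eq.1 h4
      rw [mul_one] at this
      exact N.inv_mem_iff.1 this
    have h5 : (x₀.out * γ * x₀.out⁻¹ : Λ) • x₀ = x₀ := by
      have h6 : (x₀.out * γ * x₀.out⁻¹ : Λ) ∈ N :=
        N.mul_mem (N.mul_mem h3 γ.2) (N.inv_mem h3)
      have h7 : (((x₀.out * γ * x₀.out⁻¹ : Λ) * 1 : Λ) : Λ ⧸ N) = ((1 : Λ) : Λ ⧸ N) := by
        rw [QuotientGroup.eq, mul_one, mul_one]
        exact N.inv_mem h6
      exact h7
    have h8 : cc N (x₀.out * γ * x₀.out⁻¹ : Λ) x₀ = γ := by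
      apply Subtype.ext
      rw [cc_coe, h5]
      group
    have h9 := h1 (x₀.out * γ * x₀.out⁻¹ : Λ) x₀
    rwa [h8, h5] at h9
  refine ⟨f x₀, h2, ?_⟩
  intro x
  have h3 := h1 x.out x₀
  have h4 : (x.out : Λ) • x₀ = x := by
    have : (((x.out : Λ) * 1 : Λ) : Λ ⧸ N) = x := by
      rw [mul_one]
      exact QuotientGroup.out_eq' x
    exact this
  rw [h4, h2] at h3
  exact h3.symm

theorem UG_app {Λ : Type} [Group Λ] (N : Subgroup Λ) [Fintype (Λ ⧸ N)] {K : Type}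
    [NormedAddCommGroup K] [InnerProductSpace ℂ K] (π : N →* (K ≃ₗᵢ[ℂ] K)) (k : Λ → K)
    (hk : ∀ (x : Λ) (n : N), π n (k (x * n)) = k x) (g : Λ) (y : Λ ⧸ N) :
    (indRep N K π g (WithLp.toLp 2 fun y : Λ ⧸ N => k (Quotient.out y)) :
      PiLp 2 fun _ : Λ ⧸ N => K) y = k (g⁻¹ * Quotient.out y) := by
  rw [indRep_apply]
  have h1 : g⁻¹ * (Quotient.out y : Λ) * (cc N g (g⁻¹ • y) : Λ) = Quotient.out (g⁻¹ • y) := by
    rw [cc_coe, smul_inv_smul]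
    group
  have h2 := hk (g⁻¹ * Quotient.out y) (cc N g (g⁻¹ • y))
  rw [h1] at h2
  exact h2

theorem p_UG (hSMA : Stmt_SMA) : Stmt_UG := by
  classical
  intro Λ _ hgap
  obtain ⟨Q, ε, hε, hQ⟩ := hgap
  refine ⟨Q.image fun q => q⁻¹, (ε ^ 2)⁻¹, by positivity, ?_⟩
  intro K _ _ _ S N hN π hπ k hk
  have : Fintype (Λ ⧸ N) := Subgroup.fintypeQuotientOfFiniteIndex
  obtain ⟨M, hM, htr, hfa⟩ := hSMA K S
  have hπM : ∀ n, opU (π n) ∈ M := fun n => (hM _).2 (hπ n)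
  have hU : ∀ γ, opU (indRep N K π γ) ∈ SBF_M M (Λ ⧸ N) := by
    intro γ
    rw [SBF_mem]
    intro r hr
    ext f x
    show (dg r (indRep N K π γ f) : PiLp 2 fun _ : Λ ⧸ N => K) x =
      (indRep N K π γ (dg r f) : PiLp 2 fun _ : Λ ⧸ N => K) x
    rw [dg_apply, indRep_apply, indRep_apply, dg_apply]
    have h1 := VonNeumannAlgebra.mem_commutant_iff.1 hr _ (hπM (cc N γ (γ⁻¹ • x)))
    exact (congrArg (fun A : K →L[ℂ] K => A (f (γ⁻¹ • x))) h1).symm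
  have hfa' : ∀ T ∈ SBF_M M (Λ ⧸ N), (∀ p : (Λ ⧸ N) × Unit, T (sl p.1 S.ξ) = 0) → T = 0 := by
    intro T hT hz
    have h1 : ∀ x y, SBF_en T x y = 0 := by
      intro x y
      refine hfa _ (SBF_en_mem M T hT x y) ?_
      rw [SBF_en_apply, hz (y, ())]
      rfl
    ext f x
    have h2 : T f = T (∑ y : Λ ⧸ N, sl y (f y)) := by rw [← SBF_sum]
    rw [h2, map_sum]
    have h3 : (∑ y : Λ ⧸ N, T (sl y (f y)) : PiLp 2 fun _ : Λ ⧸ N => K) x =
        ∑ y : Λ ⧸ N, SBF_en T x y (f y) := by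
      simp [SBF_en_apply]
    rw [h3]
    simp [h1]
  have hξ : Summable (fun _ : Unit => ‖S.ξ‖ ^ 2) := Summable.of_finite
  have key : ∀ v : PiLp 2 fun _ : Λ ⧸ N => K,
      (∀ w : PiLp 2 fun _ : Λ ⧸ N => K, (∀ γ, indRep N K π γ w = w) → (inner ℂ w v : ℂ) = 0) →
      ∃ q ∈ Q, ε * ‖v‖ ≤ ‖indRep N K π q v - v‖ := by
    intro v hv
    refine hQ (PiLp 2 fun _ : Λ ⧸ N => K) (SBF_M M (Λ ⧸ N)) ((Λ ⧸ N) × Unit)
      (fun p => sl p.1 S.ξ) (indRep N K π) hU (SBF_summ2 (fun _ : Unit => S.ξ) hξ) ?_ hfa' v hv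
    intro A hA B hB
    have e1 := SBF_trace (J := Λ ⧸ N) (fun _ : Unit => S.ξ) hξ A B
    have e2 := SBF_trace (J := Λ ⧸ N) (fun _ : Unit => S.ξ) hξ B A
    rw [e1, e2, Finset.sum_comm]
    refine Finset.sum_congr rfl fun x _ => Finset.sum_congr rfl fun y _ => tsum_congr fun _ => ?_
    exact htr _ (SBF_en_mem M A hA y x) _ (SBF_en_mem M B hB x y)
  set W : Submodule ℂ (PiLp 2 fun _ : Λ ⧸ N => K) := fixedSub (⊤ : Subgroup Λ) (indRep N K π)
    with hW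
  have hcl : IsClosed (W : Set (PiLp 2 fun _ : Λ ⧸ N => K)) := by
    have h1 : (W : Set (PiLp 2 fun _ : Λ ⧸ N => K)) = ⋂ g : Λ, {v | indRep N K π g v = v} := by
      ext v
      rw [Set.mem_iInter]
      exact ⟨fun h g => h g trivial, fun h g _ => h g⟩
    rw [h1]
    exact isClosed_iInter fun g => isClosed_eq (indRep N K π g).continuous continuous_id
  haveI : CompleteSpace W := hcl.completeSpace_coe
  set f : PiLp 2 fun _ : Λ ⧸ N => K := WithLp.toLp 2 fun y : Λ ⧸ N => k (Quotient.out y) with hf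
  obtain ⟨f₁, hf₁, f₂, hf₂, hff⟩ := W.exists_add_mem_mem_orthogonal f
  obtain ⟨w, hw1, hw2⟩ := UG_inv N π f₁ (fun γ => hf₁ γ trivial)
  obtain ⟨q, hq, hq1⟩ := key f₂ (fun w hw =>
    (Submodule.mem_orthogonal _ _).1 hf₂ w (fun g _ => hw g))
  refine ⟨w, hw1, ?_⟩
  have e1 : indRep N K π q f₂ - f₂ = indRep N K π q f - f := by
    have h2 : indRep N K π q f₁ = f₁ := hf₁ q trivial
    rw [hff, map_add, h2]
    abel
  have e2 : f₂ = f - f₁ := by rw [hff]; abel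
  rw [e1, e2] at hq1
  have hnorm : ‖f - f₁‖ ^ 2 = ∑ y : Λ ⧸ N, ‖k (Quotient.out y) - w‖ ^ 2 := by
    rw [PiLp.norm_sq_eq_of_L2]
    refine Finset.sum_congr rfl fun y _ => ?_
    rw [PiLp.sub_apply, hw2 y]
  have hnq : ∀ g : Λ, ‖indRep N K π g f - f‖ ^ 2 =
      ∑ y : Λ ⧸ N, ‖k (g⁻¹ * Quotient.out y) - k (Quotient.out y)‖ ^ 2 := by
    intro g
    rw [PiLp.norm_sq_eq_of_L2]
    refine Finset.sum_congr rfl fun y _ => ?_
    rw [PiLp.sub_apply, hf, UG_app N π k hk g y]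
  rw [finsum_eq_sum_of_fintype, ← hnorm, Finset.sum_image (fun a _ b _ h => inv_injective h)]
  have h3 : ∑ q ∈ Q, ∑ᶠ y : Λ ⧸ N, ‖k (q⁻¹ * Quotient.out y) - k (Quotient.out y)‖ ^ 2 =
      ∑ q ∈ Q, ‖indRep N K π q f - f‖ ^ 2 := by
    refine Finset.sum_congr rfl fun g _ => ?_
    rw [finsum_eq_sum_of_fintype, hnq]
  rw [h3]
  have h4 : (ε * ‖f - f₁‖) ^ 2 ≤ ∑ q ∈ Q, ‖indRep N K π q f - f‖ ^ 2 :=
    le_trans (pow_le_pow_left₀ (by positivity) hq1 2)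
      (Finset.single_le_sum (f := fun q => ‖indRep N K π q f - f‖ ^ 2)
        (fun _ _ => by positivity) hq)
  rw [mul_pow] at h4
  rw [← div_eq_inv_mul, le_div_iff₀ (by positivity)]
  linarith

end Pool.BS
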