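import Pool.Agent.Work.MP_972ac7_B.Interface

set_option autoImplicit false

open MeasureTheory
open scoped ENNReal NNReal Topology Pointwise

noncomputable section

namespace Pool.BS

open Pool.PQ Pool.TFD Pool.TC

/-- inversion invariance of a right invariant Haar measure -/
lemma UMD_inv {G : Type} [Group G] [TopologicalSpace G] [IsTopologicalGroup G]
    [LocallyCompactSpace G] [SecondCountableTopology G] [T2Space G] [MeasurableSpace G]
    [BorelSpace G] (μ : Measure G) (h1 : μ.IsHaarMeasure) (h2 : μ.IsMulRightInvariant) :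
    μ.IsInvInvariant := by
  obtain ⟨K, hK, hK1⟩ := exists_compact_mem_nhds (1 : G)
  have hKi : (interior (K ∪ K⁻¹)).Nonempty :=
    ⟨1, interior_mono Set.subset_union_left (mem_interior_iff_mem_nhds.2 hK1)⟩
  let K₀ : TopologicalSpace.PositiveCompacts G :=
    ⟨⟨K ∪ K⁻¹, hK.union hK.inv⟩, hKi⟩
  have hsym : (K₀ : Set G)⁻¹ = K₀ := by
    change (K ∪ K⁻¹)⁻¹ = K ∪ K⁻¹
    rw [Set.union_inv, inv_inv, Set.union_comm]
  have e1 : μ = μ K₀ • Measure.haarMeasure K₀ := Measure.haarMeasure_unique μ K₀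
  have e2 : μ.inv = μ.inv K₀ • Measure.haarMeasure K₀ := Measure.haarMeasure_unique μ.inv K₀
  constructor
  rw [e2, Measure.inv_apply, hsym]
  exact e1.symm

theorem p_UMD (hSEC : Pool.TFD.Stmt_SEC) : Stmt_UMD := by
  intro G _ _ _ _ _ _ _ _ Γ μ K hμ hΓ hK hcov
  obtain ⟨hcount, σ, hσ, hσx⟩ := hSEC G Γ hΓ
  -- the fundamental domain
  set D : Set G := {g | σ ((g⁻¹ : G) : G ⧸ Γ) * g = 1} with hD
  have hmk : Measurable ((↑) : G → G ⧸ Γ) := QuotientGroup.measurable_coe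
  have hDm : MeasurableSet D := by
    have h1 : Measurable fun g : G => σ ((g⁻¹ : G) : G ⧸ Γ) * g :=
      (hσ.comp (hmk.comp measurable_inv)).mul measurable_id
    exact h1 (measurableSet_singleton 1)
  have hmem : ∀ (x : G) (γ : Γ), γ • x ∈ D ↔ σ ((x⁻¹ : G) : G ⧸ Γ) * ((γ : G) * x) = 1 := by
    intro x γ
    have h1 : (((γ • x)⁻¹ : G) : G ⧸ Γ) = ((x⁻¹ : G) : G ⧸ Γ) := by
      rw [QuotientGroup.eq]
      have h2 : γ • x = (γ : G) * x := rfl
      rw [h2, inv_inv, mul_inv_cancel_right]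
      exact γ.2
    show σ (((γ • x)⁻¹ : G) : G ⧸ Γ) * (γ • x) = 1 ↔ _
    rw [h1]
    rfl
  have hex : ∀ x : G, ∃! γ : Γ, γ • x ∈ D := by
    intro x
    have h1 : x * σ ((x⁻¹ : G) : G ⧸ Γ) ∈ Γ := by
      have h2 : ((x⁻¹ : G) : G ⧸ Γ) = (σ ((x⁻¹ : G) : G ⧸ Γ) : G ⧸ Γ) := (hσx _).symm
      have h3 := QuotientGroup.eq.1 h2
      rwa [inv_inv] at h3
    refine ⟨⟨(x * σ ((x⁻¹ : G) : G ⧸ Γ))⁻¹, Γ.inv_mem h1⟩, ?_, ?_⟩
    · simp only
      rw [hmem]
      simp only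
      group
    · intro γ hγ
      rw [hmem] at hγ
      apply Subtype.ext
      have h2 : (γ : G) * x = (σ ((x⁻¹ : G) : G ⧸ Γ))⁻¹ := eq_inv_of_mul_eq_one_right hγ
      simp only
      rw [mul_inv_rev, ← h2, mul_inv_cancel_right]
  have hF : IsFundamentalDomain Γ D μ := IsFundamentalDomain.mk' hDm.nullMeasurableSet hex
  have hFg : ∀ g : G, IsFundamentalDomain Γ ((fun x => x * g) ⁻¹' D) μ := by
    intro g
    refine IsFundamentalDomain.mk' (hDm.preimage (measurable_mul_const g)).nullMeasurableSet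
      fun x => ?_
    obtain ⟨γ, h1, h2⟩ := hex (x * g)
    have h3 : ∀ γ : Γ, γ • x ∈ (fun x => x * g) ⁻¹' D ↔ γ • (x * g) ∈ D := by
      intro γ
      show (γ : G) * x * g ∈ D ↔ (γ : G) * (x * g) ∈ D
      rw [mul_assoc]
    exact ⟨γ, (h3 γ).2 h1, fun γ' hγ' => h2 γ' ((h3 γ').1 hγ')⟩
  have hne : μ ≠ 0 := by
    intro h0
    have h1 := (isOpen_univ (X := G)).measure_pos μ Set.univ_nonempty
    rw [h0] at h1
    simp at h1
  have hD0 : μ D ≠ 0 := hF.measure_ne_zero hne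
  have hDt : μ D ≠ ⊤ := by
    have h1 := hF.measure_eq_tsum (K⁻¹)
    have h2 : D ⊆ ⋃ γ : Γ, (γ • K⁻¹ ∩ D) := by
      intro g hg
      obtain ⟨γ, hγ, hγK⟩ := hcov g⁻¹
      refine Set.mem_iUnion.2 ⟨⟨γ, hγ⟩, ⟨(⟨γ, hγ⟩ : Γ)⁻¹ • g, ?_, ?_⟩, hg⟩
      · rw [Set.mem_inv]
        have h3 : ((⟨γ, hγ⟩ : Γ)⁻¹ • g)⁻¹ = g⁻¹ * γ := by
          show ((γ⁻¹ : G) * g)⁻¹ = g⁻¹ * γ
          rw [mul_inv_rev, inv_inv]
        rw [h3]
        exact hγK
      · simp
    have h3 : μ D ≤ μ K⁻¹ := by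
      rw [h1]
      exact (measure_mono h2).trans (measure_iUnion_le _)
    exact (h3.trans_lt hK.inv.measure_lt_top).ne
  have hright : μ.IsMulRightInvariant := by
    constructor
    intro g
    have h1 : μ ((fun x => x * g) ⁻¹' D) = μ D := (hFg g).measure_eq hF
    have h2 := Measure.map_right_mul_eq_modularCharacterFun_smul μ g
    have h3 : (Measure.map (fun x => x * g) μ) D = μ D := by
      rw [Measure.map_apply (measurable_mul_const g) hDm, h1]
    rw [h2] at h3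
    have h4 : (Measure.modularCharacterFun g : ℝ≥0∞) * μ D = 1 * μ D := by
      rw [one_mul]
      exact h3
    have h5 : (Measure.modularCharacterFun g : ℝ≥0∞) = 1 :=
      (ENNReal.mul_left_inj hD0 hDt).1 h4
    have h6 : Measure.modularCharacterFun g = 1 := by exact_mod_cast h5
    rw [h2, h6, one_smul]
  exact ⟨hright, UMD_inv μ hμ hright⟩

end Pool.BS
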