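import Pool.Agent.Work.MP_972ac7_B.Interface

set_option autoImplicit false

open MeasureTheory
open scoped ENNReal

noncomputable section

namespace Pool.BS

open Pool.PQ Pool.TFD Pool.TC

theorem p_UNI (hQMS : Pool.PQ.Stmt_QMS) (hCPK : Stmt_CPK) (hUMD : Stmt_UMD) : Stmt_UNI := by
  intro G _ _ _ _ _ _ _ _ Γ hΓ hc
  obtain ⟨K, hK, hcov⟩ := hCPK G Γ hc
  obtain ⟨hr, hi⟩ := hUMD G Γ Measure.haar K inferInstance hΓ hK hcov
  obtain ⟨m, c, hqd⟩ := hQMS G Γ Measure.haar K inferInstance hr hi hΓ hK hcov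
  exact ⟨Measure.haar, m, c, hqd, K, hK, hcov⟩

end Pool.BS
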