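import Pool.Agent.Work.MP_972ac7_C.Interface
import Pool.Agent.Work.MP_972ac7_Q.Interface1

set_option autoImplicit false

/-! # THEOREM BS (MP_972ac7_al): the spectral gap of a subgroup lattice gives the gap of the
ambient cocompact lattice with dense commensurator (tracial Burger-Sarnak).  Definitions. -/

open MeasureTheory
open scoped ENNReal

noncomputable section

namespace Pool.BS

open Pool.PQ Pool.TFD Pool.TC

section alg

variable {G : Type} [Group G] {Γ : Subgroup G}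

/-- right invariance under the elements of `N` -/
def RIv (N : Subgroup Γ) (b : G → ℝ) : Prop :=
  ∀ (g : G) (n : Γ), n ∈ N → b (g * (n : G)) = b g

/-- the average over the cosets of `N` in `Γ` -/
def fav (N : Subgroup Γ) (b : G → ℝ) (g : G) : ℝ :=
  (N.index : ℝ)⁻¹ * ∑ᶠ y : Γ ⧸ N, b (g * ((Quotient.out y : Γ) : G))

/-- the mean over `G ⧸ Γ` of a right invariant function -/
def mean [MeasurableSpace G] (m : Measure (G ⧸ Γ)) (b : G → ℝ) : ℝ :=
  ∫ x : G ⧸ Γ, b (Quotient.out x) ∂m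

/-- the mean over `G ⧸ N` of a right `N`-invariant function -/
def av [MeasurableSpace G] (m : Measure (G ⧸ Γ)) (N : Subgroup Γ) (b : G → ℝ) : ℝ :=
  mean m (fav N b)

end alg

section two

variable {G H : Type} [Group G] [Group H]

/-- the elements `y` of `Λ` with `x⁻¹ φ(y) x ∈ Γ` -/
def Nc (Λ : Subgroup H) (φ : H →* G) (Γ : Subgroup G) (x : G) : Subgroup Λ :=
  Γ.comap ((MulAut.conj x⁻¹).toMonoidHom.comp (φ.comp Λ.subtype))

theorem mem_Nc {Λ : Subgroup H} {φ : H →* G} {Γ : Subgroup G} {x : G} {y : Λ} :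
    y ∈ Nc Λ φ Γ x ↔ x⁻¹ * φ y * x ∈ Γ := by
  unfold Nc
  rw [Subgroup.mem_comap]
  simp

/-- the mean of `a` over the orbit of `x Γ` -/
def Ac [MeasurableSpace H] {Λ : Subgroup H} (m' : Measure (H ⧸ Λ)) (φ : H →* G) (Γ : Subgroup G)
    (x : G) (a : G → ℝ) : ℝ :=
  av m' (Nc Λ φ Γ x) (fun h => a (φ h * x))

/-- the Hecke operator -/
def Td (Γ : Subgroup G) (δ : G) (b : G → ℝ) : G → ℝ :=
  fav (Nc Γ (MonoidHom.id G) Γ δ) (fun g => b (g * δ))

end two

section lat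

variable {G : Type} [Group G] [TopologicalSpace G] [MeasurableSpace G]

/-- A discrete subgroup with compact quotient, and its measures. -/
structure LT (Γ : Subgroup G) (μ : Measure G) (m : Measure (G ⧸ Γ)) (c : ℝ≥0∞) : Prop where
  qd : QD Γ μ m c
  cpt : ∃ K : Set G, IsCompact K ∧ ∀ g : G, ∃ γ ∈ Γ, g * γ ∈ K

/-- the local energy -/
def bb {K : Type} [NormedAddCommGroup K] (μ : Measure G) (B : Set G) (F : G → K) (z : G) : ℝ :=
  ∫ h in B, ‖F (h * z) - F z‖ ^ 2 ∂μ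

/-- `f (g γ) = π(γ)⁻¹ f(g)` -/
def Eqv {K : Type} [NormedAddCommGroup K] [InnerProductSpace ℂ K] {Γ : Subgroup G}
    (N : Subgroup Γ) (π : N →* (K ≃ₗᵢ[ℂ] K)) (f : G → K) : Prop :=
  ∀ (g : G) (n : N), π n (f (g * ((n : Γ) : G))) = f g

/-- `f (g γ) = π(γ)⁻¹ f(g)` -/
def Eqw {K : Type} [NormedAddCommGroup K] [InnerProductSpace ℂ K] (Γ : Subgroup G)
    (π : Γ →* (K ≃ₗᵢ[ℂ] K)) (f : G → K) : Prop :=
  ∀ (g : G) (n : Γ), π n (f (g * (n : G))) = f g

/-- The elementary properties of the mean over the compact quotient. -/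
structure MP (Γ : Subgroup G) (m : Measure (G ⧸ Γ)) : Prop where
  cpt : CompactSpace (G ⧸ Γ)
  out : ∀ b : G → ℝ, RIv (⊤ : Subgroup Γ) b → ∀ g : G, b (Quotient.out (g : G ⧸ Γ)) = b g
  cont : ∀ b : G → ℝ, Continuous b → RIv (⊤ : Subgroup Γ) b →
    Continuous fun x : G ⧸ Γ => b (Quotient.out x)
  left : ∀ b : G → ℝ, Continuous b → RIv (⊤ : Subgroup Γ) b → ∀ u : G,
    mean m (fun g => b (u * g)) = mean m b
  lin : ∀ b b' : G → ℝ, Continuous b → RIv (⊤ : Subgroup Γ) b → Continuous b' →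
    RIv (⊤ : Subgroup Γ) b' → ∀ s t : ℝ,
    mean m (fun g => s * b g + t * b' g) = s * mean m b + t * mean m b'
  mono : ∀ b b' : G → ℝ, Continuous b → RIv (⊤ : Subgroup Γ) b → Continuous b' →
    RIv (⊤ : Subgroup Γ) b' → (∀ g, b g ≤ b' g) → mean m b ≤ mean m b'
  const : ∀ t : ℝ, mean m (fun _ => t) = t
  zero : ∀ b : G → ℝ, Continuous b → RIv (⊤ : Subgroup Γ) b → (∀ g, 0 ≤ b g) → mean m b = 0 →
    ∀ g, b g = 0
  pt : ∀ b : G → ℝ, Continuous b → RIv (⊤ : Subgroup Γ) b → ∃ g, b g ≤ mean m b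

/-- The elementary properties of the average over `G ⧸ N`, `N` of finite index in `Γ`. -/
structure AP {Γ : Subgroup G} (m : Measure (G ⧸ Γ)) (N : Subgroup Γ) : Prop where
  left : ∀ b : G → ℝ, Continuous b → RIv N b → ∀ u : G,
    av m N (fun g => b (u * g)) = av m N b
  lin : ∀ b b' : G → ℝ, Continuous b → RIv N b → Continuous b' → RIv N b' → ∀ s t : ℝ,
    av m N (fun g => s * b g + t * b' g) = s * av m N b + t * av m N b'
  mono : ∀ b b' : G → ℝ, Continuous b → RIv N b → Continuous b' → RIv N b' →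
    (∀ g, b g ≤ b' g) → av m N b ≤ av m N b'
  const : ∀ t : ℝ, av m N (fun _ => t) = t
  ref : ∀ N' : Subgroup Γ, N'.FiniteIndex → N' ≤ N → ∀ b : G → ℝ, RIv N b →
    av m N' b = av m N b

end lat

/-- The gap of `Λ` for the representations induced from finite index subgroups. -/
def UGap (Λ : Type) [Group Λ] : Prop := ∃ (Q : Finset Λ) (C : ℝ), 0 ≤ C ∧
  ∀ (K : Type) [NormedAddCommGroup K] [InnerProductSpace ℂ K] [CompleteSpace K] (S : SM K)
    (N : Subgroup Λ), N.FiniteIndex → ∀ (π : N →* (K ≃ₗᵢ[ℂ] K)), (∀ n, S.Mem (opU (π n))) →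
    ∀ k : Λ → K, (∀ (x : Λ) (n : N), π n (k (x * n)) = k x) →
    ∃ w : K, (∀ n, π n w = w) ∧
      ∑ᶠ y : Λ ⧸ N, ‖k (Quotient.out y) - w‖ ^ 2 ≤
        C * ∑ q ∈ Q, ∑ᶠ y : Λ ⧸ N, ‖k (q * Quotient.out y) - k (Quotient.out y)‖ ^ 2

end Pool.BS
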