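import Pool.Agent.Work.MP_972ac7_B.B_ACT
import Pool.Agent.Work.MP_972ac7_B.B_AVP
import Pool.Agent.Work.MP_972ac7_B.B_BBC
import Pool.Agent.Work.MP_972ac7_B.B_CIR
import Pool.Agent.Work.MP_972ac7_B.B_CMM
import Pool.Agent.Work.MP_972ac7_B.B_CPK
import Pool.Agent.Work.MP_972ac7_B.B_CPT
import Pool.Agent.Work.MP_972ac7_B.B_EQ
import Pool.Agent.Work.MP_972ac7_B.B_FAV
import Pool.Agent.Work.MP_972ac7_B.B_FVC
import Pool.Agent.Work.MP_972ac7_B.B_HEC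
import Pool.Agent.Work.MP_972ac7_B.B_HGA
import Pool.Agent.Work.MP_972ac7_B.B_HGB
import Pool.Agent.Work.MP_972ac7_B.B_HGP
import Pool.Agent.Work.MP_972ac7_B.B_ISM
import Pool.Agent.Work.MP_972ac7_B.B_MAU
import Pool.Agent.Work.MP_972ac7_B.B_MEN
import Pool.Agent.Work.MP_972ac7_B.B_PSI
import Pool.Agent.Work.MP_972ac7_B.B_SCK
import Pool.Agent.Work.MP_972ac7_B.B_SMA
import Pool.Agent.Work.MP_972ac7_B.B_SMG
import Pool.Agent.Work.MP_972ac7_B.B_STA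
import Pool.Agent.Work.MP_972ac7_B.B_TIN
import Pool.Agent.Work.MP_972ac7_B.B_UCT
import Pool.Agent.Work.MP_972ac7_B.B_UG
import Pool.Agent.Work.MP_972ac7_B.B_UMD
import Pool.Agent.Work.MP_972ac7_B.B_UNI
import Pool.Agent.Work.MP_972ac7_C.Gap
import Pool.Agent.Work.MP_972ac7_Q.Final

set_option autoImplicit false

/-! # THEOREM BS (MP_972ac7_al): the assembly -/

open MeasureTheory NumberField IsDedekindDomain
open scoped ENNReal Quaternion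

noncomputable section

namespace Pool.BS

open Pool.PQ Pool.TFD Pool.TC

theorem t_CMM : Stmt_CMM := p_CMM
theorem t_FAV : Stmt_FAV := p_FAV
theorem t_HEC : Stmt_HEC := p_HEC t_CMM t_FAV
theorem t_MEN : Stmt_MEN := p_MEN
theorem t_AVP : Stmt_AVP := p_AVP t_MEN t_FAV
theorem t_ACT : Stmt_ACT := p_ACT t_CMM t_FAV t_HEC t_AVP
theorem t_BBC : Stmt_BBC := p_BBC
theorem t_CIR : Stmt_CIR := p_CIR
theorem t_CPK : Stmt_CPK := p_CPK
theorem t_CPT : Stmt_CPT := p_CPT t_MEN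
theorem t_PSI : Stmt_PSI := p_PSI
theorem t_TIN : Stmt_TIN := p_TIN t_MEN t_PSI t_CMM t_HEC
theorem t_UCT : Stmt_UCT := p_UCT
theorem t_EQ : Stmt_EQ := p_EQ t_MEN t_AVP t_CMM t_HEC t_ACT t_TIN t_UCT t_CPT
theorem t_FVC : Stmt_FVC := p_FVC t_PSI
theorem t_HGA : Stmt_HGA := p_HGA
theorem t_HGB : Stmt_HGB := p_HGB t_HGA t_BBC t_FAV
theorem t_HGP : Stmt_HGP := p_HGP t_HGB t_BBC t_MEN t_FAV t_AVP
theorem t_ISM : Stmt_ISM := p_ISM t_MEN
theorem t_MAU : Stmt_MAU := p_MAU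
theorem t_SCK : Stmt_SCK := p_SCK p_SEC
theorem t_SMA : Stmt_SMA := p_SMA p_TP
theorem t_STA : Stmt_STA := p_STA t_CMM t_HGP t_EQ t_MEN t_AVP
theorem t_SMG : Stmt_SMG := p_SMG t_FVC t_STA t_SCK t_ISM t_CIR t_MAU t_MEN p_COC (p_REPK p_COC) (p_MCK p_COC) p_SCN p_SPX allC_FIXK
theorem t_UG : Stmt_UG := p_UG t_SMA
theorem t_UMD : Stmt_UMD := p_UMD p_SEC
theorem t_UNI : Stmt_UNI := p_UNI p_QMS t_CPK t_UMD

/-- `FTGap` and `TracialGap` are the same. -/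
theorem ftGap_of_tracialGap (Λ : Type) [Group Λ] (h : TracialGap Λ) : FTGap Λ := by
  obtain ⟨Q, ε, hε, h⟩ := h
  refine ⟨Q, ε, hε, ?_⟩
  intro K _ _ _ M ι ξ π hπ hsum htr hfa v hv
  exact h K M ι ξ π ⟨hsum, htr, hfa⟩ hπ v hv

/-- THEOREM BS. -/
theorem theoremBS (G H : Type)
    [Group G] [TopologicalSpace G] [IsTopologicalGroup G] [LocallyCompactSpace G]
    [SecondCountableTopology G] [T2Space G]
    [Group H] [TopologicalSpace H] [IsTopologicalGroup H] [LocallyCompactSpace H]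
    [SecondCountableTopology H] [T2Space H]
    (Γ : Subgroup G) [DiscreteTopology Γ] [CompactSpace (G ⧸ Γ)]
    (hd : Dense (Subgroup.Commensurable.commensurator Γ : Set G))
    (Λ : Subgroup H) [DiscreteTopology Λ] [CompactSpace (H ⧸ Λ)]
    (φ : H →* G) (hφ : Continuous φ) (hφΛ : ∀ y ∈ Λ, φ y ∈ Γ) (C : Set G) (hC : IsCompact C)
    (hgen : ∀ g : G, ∃ x ∈ C, ∃ u ∈ closure ((Subgroup.closure {u : G | ∃ h : H,
      Filter.Tendsto (fun n : ℕ => φ h ^ n * u * (φ h ^ n)⁻¹) Filter.atTop (nhds 1)} :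
        Subgroup G) : Set G), g = x * u)
    (hΛ : TracialGap Λ) (Δ : Type) [Group Δ] (B : Subgroup Γ) (hB : B.FiniteIndex)
    (f : B →* Δ) (hf : f.range.FiniteIndex) : TracialGap Δ ∧ PropTau Δ := by
  let _ : MeasurableSpace G := borel G
  have : BorelSpace G := ⟨rfl⟩
  let _ : MeasurableSpace H := borel H
  have : BorelSpace H := ⟨rfl⟩
  obtain ⟨μ, m, c, h1⟩ := t_UNI G Γ inferInstance inferInstance
  obtain ⟨μ', m', c', h2⟩ := t_UNI H Λ inferInstance inferInstance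
  have hs : SMGap Γ := by
    refine t_SMG G H Γ μ m c Λ μ' m' c' φ h1 h2 hφ hφΛ hd
      (t_UG Λ (ftGap_of_tracialGap Λ hΛ)) C hC ?_
    have h3 : {u : G | ∃ p ∈ Set.range φ, Filter.Tendsto
        (fun n : ℕ => p ^ n * u * (p ^ n)⁻¹) Filter.atTop (nhds 1)} = {u : G | ∃ h : H,
        Filter.Tendsto (fun n : ℕ => φ h ^ n * u * (φ h ^ n)⁻¹) Filter.atTop (nhds 1)} := by
      ext u
      simp
    rw [h3]
    exact hgen
  have : Countable Γ := h1.qd.cnt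
  have h := allC_comm Γ Δ B hB f hf (allC_VNG Γ hs)
  exact ⟨tracialGap_of_FTGap Δ h, p_TAU Δ (p_FTF Δ h)⟩

end Pool.BS
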