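import Pool.Agent.Work.MP_972ac7_B.Defs

set_option autoImplicit false

/-! # THEOREM BS (MP_972ac7_al), helper6: statements of the blocks.

Files `B_X.lean` (import this file), namespace `Pool.BS`,
`theorem p_X (h1 : Stmt_Y) ... : Stmt_X` with the blocks used in the order of `uses`.  Helper lemmas
prefixed `X_`.  The docstrings contain the proofs.

The theorem.  `Γ` is discrete and cocompact in `G` with dense commensurator, `Λ` is discrete and
cocompact in `H`, `φ : H → G` is continuous with `φ(Λ) ⊆ Γ`, `Λ` has the gap for all representations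
in finite von Neumann algebras, and up to a compact set `G` is topologically generated by the elements
contracted by elements of `φ(H)`.  Then `Γ` has that gap.

The proof.  A representation `π` of `Γ`, an almost invariant `v ⊥` invariants, the section
`f(g) = ∑_γ ψ(g γ) π(γ) v`.  On every closed orbit `φ(H) x Γ`, `x` in the commensurator, `f` is an
equivariant function for a finite index subgroup of `Λ`, and the gap of `Λ` bounds (HGP) the mean of
`‖f(φ(h₀) g) - f(g)‖²` over the orbit by the mean of the local energy, with a constant which does not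
depend on the orbit.  By the Hecke operators (EQ, the argument of Burger and Sarnak) the same bound
holds for the mean over `G/Γ` (STA).  So `f` is close to a `φ(H)`-invariant section (CIR), which is
invariant under the contracted elements (MAU), so `f` is close to a `G`-invariant section (CIR), which
is a constant `w` with `π(γ) w = w` (FIXK); but `f` is close to `v`. -/

open MeasureTheory
open scoped ENNReal

noncomputable section

namespace Pool.BS

open Pool.PQ Pool.TFD Pool.TC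

/-! ## Part A: lattices and means -/

/-- **CPK** (150), uses nothing.  `mk : G → G ⧸ Γ` is open and continuous, `G` is locally compact: the images of the interiors of
compact neighbourhoods cover the compact space `G ⧸ Γ`; `K` = a finite union of compact neighbourhoods. -/
def Stmt_CPK : Prop :=
  ∀ (G : Type) [Group G] [TopologicalSpace G] [IsTopologicalGroup G] [LocallyCompactSpace G]
    (Γ : Subgroup G), CompactSpace (G ⧸ Γ) →
    ∃ K : Set G, IsCompact K ∧ ∀ g : G, ∃ γ ∈ Γ, g * γ ∈ K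

/-- **UMD** (300), uses SEC.  (`Pool.TFD.Stmt_SEC`: countable, measurable section `σ`.)  `D = {g | σ (g⁻¹ Γ) = g⁻¹}` is a measurable
fundamental domain (`IsFundamentalDomain Γ D μ`) for the left multiplication by `Γ`, and so is `D g` for every `g`; so `μ (D g) = μ D`
(`IsFundamentalDomain.measure_eq`), `0 < μ D` (its countably many translates cover `G`), `μ D ≤ μ (K⁻¹) < ∞` (the translates `γ K⁻¹`
cover `G`: `μ D ≤ ∑_γ μ (D ∩ γ K⁻¹) = ∑_γ μ (γ⁻¹ D ∩ K⁻¹) ≤ μ K⁻¹`).  `(fun x => x * g)` maps `μ` to a multiple of `μ` (uniqueness of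
Haar measures, `Measure.isMulLeftInvariant_eq_smul` or the modular character), so the multiple is `1`: right invariant.  Then `μ.inv`
is left invariant, `μ.inv = k μ`, `k² = 1`, `k = 1` (see `Pool/Agent/Work/MP_972ac7_Q/B_UN2.lean`). -/
def Stmt_UMD : Prop :=
  ∀ (G : Type) [Group G] [TopologicalSpace G] [IsTopologicalGroup G] [LocallyCompactSpace G]
    [SecondCountableTopology G] [T2Space G] [MeasurableSpace G] [BorelSpace G]
    (Γ : Subgroup G) (μ : Measure G) (K : Set G), μ.IsHaarMeasure → DiscreteTopology Γ →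
    IsCompact K → (∀ g : G, ∃ γ ∈ Γ, g * γ ∈ K) → μ.IsMulRightInvariant ∧ μ.IsInvInvariant

/-- **UNI** (80), uses QMS CPK UMD.  (`Pool.PQ.Stmt_QMS`.)  `μ` = the Haar measure of `G`. -/
def Stmt_UNI : Prop :=
  ∀ (G : Type) [Group G] [TopologicalSpace G] [IsTopologicalGroup G] [LocallyCompactSpace G]
    [SecondCountableTopology G] [T2Space G] [MeasurableSpace G] [BorelSpace G]
    (Γ : Subgroup G), DiscreteTopology Γ → CompactSpace (G ⧸ Γ) →
    ∃ (μ : Measure G) (m : Measure (G ⧸ Γ)) (c : ℝ≥0∞), LT Γ μ m c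

/-- **MEN** (300), uses nothing.  `G ⧸ Γ` is the image of the compact `K`.  `b (Quotient.out x)` is the function on `G ⧸ Γ` with
`b (out (g Γ)) = b g` (`QuotientGroup.mk_out_eq_mul`), continuous (`continuous_quot_mk`, quotient map), so bounded and integrable for
the probability measure `m` (`G ⧸ Γ` is a Borel space: `Pool.PQ.DMC_borel` in `B_DMC.lean` of MP_972ac7_Q, or measurability by the
quotient sigma-algebra).  `left`: `QD.pres`.  `zero`: every nonempty open set `V` of `G ⧸ Γ` has positive measure: finitely many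
translates of `V` cover the compact `G ⧸ Γ` (`x` and `V` fixed, the translates of `V` by `G` cover); or Weil's formula for the indicator
of the preimage.  `pt`: otherwise `∫ (b - mean) > 0` for a continuous positive function on a compact space. -/
def Stmt_MEN : Prop :=
  ∀ (G : Type) [Group G] [TopologicalSpace G] [IsTopologicalGroup G] [LocallyCompactSpace G]
    [SecondCountableTopology G] [T2Space G] [MeasurableSpace G] [BorelSpace G]
    (Γ : Subgroup G) (μ : Measure G) (m : Measure (G ⧸ Γ)) (c : ℝ≥0∞), LT Γ μ m c → MP Γ m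

/-- **FAV** (300), uses nothing.  Algebra of `fav` (`finsum_eq_sum_of_fintype`).  For `RIv N b` the value `b (g * y)` depends only on the
coset `y N` of `y ∈ Γ`.  (1) `∑ over y of b (g x out y) = ∑ over y of b (g out (x y))` (left multiplication by `x ∈ Γ` permutes `Γ ⧸ N`).
(2) the map `Γ ⧸ N' → Γ ⧸ N` has fibres of `N'.relIndex N` elements, `N'.index = N'.relIndex N * N.index`.  (3) all terms are `b g`.
(4), (5) clear.  (6) a finite sum of continuous functions. -/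
def Stmt_FAV : Prop :=
  ∀ (G : Type) [Group G] [TopologicalSpace G] [IsTopologicalGroup G] (Γ : Subgroup G)
    (N : Subgroup Γ), N.FiniteIndex →
    (∀ b : G → ℝ, RIv N b → RIv (⊤ : Subgroup Γ) (fav N b)) ∧
    (∀ b : G → ℝ, RIv N b → ∀ N' : Subgroup Γ, N'.FiniteIndex → N' ≤ N →
      fav N' b = fav N b) ∧
    (∀ b : G → ℝ, RIv (⊤ : Subgroup Γ) b → fav N b = b) ∧
    (∀ b b' : G → ℝ, (∀ g, b g ≤ b' g) → ∀ g, fav N b g ≤ fav N b' g) ∧
    (∀ (b b' : G → ℝ) (s t : ℝ) (g : G),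
      fav N (fun z => s * b z + t * b' z) g = s * fav N b g + t * fav N b' g) ∧
    (∀ b : G → ℝ, Continuous b → Continuous (fav N b))

/-- **AVP** (150), uses MEN FAV.  `av m N b = mean m (fav N b)` and `fav N b` is continuous and `Γ`-invariant; `fav N (b (u ·)) g =
fav N b (u g)` by associativity. -/
def Stmt_AVP : Prop :=
  ∀ (G : Type) [Group G] [TopologicalSpace G] [IsTopologicalGroup G] [LocallyCompactSpace G]
    [SecondCountableTopology G] [T2Space G] [MeasurableSpace G] [BorelSpace G]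
    (Γ : Subgroup G) (μ : Measure G) (m : Measure (G ⧸ Γ)) (c : ℝ≥0∞), LT Γ μ m c →
    ∀ N : Subgroup Γ, N.FiniteIndex → AP m N

/-- **PSI** (250), uses nothing.  `ψ₀ : G → ℝ` continuous with compact support, `ψ₀ ≥ 0`, `ψ₀ = 1` on `K`
(`exists_continuous_one_of_compact_subset_open` or the like); for compact `D` only finitely many `γ ∈ Γ` meet `D⁻¹ (supp ψ₀)` (a discrete
subgroup is closed, its intersection with a compact set is finite); `Ψ(g) = ∑_γ ψ₀(g γ) ≥ 1` is continuous (locally finite), invariant;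
`ψ = ψ₀ / Ψ`. -/
def Stmt_PSI : Prop :=
  ∀ (G : Type) [Group G] [TopologicalSpace G] [IsTopologicalGroup G] [LocallyCompactSpace G]
    [SecondCountableTopology G] [T2Space G] (Γ : Subgroup G) (K : Set G),
    DiscreteTopology Γ → IsCompact K → (∀ g : G, ∃ γ ∈ Γ, g * γ ∈ K) →
    ∃ ψ : G → ℝ, Continuous ψ ∧ (∀ g, 0 ≤ ψ g) ∧
      (∀ D : Set G, IsCompact D → {γ : Γ | ∃ g ∈ D, ψ (g * γ) ≠ 0}.Finite) ∧
      ∀ g, ∑ᶠ γ : Γ, ψ (g * γ) = 1

/-- **FVC** (250), uses PSI.  `f(g) = ∑ᶠ γ, ψ(g γ) • π(γ) v`: locally a finite sum, so continuous; `f(g n) = ∑ ψ(g n γ) π(γ) v =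
∑ ψ(g γ') π(n⁻¹ γ') v = π(n)⁻¹ f(g)`.  `Q` = the `γ` with `ψ(g γ) ≠ 0` for some `g ∈ D`; for `g ∈ D`: `f(g) - v = ∑ ψ(g γ) (π(γ) v - v)`. -/
def Stmt_FVC : Prop :=
  ∀ (G : Type) [Group G] [TopologicalSpace G] [IsTopologicalGroup G] [LocallyCompactSpace G]
    [SecondCountableTopology G] [T2Space G] (Γ : Subgroup G) (K : Set G),
    DiscreteTopology Γ → IsCompact K → (∀ g : G, ∃ γ ∈ Γ, g * γ ∈ K) →
    ∀ D : Set G, IsCompact D → ∃ Q : Finset Γ,
    ∀ (E : Type) [NormedAddCommGroup E] [InnerProductSpace ℂ E] (π : Γ →* (E ≃ₗᵢ[ℂ] E)) (v : E),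
    ∃ f : G → E, Continuous f ∧ Eqw Γ π f ∧
      ∀ ε : ℝ, (∀ q ∈ Q, ‖π q v - v‖ ≤ ε) → ∀ g ∈ D, ‖f g - v‖ ≤ ε

/-! ## Part B: the gap of `Λ` for the equivariant functions on `H` -/

/-- **SMA** (200), uses TP.  (`Pool.TC.Stmt_TP`.)  `M` = the commutant of `S.R` (`StarSubalgebra.centralizer`, as `SBF_M` in `B_SBF.lean` of
MP_972ac7_C).  Polarization of `‖x ξ‖ = ‖x* ξ‖` for `x` in the complex algebra `M`: `⟪x ξ, y ξ⟫ = ⟪y* ξ, x* ξ⟫`; with `x = T*`, `y = T'`: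
`⟪ξ, T T' ξ⟫ = ⟪T* ξ, T' ξ⟫ = ⟪T'* ξ, T ξ⟫ = ⟪ξ, T' T ξ⟫`.  Faithful: `T r ξ = r T ξ = 0`, density. -/
def Stmt_SMA : Prop :=
  ∀ (K : Type) [NormedAddCommGroup K] [InnerProductSpace ℂ K] [CompleteSpace K] (S : SM K),
    ∃ M : VonNeumannAlgebra K, (∀ T : K →L[ℂ] K, T ∈ M ↔ S.Mem T) ∧
      (∀ T ∈ M, ∀ T' ∈ M, (inner ℂ S.ξ (T (T' S.ξ)) : ℂ) = inner ℂ S.ξ (T' (T S.ξ))) ∧
      ∀ T ∈ M, T S.ξ = 0 → T = 0

/-- **UG** (400), uses SMA.  Copy the first half of `p_SBF` (`B_SBF.lean` of MP_972ac7_C, which can be imported; `indRep`, `cc` from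
`MP_972ac7_gen/Comm.lean`) with `M` from SMA, `ι = Unit`: the induced representation `U` on `PiLp 2 (Λ ⧸ N → K)` has values in `SBF_M M`
with the faithful trace of the vectors `sl y ξ`, so `FTGap Λ` gives `Q`, `ε` with `ε ‖f‖ ≤ ‖U q f - f‖` for some `q ∈ Q` if `f ⊥` the
invariant vectors.  For every `f`, with `P` the projection on the (closed subspace of the) invariant vectors: `ε² ‖f - P f‖² ≤
∑_q ‖U q f - f‖²`.  The equivariant function `k` gives `f(y) = k (out y)` and `(U λ f)(y) = k (λ⁻¹ out y)` (check with `indRep_apply`);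
an invariant `f` corresponds to `k` constant `= w` with `π(n) w = w`.  Take the set `Q⁻¹` and `C = 1 / ε²`. -/
def Stmt_UG : Prop := ∀ (Λ : Type) [Group Λ], FTGap Λ → UGap Λ

/-- **BBC** (150), uses nothing.  `bb` is continuous (`continuous_parametric_integral_of_continuous`, `B` compact), and right
`N`-invariant for an equivariant `F`, because `F(h z n) - F(z n) = π(n)⁻¹ (F(h z) - F(z))`. -/
def Stmt_BBC : Prop :=
  ∀ (H : Type) [Group H] [TopologicalSpace H] [IsTopologicalGroup H] [LocallyCompactSpace H]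
    [SecondCountableTopology H] [T2Space H] [MeasurableSpace H] [BorelSpace H]
    (μ : Measure H) (B : Set H), μ.IsHaarMeasure → IsCompact B →
    ∀ (K : Type) [NormedAddCommGroup K] [InnerProductSpace ℂ K] (F : H → K), Continuous F →
    Continuous (bb μ B F) ∧ (∀ z, 0 ≤ bb μ B F z) ∧
    ∀ (Λ : Subgroup H) (N : Subgroup Λ) (π : N →* (K ≃ₗᵢ[ℂ] K)), Eqv N π F → RIv N (bb μ B F)

/-- **HGA** (200), uses nothing.  The two step trick.  `A` = a compact neighbourhood of `1`, `B = A ∪ A K₁` (compact), `C = 2 / μ(A)`.  For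
`h ∈ A`: `‖F(u z) - F(z)‖² ≤ 2 ‖F(h u z) - F(u z)‖² + 2 ‖F(h u z) - F(z)‖²`; integrate over `h ∈ A`; the first integral is at most
`bb μ B F (u z)`, the second is (right invariance) `∫_{A u} ‖F(h z) - F(z)‖² ≤ bb μ B F z` since `A u ⊆ B`. -/
def Stmt_HGA : Prop :=
  ∀ (H : Type) [Group H] [TopologicalSpace H] [IsTopologicalGroup H] [LocallyCompactSpace H]
    [SecondCountableTopology H] [T2Space H] [MeasurableSpace H] [BorelSpace H]
    (μ : Measure H) (K₁ : Set H), μ.IsHaarMeasure → μ.IsMulRightInvariant → IsCompact K₁ →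
    ∃ (B : Set H) (C : ℝ), IsCompact B ∧ 0 ≤ C ∧ ∀ (K : Type) [NormedAddCommGroup K]
      (F : H → K), Continuous F → ∀ u ∈ K₁, ∀ z : H,
      ‖F (u * z) - F z‖ ^ 2 ≤ C * (bb μ B F (u * z) + bb μ B F z)

/-- **HGB** (350), uses HGA BBC FAV.  `D` compact with `D Λ = H`, `Q`, `C₀` from `UGap Λ`, `K₁ = D Q D⁻¹ ∪ D D⁻¹`, `B`, `C₁` from HGA,
`b = bb μ B F`.  For `h ∈ D` apply `UGap` to `k(λ) = F(h λ)`: `w h` with `∑_y ‖F(h out y) - w h‖² ≤ C₀ ∑_q ∑_y ‖F(h q out y) - F(h out y)‖²`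
and `h q out y = u z` with `z = h out y`, `u = h q h⁻¹ ∈ K₁`: at most `C₀ C₁ ∑_q ∑_y (b(h q out y) + b(h out y)) = 2 C₀ C₁ |Q| ∑_y b(h out y)`
(FAV (1)).  For `h, h' ∈ D`, `u = h h'⁻¹ ∈ K₁`: `‖w h - w h'‖² ≤ 3 (‖w h - F(h out y)‖² + ‖F(h out y) - F(h' out y)‖² +
‖F(h' out y) - w h'‖²)`, average over `y ∈ Λ ⧸ N`.  For a general `h` put `w h = w (h λ)` with `h λ ∈ D` (`fav N` of an `N`-invariant
function is `Λ`-invariant). -/
def Stmt_HGB : Prop :=
  ∀ (H : Type) [Group H] [TopologicalSpace H] [IsTopologicalGroup H] [LocallyCompactSpace H]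
    [SecondCountableTopology H] [T2Space H] [MeasurableSpace H] [BorelSpace H]
    (Λ : Subgroup H) (μ : Measure H) (m : Measure (H ⧸ Λ)) (c : ℝ≥0∞), LT Λ μ m c → UGap Λ →
    ∃ (B : Set H) (C : ℝ), IsCompact B ∧ 0 ≤ C ∧
    ∀ (K : Type) [NormedAddCommGroup K] [InnerProductSpace ℂ K] [CompleteSpace K] (S : SM K)
      (N : Subgroup Λ), N.FiniteIndex → ∀ (π : N →* (K ≃ₗᵢ[ℂ] K)), (∀ n, S.Mem (opU (π n))) →
      ∀ F : H → K, Continuous F → Eqv N π F →
      ∃ w : H → K, (∀ h n, π n (w h) = w h) ∧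
        (∀ h, fav N (fun z => ‖F z - w h‖ ^ 2) h ≤ C * fav N (bb μ B F) h) ∧
        ∀ h h', ‖w h - w h'‖ ^ 2 ≤ C * (fav N (bb μ B F) h + fav N (bb μ B F) h')

/-- **HGP** (250), uses HGB BBC MEN FAV AVP.  `b = bb μ B F`; `h'` with `fav N b h' ≤ mean m (fav N b) = av m N b` (`MP.pt`), `w = w h'`
(fixed by `N`, so `‖F - w‖²` is `N`-invariant).  For all `h`: `fav N ‖F - w‖² (h) ≤ 2 fav N ‖F - w h‖² (h) + 2 ‖w h - w‖² ≤
4 C fav N b h + 2 C av m N b`; take the mean: `av ‖F - w‖² ≤ 6 C av b`.  `‖F(h₀ h) - F(h)‖² ≤ 2 ‖F(h₀ h) - w‖² + 2 ‖F(h) - w‖²` and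
left invariance: at most `24 C av b`. -/
def Stmt_HGP : Prop :=
  ∀ (H : Type) [Group H] [TopologicalSpace H] [IsTopologicalGroup H] [LocallyCompactSpace H]
    [SecondCountableTopology H] [T2Space H] [MeasurableSpace H] [BorelSpace H]
    (Λ : Subgroup H) (μ : Measure H) (m : Measure (H ⧸ Λ)) (c : ℝ≥0∞), LT Λ μ m c → UGap Λ →
    ∃ (B : Set H) (C : ℝ), IsCompact B ∧ 0 ≤ C ∧
    ∀ (K : Type) [NormedAddCommGroup K] [InnerProductSpace ℂ K] [CompleteSpace K] (S : SM K)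
      (N : Subgroup Λ), N.FiniteIndex → ∀ (π : N →* (K ≃ₗᵢ[ℂ] K)), (∀ n, S.Mem (opU (π n))) →
      ∀ F : H → K, Continuous F → Eqv N π F → ∀ h₀ : H,
      av m N (fun h => ‖F (h₀ * h) - F h‖ ^ 2) ≤ C * av m N (bb μ B F)

/-! ## Part C: Hecke operators -/

/-- **CMM** (200), uses nothing.  `Γ ≤ commensurator`: `γ Γ γ⁻¹ = Γ`.  For `x` in the commensurator `Γ ∩ x Γ x⁻¹` has finite index in `Γ`, and
`Nc Λ φ Γ x` is the preimage of it under `Λ → Γ` (`mem_Nc`).  (3): `φ(h n) x = φ(h) x (x⁻¹ φ(n) x)`. -/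
def Stmt_CMM : Prop :=
  ∀ (G H : Type) [Group G] [Group H] (Γ : Subgroup G) (Λ : Subgroup H) (φ : H →* G),
    (∀ y ∈ Λ, φ y ∈ Γ) →
    (Γ ≤ Subgroup.Commensurable.commensurator Γ) ∧
    (∀ x ∈ Subgroup.Commensurable.commensurator Γ, (Nc Λ φ Γ x).FiniteIndex) ∧
    ∀ (x : G) (a : G → ℝ), RIv (⊤ : Subgroup Γ) a → RIv (Nc Λ φ Γ x) (fun h => a (φ h * x))

/-- **HEC** (300), uses CMM FAV.  `Td Γ δ b (g) = (1 / J) ∑_y b(g out(y) δ)` over `y ∈ Γ ⧸ N`, `N = Nc Γ id Γ δ = Γ ∩ δ Γ δ⁻¹`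
(`CMM` with `Λ = Γ`, `φ = id`).  (5) is the inequality of Cauchy-Schwarz (variance `≥ 0`); in (6) the variance is zero, so all the terms are
equal to the average, also the term of the class of `1`, where `out ∈ N`, `b(g n δ) = b(g δ (δ⁻¹ n δ)) = b(g δ)`. -/
def Stmt_HEC : Prop :=
  ∀ (G : Type) [Group G] [TopologicalSpace G] [IsTopologicalGroup G] (Γ : Subgroup G) (δ : G),
    δ ∈ Subgroup.Commensurable.commensurator Γ → ∀ b : G → ℝ, Continuous b →
    RIv (⊤ : Subgroup Γ) b →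
    Continuous (Td Γ δ b) ∧ RIv (⊤ : Subgroup Γ) (Td Γ δ b) ∧
    (∀ M : ℝ, (∀ g, |b g| ≤ M) → ∀ g, |Td Γ δ b g| ≤ M) ∧
    (∀ u : G, ∀ s : ℝ, (∀ g, |b (u * g) - b g| ≤ s) → ∀ g, |Td Γ δ b (u * g) - Td Γ δ b g| ≤ s) ∧
    (∀ g, (Td Γ δ b g) ^ 2 ≤ Td Γ δ (fun z => b z ^ 2) g) ∧
    ∀ g, Td Γ δ (fun z => b z ^ 2) g = (Td Γ δ b g) ^ 2 → b (g * δ) = Td Γ δ b g

/-- **ACT** (300), uses CMM FAV HEC AVP.  `(Td b)(φ(h) x) = (1 / J) ∑_y b_y(h)`, `b_y(h) = b(φ(h) x γ_y δ)`, `γ_y = out y`; `b_y` is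
invariant under `N_y = Nc Λ φ Γ (x γ_y δ)` and `x γ_y δ` is in the commensurator.  With `N' = Nc Λ φ Γ x ∩ ⋂_y N_y` (finite index), by
`AP.ref`: `Ac x (Td b) = av m' N' (..) = (1 / J) ∑_y av m' N' b_y = (1 / J) ∑_y Ac (x γ_y δ) b ≤ 0`. -/
def Stmt_ACT : Prop :=
  ∀ (G H : Type) [Group G] [TopologicalSpace G] [IsTopologicalGroup G]
    [Group H] [TopologicalSpace H] [IsTopologicalGroup H] [LocallyCompactSpace H]
    [SecondCountableTopology H] [T2Space H] [MeasurableSpace H] [BorelSpace H]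
    (Γ : Subgroup G) (Λ : Subgroup H) (μ' : Measure H) (m' : Measure (H ⧸ Λ)) (c' : ℝ≥0∞)
    (φ : H →* G), LT Λ μ' m' c' → Continuous φ → (∀ y ∈ Λ, φ y ∈ Γ) →
    ∀ b : G → ℝ, Continuous b → RIv (⊤ : Subgroup Γ) b →
    (∀ x ∈ Subgroup.Commensurable.commensurator Γ, Ac m' φ Γ x b ≤ 0) →
    ∀ δ ∈ Subgroup.Commensurable.commensurator Γ,
    ∀ x ∈ Subgroup.Commensurable.commensurator Γ, Ac m' φ Γ x (Td Γ δ b) ≤ 0

/-- **TIN** (350), uses MEN PSI CMM HEC.  We may assume `b ≥ 0` (add a constant: `MP.lin`, `b` is bounded; `Td` of a constant is the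
constant).  `N = Nc Γ id Γ δ`, `N' = Nc Γ id Γ δ⁻¹`, `J`, `J'` their indices.  For an invariant continuous `b ≥ 0` and `ψ` from PSI, Weil's
formula for `ψ b` is `∫_G ψ b dμ = c mean b` (in `ℝ≥0∞`).  So `J c mean (Td b) = ∑_y ∫ ψ(g) b(g y δ) dμ(g) =
∑_y ∫ ψ(g δ⁻¹ y⁻¹) b(g) dμ(g)` (right invariance) `= c ∫_{G/Γ} b(g) ∑_γ ∑_y ψ(g γ δ⁻¹ y⁻¹)` (Weil).  The map `(γ, y) ↦ γ δ⁻¹ (out y)⁻¹`
is a bijection of `Γ × (Γ ⧸ N)` with the set `Γ δ⁻¹ Γ`, and `(z, γ) ↦ (out z) δ⁻¹ γ` is a bijection of `(Γ ⧸ N') × Γ` with the same set, so the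
double sum is `∑_z ∑_γ ψ(g (out z) δ⁻¹ γ) = J'`.  So `J mean (Td b) = J' mean b`; for `b = 1` this is `J = J'`. -/
def Stmt_TIN : Prop :=
  ∀ (G : Type) [Group G] [TopologicalSpace G] [IsTopologicalGroup G] [LocallyCompactSpace G]
    [SecondCountableTopology G] [T2Space G] [MeasurableSpace G] [BorelSpace G]
    (Γ : Subgroup G) (μ : Measure G) (m : Measure (G ⧸ Γ)) (c : ℝ≥0∞), LT Γ μ m c →
    ∀ δ ∈ Subgroup.Commensurable.commensurator Γ, ∀ b : G → ℝ, Continuous b →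
    RIv (⊤ : Subgroup Γ) b → mean m (Td Γ δ b) = mean m b

/-- **UCT** (200), uses nothing.  `a` is bounded (a continuous function on the compact `G ⧸ Γ`).  `ω(u) = ⨆ g, |a(u g) - a(g)|`.  For `ε > 0` every
`x = g Γ` has neighbourhoods `V_x` of `x` and `W_x` of `1` with `|a(u g') - a(g')| ≤ ε` for `u ∈ W_x`, `g' Γ ∈ V_x` (continuity of `(u, x) ↦ a(u x)` on
`G × (G ⧸ Γ)` at `(1, x)`); compactness (`generalized_tube_lemma` or a finite subcover). -/
def Stmt_UCT : Prop :=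
  ∀ (G : Type) [Group G] [TopologicalSpace G] [IsTopologicalGroup G] (Γ : Subgroup G),
    CompactSpace (G ⧸ Γ) → ∀ a : G → ℝ, Continuous a → RIv (⊤ : Subgroup Γ) a →
    ∃ (M : ℝ) (ω : G → ℝ), (∀ g, |a g| ≤ M) ∧ Filter.Tendsto ω (nhds 1) (nhds 0) ∧
      ∀ u g, |a (u * g) - a g| ≤ ω u

/-- **CPT** (350), uses MEN.  The functions of `S` are continuous; they correspond to a set of bounded continuous functions on the compact
space `G ⧸ Γ` (`BoundedContinuousFunction`), with values in `[-M, M]`, equicontinuous (a neighbourhood of `x = g Γ` is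
`{u x | u ∈ W}`, the map `u ↦ u • x` is open), closed in the sup norm.  By `BoundedContinuousFunction.arzela_ascoli₂` (or `arzela_ascoli`)
it is compact, and `b ↦ ∫ b² dm` is continuous, so it has a minimum (`IsCompact.exists_isMinOn`). -/
def Stmt_CPT : Prop :=
  ∀ (G : Type) [Group G] [TopologicalSpace G] [IsTopologicalGroup G] [LocallyCompactSpace G]
    [SecondCountableTopology G] [T2Space G] [MeasurableSpace G] [BorelSpace G]
    (Γ : Subgroup G) (μ : Measure G) (m : Measure (G ⧸ Γ)) (c : ℝ≥0∞), LT Γ μ m c →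
    ∀ (S : Set (G → ℝ)) (M : ℝ) (ω : G → ℝ), S.Nonempty →
    Filter.Tendsto ω (nhds 1) (nhds 0) →
    (∀ b ∈ S, RIv (⊤ : Subgroup Γ) b ∧ (∀ g, |b g| ≤ M) ∧ ∀ u g, |b (u * g) - b g| ≤ ω u) →
    (∀ b : G → ℝ, (∀ ε : ℝ, 0 < ε → ∃ b' ∈ S, ∀ g, |b g - b' g| ≤ ε) → b ∈ S) →
    ∃ b₀ ∈ S, ∀ b ∈ S, mean m (fun g => b₀ g ^ 2) ≤ mean m (fun g => b g ^ 2)

/-- **EQ** (350), uses MEN AVP CMM HEC ACT TIN UCT CPT.  `S` = the continuous `Γ`-invariant `b` with `Ac x b ≤ 0` for all `x` in the commensurator,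
`mean b = mean a`, `|b| ≤ M`, `|b(u g) - b(g)| ≤ ω(u)` (UCT for `a`).  It contains `a`, is closed under uniform limits (`Ac x`, `mean` are
monotone, linear, constants), convex and invariant under `Td Γ δ` (ACT, TIN, HEC).  `b₀` from CPT.  `E(b) = mean b²`.  `T = Td Γ δ`:
`E(T b₀) ≤ mean (T (b₀²)) = E(b₀)` (HEC (5), TIN), and by minimality for `(b₀ + T b₀) / 2`: `E(b₀) ≤ (E(b₀) + E(T b₀)) / 2 -
mean (b₀ - T b₀)² / 4`, so `b₀ = T b₀` (`MP.zero`).  Then `mean (T (b₀²) - (T b₀)²) = E(b₀) - E(b₀) = 0`, the integrand is `≥ 0`, so it is zero,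
so by HEC (6) `b₀(g δ) = T b₀ (g) = b₀(g)` for all `g` and all `δ` in the commensurator, which is dense: `b₀` is a constant `t`,
`t = mean b₀ = mean a`, and `t = Ac 1 b₀ ≤ 0`. -/
def Stmt_EQ : Prop :=
  ∀ (G H : Type) [Group G] [TopologicalSpace G] [IsTopologicalGroup G] [LocallyCompactSpace G]
    [SecondCountableTopology G] [T2Space G] [MeasurableSpace G] [BorelSpace G]
    [Group H] [TopologicalSpace H] [IsTopologicalGroup H] [LocallyCompactSpace H]
    [SecondCountableTopology H] [T2Space H] [MeasurableSpace H] [BorelSpace H]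
    (Γ : Subgroup G) (μ : Measure G) (m : Measure (G ⧸ Γ)) (c : ℝ≥0∞)
    (Λ : Subgroup H) (μ' : Measure H) (m' : Measure (H ⧸ Λ)) (c' : ℝ≥0∞)
    (φ : H →* G), LT Γ μ m c → LT Λ μ' m' c' → Continuous φ → (∀ y ∈ Λ, φ y ∈ Γ) →
    Dense (Subgroup.Commensurable.commensurator Γ : Set G) →
    ∀ a : G → ℝ, Continuous a → RIv (⊤ : Subgroup Γ) a →
    (∀ x ∈ Subgroup.Commensurable.commensurator Γ, Ac m' φ Γ x a ≤ 0) → mean m a ≤ 0

/-- **STA** (300), uses CMM HGP EQ MEN AVP.  `B`, `C` from HGP.  `a(g) = ‖f(φ(h₀) g) - f(g)‖² - C ∫_B ‖f(φ(h) g) - f(g)‖² dμ'(h)`, continuous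
(`continuous_parametric_integral_of_continuous`) and `Γ`-invariant.  For `x` in the commensurator `F(h) = f(φ(h) x)` is equivariant for
`N = Nc Λ φ Γ x` and `π'(n) = π(x⁻¹ φ(n) x)`, and `a(φ(h) x) = ‖F(h₀ h) - F(h)‖² - C bb μ' B F h`, so `Ac x a ≤ 0` (HGP, `AP.lin`).  EQ and
`MP.lin`. -/
def Stmt_STA : Prop :=
  ∀ (G H : Type) [Group G] [TopologicalSpace G] [IsTopologicalGroup G] [LocallyCompactSpace G]
    [SecondCountableTopology G] [T2Space G] [MeasurableSpace G] [BorelSpace G]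
    [Group H] [TopologicalSpace H] [IsTopologicalGroup H] [LocallyCompactSpace H]
    [SecondCountableTopology H] [T2Space H] [MeasurableSpace H] [BorelSpace H]
    (Γ : Subgroup G) (μ : Measure G) (m : Measure (G ⧸ Γ)) (c : ℝ≥0∞)
    (Λ : Subgroup H) (μ' : Measure H) (m' : Measure (H ⧸ Λ)) (c' : ℝ≥0∞)
    (φ : H →* G), LT Γ μ m c → LT Λ μ' m' c' → Continuous φ → (∀ y ∈ Λ, φ y ∈ Γ) →
    Dense (Subgroup.Commensurable.commensurator Γ : Set G) → UGap Λ →
    ∃ (B : Set H) (C : ℝ), IsCompact B ∧ 0 ≤ C ∧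
    ∀ (K : Type) [NormedAddCommGroup K] [InnerProductSpace ℂ K] [CompleteSpace K] (S : SM K)
      (π : Γ →* (K ≃ₗᵢ[ℂ] K)), (∀ γ, S.Mem (opU (π γ))) →
      ∀ f : G → K, Continuous f → Eqw Γ π f → ∀ h₀ : H,
      mean m (fun g => ‖f (φ h₀ * g) - f g‖ ^ 2) ≤
        C * mean m (fun g => ∫ h in B, ‖f (φ h * g) - f g‖ ^ 2 ∂μ')

/-! ## Part D: the end -/

/-- **SCK** (150), uses SEC.  (`Pool.TFD.Stmt_SEC`.)  `σ₀` the measurable section, `Γ = {γ_0, γ_1, ..}`; `σ(x) = σ₀(x) γ_n` with the first `n` such that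
`σ₀(x) γ_n ∈ K`; `K` is closed. -/
def Stmt_SCK : Prop :=
  ∀ (G : Type) [Group G] [TopologicalSpace G] [IsTopologicalGroup G] [LocallyCompactSpace G]
    [SecondCountableTopology G] [T2Space G] [MeasurableSpace G] [BorelSpace G]
    (Γ : Subgroup G) (K : Set G), DiscreteTopology Γ → IsCompact K →
    (∀ g : G, ∃ γ ∈ Γ, g * γ ∈ K) →
    ∃ σ : G ⧸ Γ → G, Measurable σ ∧ (∀ x, (σ x : G ⧸ Γ) = x) ∧ ∀ x, σ x ∈ K

/-- **ISM** (250), uses MEN.  `‖f‖` is continuous and invariant, so bounded, and `f ∘ σ` is measurable: `F = toLp (f ∘ σ)`.  By `IsInd`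
`(U g F)(x) = π(c) f(σ(g⁻¹ x))` with `c = σ(x)⁻¹ g σ(g⁻¹ x)`, and `σ(g⁻¹ x) = g⁻¹ σ(x) c`, so it is `f(g⁻¹ σ(x))` (a.e.).  So `‖U g F - F‖² =
∫ ‖f(g⁻¹ σ(x)) - f(σ(x))‖² dm`, and `σ(x)` can be replaced by `out x` (invariance). -/
def Stmt_ISM : Prop :=
  ∀ (G : Type) [Group G] [TopologicalSpace G] [IsTopologicalGroup G] [LocallyCompactSpace G]
    [SecondCountableTopology G] [T2Space G] [MeasurableSpace G] [BorelSpace G]
    (Γ : Subgroup G) (μ : Measure G) (m : Measure (G ⧸ Γ)) (c : ℝ≥0∞), LT Γ μ m c →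
    ∀ (σ : G ⧸ Γ → G) (hσ : ∀ x, (σ x : G ⧸ Γ) = x), Measurable σ →
    ∀ (K : Type) [NormedAddCommGroup K] [InnerProductSpace ℂ K] [CompleteSpace K]
      [SecondCountableTopology K] (π : Γ →* (K ≃ₗᵢ[ℂ] K)) (U : G →* (Lp K 2 m ≃ₗᵢ[ℂ] Lp K 2 m)),
    IsInd Γ m σ hσ K π U → ∀ f : G → K, Continuous f → Eqw Γ π f →
    ∃ F : Lp K 2 m, (⇑F =ᵐ[m] fun x => f (σ x)) ∧
      ∀ g, ‖U g F - F‖ ^ 2 = mean m (fun z => ‖f (g⁻¹ * z) - f z‖ ^ 2)

/-- **CIR** (150), uses nothing.  `w` = the element of minimal norm of the closed convex hull of the orbit (`exists_norm_eq_iInf_of_complete_convex`);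
it is unique, so fixed by the `U a`; the hull lies in the closed ball of radius `r` around `v`. -/
def Stmt_CIR : Prop :=
  ∀ (A E : Type) [Group A] [NormedAddCommGroup E] [InnerProductSpace ℂ E] [CompleteSpace E]
    (U : A →* (E ≃ₗᵢ[ℂ] E)) (v : E) (r : ℝ), (∀ a, ‖U a v - v‖ ≤ r) →
    ∃ w, (∀ a, U a w = w) ∧ ‖v - w‖ ≤ r

/-- **MAU** (120), uses nothing.  `‖U u w - w‖ = ‖U (p^n u p^(-n)) w - w‖ → 0`, since `U (p^(-n)) w = w` and `U (p^n)` is an isometry.  The set of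
the `u` with `U u w = w` is a closed subgroup. -/
def Stmt_MAU : Prop :=
  ∀ (G E : Type) [Group G] [TopologicalSpace G] [IsTopologicalGroup G] [NormedAddCommGroup E]
    [InnerProductSpace ℂ E] (U : G →* (E ≃ₗᵢ[ℂ] E)), (∀ v, Continuous fun g => U g v) →
    ∀ (P : Set G) (w : E), (∀ p ∈ P, U p w = w) →
    ∀ u ∈ closure ((Subgroup.closure {u : G | ∃ p ∈ P, Filter.Tendsto
      (fun n : ℕ => p ^ n * u * (p ^ n)⁻¹) Filter.atTop (nhds 1)} : Subgroup G) : Set G), U u w = w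

/-- **SMG** (400), uses FVC STA SCK ISM CIR MAU MEN COC REPK MCK SCN SPX FIXK.  (The last six are from `Pool.TFD` and `Pool.TC`: `Stmt_COC`, `Stmt_REPK`, ..)
`D₀` compact with `D₀ Γ = G`, `σ` from SCK with values in `D₀`; `B`, `C₀` from STA, `s = (μ' B).toReal`; `D = D₀ ∪ φ(B) D₀ ∪ C⁻¹ D₀`; `Q` from
FVC for `D`, together with `1`; `ε > 0` with `ε (3 + 6 √(C₀ s)) < 1`.  Let `v ⊥` the invariant vectors and suppose `‖π q v - v‖ < ε ‖v‖` for
`q ∈ Q` (so `v ≠ 0`).  `f` from FVC, `‖f - v‖ ≤ ε ‖v‖` on `D`.  `K` is second countable (as in the beginning of the proof of `p_CORE`,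
`B_CORE.lean`), `U` the induced representation (REPK, with SPX, MCK, SCN strongly continuous), `F` from ISM.  For `h ∈ B`, `z ∈ D₀`:
`‖f(φ(h) z) - f(z)‖ ≤ 2 ε ‖v‖`, so by STA (invariance: `out x` may be replaced by `σ x ∈ D₀`) `‖U (φ h₀) F - F‖ ≤ r = 2 ε ‖v‖ √(C₀ s)` for all `h₀ ∈ H`.
CIR for `U ∘ φ`: `F₀` fixed by `φ(H)`, `‖F - F₀‖ ≤ r`; by MAU `U u F₀ = F₀` for `u` in the closure.  For `x ∈ C`:
`‖U x F - F‖² = mean ‖f(x⁻¹ z) - f(z)‖² ≤ (2 ε ‖v‖)²`, so for all `g = x u`: `‖U g F₀ - F₀‖ = ‖U x F₀ - F₀‖ ≤ 2 ε ‖v‖ + 2 r`.  CIR: `F₁` fixed by `G`,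
`‖F₀ - F₁‖ ≤ 2 ε ‖v‖ + 2 r`; FIXK: `F₁ = cst m w`, `π γ w = w`.  `‖F - cst m v‖ ≤ ε ‖v‖` (`F = f ∘ σ`).  So `‖v - w‖ ≤ 3 ε ‖v‖ + 3 r < ‖v‖`, but
`⟪w, v⟫ = 0`, contradiction. -/
def Stmt_SMG : Prop :=
  ∀ (G H : Type) [Group G] [TopologicalSpace G] [IsTopologicalGroup G] [LocallyCompactSpace G]
    [SecondCountableTopology G] [T2Space G] [MeasurableSpace G] [BorelSpace G]
    [Group H] [TopologicalSpace H] [IsTopologicalGroup H] [LocallyCompactSpace H]
    [SecondCountableTopology H] [T2Space H] [MeasurableSpace H] [BorelSpace H]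
    (Γ : Subgroup G) (μ : Measure G) (m : Measure (G ⧸ Γ)) (c : ℝ≥0∞)
    (Λ : Subgroup H) (μ' : Measure H) (m' : Measure (H ⧸ Λ)) (c' : ℝ≥0∞)
    (φ : H →* G), LT Γ μ m c → LT Λ μ' m' c' → Continuous φ → (∀ y ∈ Λ, φ y ∈ Γ) →
    Dense (Subgroup.Commensurable.commensurator Γ : Set G) → UGap Λ →
    ∀ C : Set G, IsCompact C →
    (∀ g : G, ∃ x ∈ C, ∃ u ∈ closure ((Subgroup.closure {u : G | ∃ p ∈ Set.range φ,
      Filter.Tendsto (fun n : ℕ => p ^ n * u * (p ^ n)⁻¹) Filter.atTop (nhds 1)} :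
        Subgroup G) : Set G), g = x * u) →
    SMGap Γ

end Pool.BS
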